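import Pool.Agent.H571R3.Fold
set_option autoImplicit false
set_option linter.unusedSectionVars false
set_option linter.unusedVariables false
namespace H571R3
open Complex Real

noncomputable section

/-- closed unit disc -/
abbrev Dk := {z : ℂ // ‖z‖ ≤ 1}

variable {p : ℕ}

/-- reflection as a permutation of the closed disc -/
def R (hp : 3 ≤ p) (i : Fin p) : Equiv.Perm Dk :=
  Function.Involutive.toPerm (fun z => (⟨r p (i:ℕ) z.1, norm_r_le hp z.2 _⟩ : Dk))
    (fun z => Subtype.ext (r_r hp z.2 _))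

lemma R_coe (hp : 3 ≤ p) (i : Fin p) (z : Dk) : ((R hp i z : Dk) : ℂ) = r p (i:ℕ) z.1 := rfl

lemma R_mul_self (hp : 3 ≤ p) (i : Fin p) : R hp i * R hp i = 1 := by
  ext z
  show ((R hp i (R hp i z) : Dk) : ℂ) = z
  rw [R_coe, R_coe, r_r hp z.2]

def act (hp : 3 ≤ p) (g : List (Fin p)) : Equiv.Perm Dk := (g.map (R hp)).prod

@[simp] lemma act_nil (hp : 3 ≤ p) : act hp [] = 1 := rfl
lemma act_cons (hp : 3 ≤ p) (i : Fin p) (g : List (Fin p)) : act hp (i :: g) = R hp i * act hp g := by
  unfold act; simp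
lemma act_append (hp : 3 ≤ p) (g h : List (Fin p)) : act hp (g ++ h) = act hp g * act hp h := by
  unfold act; simp
lemma act_singleton (hp : 3 ≤ p) (i : Fin p) : act hp [i] = R hp i := by unfold act; simp

lemma act_reverse (hp : 3 ≤ p) (g : List (Fin p)) : act hp g.reverse = (act hp g)⁻¹ := by
  induction g with
  | nil => simp
  | cons i g ih =>
    have h : (R hp i)⁻¹ = R hp i := inv_eq_of_mul_eq_one_left (R_mul_self hp i)
    rw [List.reverse_cons, act_append, ih, act_singleton, act_cons hp i g, mul_inv_rev, h]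

lemma continuous_R (hp : 3 ≤ p) (i : Fin p) : Continuous (R hp i : Dk → Dk) := by
  apply Continuous.subtype_mk
  exact continuousOn_iff_continuous_domRestrict.mp (r_continuousOn hp (i:ℕ))

lemma continuous_act (hp : 3 ≤ p) (g : List (Fin p)) : Continuous (act hp g : Dk → Dk) := by
  induction g with
  | nil => exact continuous_id
  | cons i g ih => rw [act_cons]; exact (continuous_R hp i).comp ih

lemma norm_act_lt (hp : 3 ≤ p) (g : List (Fin p)) {z : Dk} (hz : ‖z.1‖ < 1) : ‖(act hp g z).1‖ < 1 := by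
  induction g with
  | nil => exact hz
  | cons i g ih => rw [act_cons]; exact norm_r_lt hp ih _

lemma norm_act_eq (hp : 3 ≤ p) (g : List (Fin p)) {z : Dk} (hz : ‖z.1‖ = 1) : ‖(act hp g z).1‖ = 1 := by
  induction g with
  | nil => exact hz
  | cons i g ih => rw [act_cons]; exact norm_r_eq hp ih _

/-- the polygon -/
def Pol (hp : 3 ≤ p) : Set Dk := {w | ‖w.1‖ < 1 ∧ ∀ i : Fin p, tau p ≤ ‖w.1 - C p (i:ℕ)‖}

def Red (g : List (Fin p)) : Prop := g.IsChain (· ≠ ·)

lemma r_in (hp : 3 ≤ p) {i : Fin p} {w : ℂ} (hw : tau p < ‖w - C p (i:ℕ)‖) :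
    ‖r p (i:ℕ) w - C p (i:ℕ)‖ < tau p := by
  have ht := tau_pos hp
  rw [norm_r_sub_C, div_lt_iff₀ (by linarith)]; nlinarith

/-- ping-pong in the open disc -/
lemma pingpong (hp : 3 ≤ p) {w : Dk} (hw : w ∈ Pol hp) : ∀ (g : List (Fin p)) (i : Fin p), Red (i :: g) →
    ‖(act hp (i :: g) w).1 - C p (i:ℕ)‖ < tau p ∨
      (act hp (i :: g) w = w ∧ ‖w.1 - C p (i:ℕ)‖ = tau p ∧ g = []) := by
  intro g
  induction g with
  | nil =>
    intro i _
    rcases (hw.2 i).lt_or_eq with h | h
    · left; rw [act_singleton]; exact r_in hp h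
    · right
      refine ⟨?_, h.symm, rfl⟩
      rw [act_singleton]
      exact Subtype.ext (r_fix hp _ h.symm)
  | cons j g ih =>
    intro i hred
    left
    have hij : i ≠ j := by
      unfold Red at hred
      rw [List.isChain_cons_cons] at hred; exact hred.1
    have hred' : Red (j :: g) := by
      unfold Red at hred ⊢
      rw [List.isChain_cons_cons] at hred; exact hred.2
    rw [act_cons]
    apply r_in hp
    rcases ih j hred' with h | ⟨h1, h2, -⟩
    · exact out_of_in hp (Ne.symm hij) h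
    · rw [h1]; exact out_of_on hp (Ne.symm hij) hw.1 h2.le

lemma exists_red (hp : 3 ≤ p) (g : List (Fin p)) :
    ∃ m, Red m ∧ act hp m = act hp g ∧ (Even m.length ↔ Even g.length) := by
  induction g with
  | nil => exact ⟨[], List.isChain_nil, rfl, Iff.rfl⟩
  | cons i g ih =>
    obtain ⟨m, h1, h2, h3⟩ := ih
    cases m with
    | nil =>
      refine ⟨[i], List.isChain_singleton _, ?_, ?_⟩
      · rw [act_cons, act_cons, h2]
      · simp only [List.length_cons, Nat.even_add_one, h3]
    | cons j m =>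
      by_cases hij : i = j
      · subst hij
        refine ⟨m, ?_, ?_, ?_⟩
        · unfold Red at h1 ⊢; exact h1.tail
        · rw [act_cons, ← h2, act_cons, ← mul_assoc, R_mul_self, one_mul]
        · rw [List.length_cons, Nat.even_add_one] at h3 ⊢
          tauto
      · refine ⟨i :: j :: m, ?_, ?_, ?_⟩
        · unfold Red at h1 ⊢; rw [List.isChain_cons_cons]; exact ⟨hij, h1⟩
        · rw [act_cons, act_cons hp i g, h2]
        · rw [List.length_cons, Nat.even_add_one, h3, List.length_cons, Nat.even_add_one]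

/-- the polygon is a fundamental domain -/
lemma act_inj (hp : 3 ≤ p) {w w' : Dk} (hw : w ∈ Pol hp) (hw' : w' ∈ Pol hp) (g g' : List (Fin p))
    (h : act hp g w = act hp g' w') : w = w' ∧
      ((act hp g = act hp g' ∧ (Even g.length ↔ Even g'.length)) ∨
        (¬ (Even g.length ↔ Even g'.length) ∧ ∃ i : Fin p, ‖w.1 - C p (i:ℕ)‖ = tau p)) := by
  obtain ⟨m, h1, h2, h3⟩ := exists_red hp (g.reverse ++ g')
  have h4 : act hp m w' = w := by
    rw [h2, act_append, act_reverse, Equiv.Perm.mul_apply, ← h]; simp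
  rw [List.length_append, List.length_reverse, Nat.even_add] at h3
  rw [act_append, act_reverse] at h2
  cases m with
  | nil =>
    have e1 : w' = w := h4
    refine ⟨e1.symm, Or.inl ⟨?_, ?_⟩⟩
    · have := h2.symm
      rw [act_nil, inv_mul_eq_one] at this
      exact this
    · exact h3.mp (by simp)
  | cons i m =>
    rcases pingpong hp hw' m i h1 with h | ⟨e1, e2, e3⟩
    · rw [h4] at h; exact absurd h (not_lt.mpr (hw.2 i))
    · rw [h4] at e1
      refine ⟨e1, Or.inr ⟨?_, i, by rw [e1]; exact e2⟩⟩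
      rw [← h3, e3]; simp

/-- reduced words act differently -/
lemma red_inj (hp : 3 ≤ p) : ∀ (g g' : List (Fin p)), Red g → Red g' → act hp g = act hp g' → g = g' := by
  have ht := tau_pos hp
  have h0 : (⟨0, by simp⟩ : Dk) ∈ Pol hp := by
    refine ⟨by simp, fun i => ?_⟩
    simp only [zero_sub, norm_neg]
    have := norm_C_sq (p := p) (i:ℕ)
    nlinarith [norm_nonneg (C p (i:ℕ))]
  have h1 : ∀ i : Fin p, tau p < ‖(0:ℂ) - C p (i:ℕ)‖ := by
    intro i
    simp only [zero_sub, norm_neg]
    have := norm_C_sq (p := p) (i:ℕ)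
    nlinarith [norm_nonneg (C p (i:ℕ))]
  have hD : ∀ (g : List (Fin p)) (i : Fin p), Red (i :: g) →
      ‖(act hp (i :: g) ⟨0, by simp⟩).1 - C p (i:ℕ)‖ < tau p := by
    intro g i hr
    rcases pingpong hp h0 g i hr with h | ⟨-, h, -⟩
    · exact h
    · exact absurd h (h1 i).ne'
  intro g
  induction g with
  | nil =>
    intro g' _ hr h
    cases g' with
    | nil => rfl
    | cons i g' =>
      have := hD g' i hr
      rw [← h] at this
      exact absurd this (not_lt.mpr (h1 i).le)
  | cons i g ih =>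
    intro g' hr hr' h
    cases g' with
    | nil =>
      have := hD g i hr
      rw [h] at this
      exact absurd this (not_lt.mpr (h1 i).le)
    | cons j g' =>
      have a := hD g i hr
      have b := hD g' j hr'
      rw [← h] at b
      by_cases hij : i = j
      · subst hij
        rw [act_cons, act_cons, mul_right_inj] at h
        rw [ih g' (by unfold Red at hr ⊢; exact hr.tail) (by unfold Red at hr' ⊢; exact hr'.tail) h]
      · exact absurd b (not_lt.mpr (out_of_in hp hij a).le)

variable [NeZero p]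

def PsD (hp : 3 ≤ p) (z : ℂ) : Dk := ⟨Ps p z, norm_Ps_le hp z⟩

lemma continuous_PsD (hp : 3 ≤ p) : Continuous (PsD hp) := (continuous_Ps hp).subtype_mk _

def Hub (p : ℕ) (z : ℂ) : Prop := ∃ k : Fin p, z = V p (k:ℕ)

lemma PsD_mem (hp : 3 ≤ p) {z : ℂ} (hz : ¬ Hub p z) : PsD hp z ∈ Pol hp :=
  ⟨norm_Ps_lt hp (fun k hk => hz ⟨k, hk⟩), fun i => Ps_out hp i z⟩

def Par (g : List (Fin p)) (z : ℂ) : Prop := (‖z‖ < 1 → Even g.length) ∧ (1 < ‖z‖ → ¬ Even g.length)

/-- projection is well defined -/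
lemma proj (hp : 3 ≤ p) {z z' : ℂ} {g g' : List (Fin p)} (hz : ¬ Hub p z) (hz' : ¬ Hub p z')
    (hg : Par g z) (hg' : Par g' z') (h : act hp g (PsD hp z) = act hp g' (PsD hp z')) :
    z = z' ∧ ((Even g.length ↔ Even g'.length) → act hp g = act hp g') := by
  obtain ⟨h1, h2⟩ := act_inj hp (PsD_mem hp hz) (PsD_mem hp hz') g g' h
  have h1' : Ps p z = Ps p z' := congrArg Subtype.val h1
  rcases h2 with ⟨h2, h3⟩ | ⟨h3, i, hi⟩
  · refine ⟨Ps_inj hp h1' ?_, fun _ => h2⟩
    by_cases he : Even g.length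
    · left
      exact ⟨not_lt.mp (fun h => hg.2 h he), not_lt.mp (fun h => hg'.2 h (h3.mp he))⟩
    · right
      exact ⟨not_lt.mp (fun h => he (hg.1 h)), not_lt.mp (fun h => he (h3.mpr (hg'.1 h)))⟩
  · refine ⟨Ps_inj hp h1' ?_, fun h => absurd h h3⟩
    have a : ‖z‖ = 1 := (Ps_on hp hi).1
    have hi' : ‖Ps p z' - C p (i:ℕ)‖ = tau p := by rw [← h1']; exact hi
    have b : ‖z'‖ = 1 := (Ps_on hp hi').1
    left; exact ⟨a.le, b.le⟩

/-- even words act freely -/
lemma free (hp : 3 ≤ p) {z : ℂ} {g m : List (Fin p)} (hz : ¬ Hub p z) (hg : Par g z)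
    (hm : Even m.length) (h : act hp m (act hp g (PsD hp z)) = act hp g (PsD hp z)) : act hp m = 1 := by
  have h1 : act hp (m ++ g) (PsD hp z) = act hp g (PsD hp z) := by rw [act_append]; exact h
  have hpar : Even (m ++ g).length ↔ Even g.length := by
    rw [List.length_append, Nat.even_add]; tauto
  have hg' : Par (m ++ g) z := ⟨fun h => hpar.mpr (hg.1 h), fun h h' => hg.2 h (hpar.mp h')⟩
  have := (proj hp hz hz hg' hg h1).2 hpar
  rw [act_append] at this
  exact mul_eq_right.mp this

end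

end H571R3
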