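import Pool.Agent.H571R3.Plane
import Pool.Agent.Helper770.Straight
set_option autoImplicit false
set_option linter.unusedSectionVars false
set_option linter.unusedVariables false

namespace H571R3
open Pool.Agent.Helper770.Crossing Pool.Agent.Helper770.Exist Pool.Agent.Helper770.Straight

/-- Two edges that cross have no common end. -/
def Good {V : Type*} {G : SimpleGraph V} (D : Drawing G) : Prop :=
  ∀ e f z, (s(e, f), z) ∈ D.crossings → ∀ v, v ∈ e → v ∉ f

lemma pull_bound {V W : Type*} {G : SimpleGraph V} (D : Drawing G) (hD : D.crossings.Finite) (F : W ↪ V) :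
    crossingNumber (G.comap F) ≤
      {x | x ∈ D.crossings ∧ ∀ e ∈ x.1, ∀ v ∈ e, v ∈ Set.range F}.ncard := by
  have hinj : Function.Injective (fun x : Sym2 (Sym2 W) × ℂ =>
      ((x.1.map (fun e : Sym2 W => e.map F), x.2) : Sym2 (Sym2 V) × ℂ)) := by
    rintro ⟨x, z⟩ ⟨y, z'⟩ hxy
    simp only [Prod.mk.injEq] at hxy
    have := Sym2.map.injective (Sym2.map.injective F.injective) hxy.1
    rw [this, hxy.2]
  have hsub : (fun x : Sym2 (Sym2 W) × ℂ =>
      ((x.1.map (fun e : Sym2 W => e.map F), x.2) : Sym2 (Sym2 V) × ℂ)) '' (pull D F).crossings ⊆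
      {x | x ∈ D.crossings ∧ ∀ e ∈ x.1, ∀ v ∈ e, v ∈ Set.range F} := by
    rintro _ ⟨x, ⟨e, he, f', hf', hef, hx, h1, h2⟩, rfl⟩
    refine ⟨⟨e.map F, comap_mem F he, f'.map F, comap_mem F hf', fun hh =>
      hef (Sym2.map.injective F.injective hh), ?_, h1, h2⟩, ?_⟩
    · simp only
      rw [hx, Sym2.map_mk]
    · intro g hg v hv
      simp only at hg
      obtain ⟨g', -, rfl⟩ := Sym2.mem_map.mp hg
      obtain ⟨w, -, rfl⟩ := Sym2.mem_map.mp hv
      exact ⟨w, rfl⟩
  have hfin0 : {x | x ∈ D.crossings ∧ ∀ e ∈ x.1, ∀ v ∈ e, v ∈ Set.range F}.Finite :=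
    hD.subset (fun x hx => hx.1)
  have hfin : (pull D F).crossings.Finite :=
    Set.Finite.of_finite_image (hfin0.subset hsub) hinj.injOn
  refine (crossingNumber_le _ hfin).trans ?_
  rw [← Set.ncard_image_of_injective _ hinj]
  exact Set.ncard_le_ncard hsub hfin0

section
variable {p : ℕ} (hp : 10 ≤ p)

/-- the images of the first ten hubs -/
def emb (σ : Equiv.Perm (Fin p)) : Fin 10 ↪ Fin p := (Fin.castLEEmb hp).trans σ.toEmbedding

def FF (q : ℕ) (σ : Equiv.Perm (Fin p)) : Fin 10 ⊕ Fin q ↪ Fin p ⊕ Fin q :=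
  (emb hp σ).sumMap (Function.Embedding.refl _)

open Classical in
noncomputable def NN (a b : Fin p) : ℕ :=
  (Finset.univ.filter (fun σ : Equiv.Perm (Fin p) => a ∈ Set.range (emb hp σ) ∧ b ∈ Set.range (emb hp σ))).card

lemma exists_two {a a' b b' : Fin p} (h : a ≠ a') (h' : b ≠ b') :
    ∃ τ : Equiv.Perm (Fin p), τ a = b ∧ τ a' = b' := by
  have h1 : Equiv.swap a b a' ≠ b := by
    intro hh
    apply h
    apply (Equiv.swap a b).injective
    rw [Equiv.swap_apply_left, hh]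
  refine ⟨Equiv.swap (Equiv.swap a b a') b' * Equiv.swap a b, ?_, ?_⟩
  · rw [Equiv.Perm.mul_apply, Equiv.swap_apply_left, Equiv.swap_apply_of_ne_of_ne h1.symm h']
  · rw [Equiv.Perm.mul_apply, Equiv.swap_apply_left]

lemma NN_le {a a' b b' : Fin p} (h : a ≠ a') (h' : b ≠ b') : NN hp a a' ≤ NN hp b b' := by
  classical
  obtain ⟨τ, h1, h2⟩ := exists_two h h'
  unfold NN
  refine Finset.card_le_card_of_injOn (fun σ => τ * σ) ?_ (fun σ _ σ' _ hh => mul_left_cancel hh)
  intro σ hσ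
  obtain ⟨-, ⟨i, hi⟩, ⟨j, hj⟩⟩ := Finset.mem_filter.mp (Finset.mem_coe.mp hσ)
  simp only [Finset.coe_filter, Finset.mem_univ, true_and, Set.mem_ofPred_eq]
  refine ⟨⟨i, ?_⟩, ⟨j, ?_⟩⟩
  · rw [← h1, ← hi]; rfl
  · rw [← h2, ← hj]; rfl

lemma NN_eq {a a' : Fin p} (h : a ≠ a') : p * (p - 1) * NN hp a a' = 90 * Fintype.card (Equiv.Perm (Fin p)) := by
  classical
  have h1 : ∑ x ∈ (Finset.univ : Finset (Fin p)).offDiag, NN hp x.1 x.2 = p * (p - 1) * NN hp a a' := by
    rw [Finset.sum_congr rfl (fun x hx => le_antisymm (NN_le hp (Finset.mem_offDiag.mp hx).2.2 h)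
      (NN_le hp h (Finset.mem_offDiag.mp hx).2.2)), Finset.sum_const, Finset.offDiag_card, smul_eq_mul,
      Finset.card_univ, Fintype.card_fin, Nat.mul_sub, mul_one]
  rw [← h1]
  unfold NN
  simp only [Finset.card_filter]
  rw [Finset.sum_comm]
  have h2 : ∀ σ : Equiv.Perm (Fin p), ∑ x ∈ (Finset.univ : Finset (Fin p)).offDiag,
      (if x.1 ∈ Set.range (emb hp σ) ∧ x.2 ∈ Set.range (emb hp σ) then 1 else 0) = 90 := by
    intro σ
    rw [← Finset.card_filter]
    have h3 : (Finset.univ : Finset (Fin p)).offDiag.filter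
        (fun x => x.1 ∈ Set.range (emb hp σ) ∧ x.2 ∈ Set.range (emb hp σ)) =
        (Finset.univ.map (emb hp σ)).offDiag := by
      ext x
      simp only [Finset.mem_filter, Finset.mem_offDiag, Finset.mem_univ, true_and, Finset.mem_map, Set.mem_range]
      tauto
    rw [h3, Finset.offDiag_card, Finset.card_map, Finset.card_univ, Fintype.card_fin]
  rw [Finset.sum_congr rfl (fun σ _ => h2 σ), Finset.sum_const, Finset.card_univ, smul_eq_mul, mul_comm]

/-- the sum over all choices of ten hubs -/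
lemma sum_bound {q : ℕ} (G : SimpleGraph (Fin p ⊕ Fin q))
    (hG : G ≤ completeBipartiteGraph (Fin p) (Fin q)) (D : Drawing G) (hD : D.crossings.Finite) (hg : Good D) :
    p * (p - 1) * ∑ σ : Equiv.Perm (Fin p), crossingNumber (G.comap (FF hp q σ)) ≤
      90 * Fintype.card (Equiv.Perm (Fin p)) * D.crossings.ncard := by
  classical
  let X := hD.toFinset
  let W : Equiv.Perm (Fin p) → Finset (Sym2 (Sym2 (Fin p ⊕ Fin q)) × ℂ) := fun σ =>
    X.filter (fun x => ∀ e ∈ x.1, ∀ v ∈ e, v ∈ Set.range (FF hp q σ))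
  have h1 : ∀ σ, crossingNumber (G.comap (FF hp q σ)) ≤ (W σ).card := by
    intro σ
    refine (pull_bound D hD (FF hp q σ)).trans (le_of_eq ?_)
    rw [← Set.ncard_coe_finset]
    congr 1
    ext x
    simp [W, X]
  have h2 : ∑ σ, (W σ).card = ∑ x ∈ X, (Finset.univ.filter (fun σ : Equiv.Perm (Fin p) =>
      ∀ e ∈ x.1, ∀ v ∈ e, v ∈ Set.range (FF hp q σ))).card := by
    simp only [W, Finset.card_filter]
    rw [Finset.sum_comm]
    refine Finset.sum_congr rfl (fun x _ => Finset.sum_congr rfl (fun σ _ => ?_))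
    congr
  have h3 : ∀ x ∈ X, p * (p - 1) * (Finset.univ.filter (fun σ : Equiv.Perm (Fin p) =>
      ∀ e ∈ x.1, ∀ v ∈ e, v ∈ Set.range (FF hp q σ))).card ≤ 90 * Fintype.card (Equiv.Perm (Fin p)) := by
    rintro ⟨x, z⟩ hx
    have hx' : (x, z) ∈ D.crossings := hD.mem_toFinset.mp hx
    obtain ⟨e, he, f, hf, hef, hxe, -, -⟩ := hx'
    simp only at hxe
    subst hxe
    have hhub : ∀ g ∈ G.edgeSet, ∃ a : Fin p, Sum.inl a ∈ g := by
      intro g hgG
      induction g with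
      | _ u v =>
        have := hG hgG
        rcases u with u | u
        · exact ⟨u, Sym2.mem_mk_left _ _⟩
        · rcases v with v | v
          · exact ⟨v, Sym2.mem_mk_right _ _⟩
          · simp at this
    obtain ⟨a, ha⟩ := hhub e he
    obtain ⟨b, hb⟩ := hhub f hf
    have hab : a ≠ b := by
      rintro rfl
      exact hg e f z (hD.mem_toFinset.mp hx) _ ha hb
    rw [← NN_eq hp hab]
    apply Nat.mul_le_mul_left
    unfold NN
    apply Finset.card_le_card
    intro σ hσ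
    have hσ' := (Finset.mem_filter.mp hσ).2
    have key : ∀ c : Fin p, (Sum.inl c : Fin p ⊕ Fin q) ∈ Set.range (FF hp q σ) → c ∈ Set.range (emb hp σ) := by
      rintro c ⟨w, hw⟩
      rcases w with w | w
      · exact ⟨w, Sum.inl_injective hw⟩
      · exact absurd hw (by simp [FF])
    exact Finset.mem_filter.mpr ⟨Finset.mem_univ _, key a (hσ' e (Sym2.mem_mk_left _ _) _ ha),
      key b (hσ' f (Sym2.mem_mk_right _ _) _ hb)⟩
  calc p * (p - 1) * ∑ σ : Equiv.Perm (Fin p), crossingNumber (G.comap (FF hp q σ))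
      ≤ p * (p - 1) * ∑ σ, (W σ).card := Nat.mul_le_mul_left _ (Finset.sum_le_sum (fun σ _ => h1 σ))
    _ = ∑ x ∈ X, p * (p - 1) * (Finset.univ.filter (fun σ : Equiv.Perm (Fin p) =>
          ∀ e ∈ x.1, ∀ v ∈ e, v ∈ Set.range (FF hp q σ))).card := by rw [h2, Finset.mul_sum]
    _ ≤ ∑ x ∈ X, 90 * Fintype.card (Equiv.Perm (Fin p)) := Finset.sum_le_sum h3
    _ = 90 * Fintype.card (Equiv.Perm (Fin p)) * D.crossings.ncard := by
        rw [Finset.sum_const, smul_eq_mul, mul_comm, Set.ncard_eq_toFinset_card _ hD]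

include hp in
theorem average_k {q : ℕ} (G₁ G₂ : SimpleGraph (Fin p ⊕ Fin q))
    (h : G₁ ⊔ G₂ = completeBipartiteGraph (Fin p) (Fin q)) (D₁ : Drawing G₁) (D₂ : Drawing G₂)
    (hf₁ : D₁.crossings.Finite) (hf₂ : D₂.crossings.Finite) (hg₁ : Good D₁) (hg₂ : Good D₂) (k : ℕ) :
    p * (p - 1) * (k * (6 * q)) ≤ 90 * (D₁.crossings.ncard + D₂.crossings.ncard) +
      p * (p - 1) * (2 * (k * (k + 1) * 8)) := by
  classical
  have h1 := sum_bound hp G₁ (h ▸ le_sup_left) D₁ hf₁ hg₁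
  have h2 := sum_bound hp G₂ (h ▸ le_sup_right) D₂ hf₂ hg₂
  have h3 : ∀ σ : Equiv.Perm (Fin p), k * (6 * q) ≤ crossingNumber (G₁.comap (FF hp q σ)) +
      crossingNumber (G₂.comap (FF hp q σ)) + 2 * (k * (k + 1) * 8) := by
    intro σ
    refine two_planes (p := 10) (by norm_num) q (G₁.comap (FF hp q σ)) (G₂.comap (FF hp q σ)) ?_ k
    ext u v
    have h4 : (G₁ ⊔ G₂).Adj (FF hp q σ u) (FF hp q σ v) ↔
      (completeBipartiteGraph (Fin p) (Fin q)).Adj (FF hp q σ u) (FF hp q σ v) := by rw [h]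
    rcases u with u | u <;> rcases v with v | v <;> simpa [FF] using h4
  have h5 := Finset.sum_le_sum (fun σ (_ : σ ∈ (Finset.univ : Finset (Equiv.Perm (Fin p)))) => h3 σ)
  rw [Finset.sum_add_distrib, Finset.sum_add_distrib, Finset.sum_const, Finset.sum_const, Finset.card_univ,
    smul_eq_mul, smul_eq_mul] at h5
  have hc : 0 < Fintype.card (Equiv.Perm (Fin p)) := Fintype.card_pos
  set M := Fintype.card (Equiv.Perm (Fin p)) with hM
  have h6 := Nat.mul_le_mul_left (p * (p - 1)) h5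
  refine Nat.le_of_mul_le_mul_left ?_ hc
  calc M * (p * (p - 1) * (k * (6 * q))) = p * (p - 1) * (M * (k * (6 * q))) := by ring
    _ ≤ _ := h6
    _ = p * (p - 1) * ∑ σ : Equiv.Perm (Fin p), crossingNumber (G₁.comap (FF hp q σ)) +
        p * (p - 1) * ∑ σ : Equiv.Perm (Fin p), crossingNumber (G₂.comap (FF hp q σ)) +
        M * (p * (p - 1) * (2 * (k * (k + 1) * 8))) := by ring
    _ ≤ 90 * M * D₁.crossings.ncard + 90 * M * D₂.crossings.ncard +
        M * (p * (p - 1) * (2 * (k * (k + 1) * 8))) := by gcongr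
    _ = _ := by ring

include hp in
theorem average {q : ℕ} (G₁ G₂ : SimpleGraph (Fin p ⊕ Fin q))
    (h : G₁ ⊔ G₂ = completeBipartiteGraph (Fin p) (Fin q)) (D₁ : Drawing G₁) (D₂ : Drawing G₂)
    (hf₁ : D₁.crossings.Finite) (hf₂ : D₂.crossings.Finite) (hg₁ : Good D₁) (hg₂ : Good D₂) :
    (p : ℤ) * (p - 1) * (q * (3 * q - 16)) ≤ 480 * ((D₁.crossings.ncard : ℤ) + D₂.crossings.ncard) := by
  have h1 := average_k hp G₁ G₂ h D₁ D₂ hf₁ hf₂ hg₁ hg₂ (3 * q / 16)
  have hp1 : 1 ≤ p := by omega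
  obtain ⟨r, hr, hk⟩ : ∃ r : ℕ, r < 16 ∧ 16 * (3 * q / 16) + r = 3 * q :=
    ⟨3 * q % 16, Nat.mod_lt _ (by norm_num), Nat.div_add_mod _ _⟩
  generalize 3 * q / 16 = k at h1 hk
  zify [hp1] at h1
  have hk' : 16 * (k : ℤ) + r = 3 * q := by exact_mod_cast hk
  have hr' : (r : ℤ) < 16 := by exact_mod_cast hr
  have hr0 : (0 : ℤ) ≤ r := by positivity
  have hpp : (0 : ℤ) ≤ (p : ℤ) * (p - 1) := by
    have : (1 : ℤ) ≤ p := by exact_mod_cast hp1
    nlinarith
  set A : ℤ := (p : ℤ) * (p - 1) with hA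
  set X : ℤ := (D₁.crossings.ncard : ℤ) + D₂.crossings.ncard with hX
  have h2 : A * ((k : ℤ) * (6 * q) - 16 * (k * (k + 1))) ≤ 90 * X := by linarith
  have h3 : 3 * (q * (3 * q - 16)) ≤ 16 * ((k : ℤ) * (6 * q) - 16 * (k * (k + 1))) := by
    have e : (r : ℤ) = 3 * q - 16 * k := by linarith
    have : 16 * ((k : ℤ) * (6 * q) - 16 * (k * (k + 1))) - 3 * (q * (3 * q - 16)) = r * (16 - r) := by
      rw [e]; ring
    nlinarith
  have h4 := mul_le_mul_of_nonneg_left h3 hpp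
  nlinarith
end

end H571R3
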