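import Pool.Agent.Helper770.Straight
set_option autoImplicit false

/-! Drawings of bipartite graphs with one class on the real axis and the other on the imaginary
axis. -/

namespace H571R3.Axis

open Pool.Agent.Helper770.Crossing Pool.Agent.Helper770.Straight

variable {H S : Type} (X : H → ℝ) (Y : S → ℝ)

/-- the positions -/
def pos : H ⊕ S → ℂ
  | Sum.inl h => ⟨X h, 0⟩
  | Sum.inr s => ⟨0, Y s⟩

structure Ok : Prop where
  hX : ∀ h, X h ≠ 0
  hY : ∀ s, Y s ≠ 0
  iX : Function.Injective X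
  iY : Function.Injective Y

variable {X Y}

lemma pos_inj (h : Ok X Y) : Function.Injective (pos X Y) := by
  rintro (a | a) (b | b) e
  · simp only [pos, Complex.mk.injEq] at e
    rw [h.iX e.1]
  · simp only [pos, Complex.mk.injEq] at e
    exact absurd e.1 (h.hX a)
  · simp only [pos, Complex.mk.injEq] at e
    exact absurd e.1.symm (h.hX b)
  · simp only [pos, Complex.mk.injEq] at e
    rw [h.iY e.2]

variable {G : SimpleGraph (H ⊕ S)}

/-- the form of an edge -/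
lemma edge_form (hG : G ≤ completeBipartiteGraph H S) {e : Sym2 (H ⊕ S)} (he : e ∈ G.edgeSet) :
    ∃ h s, e = s(Sum.inl h, Sum.inr s) ∧ G.Adj (Sum.inl h) (Sum.inr s) ∧
      ∀ t ∈ Set.Ioo (0 : ℝ) 1, ∃ t' ∈ Set.Ioo (0 : ℝ) 1,
        seg (pos X Y e.out.1) (pos X Y e.out.2) t = ⟨(1 - t') * X h, t' * Y s⟩ := by
  have he' : s(e.out.1, e.out.2) = e := e.out_eq
  have hadj : G.Adj e.out.1 e.out.2 := by
    rw [← SimpleGraph.mem_edgeSet, he']; exact he
  have hb := hG hadj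
  generalize e.out.1 = a at *
  generalize e.out.2 = b at *
  rcases a with a | a <;> rcases b with b | b
  · simp at hb
  · refine ⟨a, b, he'.symm, hadj, fun t ht => ⟨t, ht, ?_⟩⟩
    simp only [seg, pos]
    congr 1 <;> ring
  · refine ⟨b, a, ?_, hadj.symm, fun t ht => ⟨1 - t, ⟨by linarith [ht.2], by linarith [ht.1]⟩, ?_⟩⟩
    · rw [← he', Sym2.eq_swap]
    · simp only [seg, pos]
      congr 1 <;> ring
  · simp at hb

/-- the axis drawing -/
noncomputable def drawing (h : Ok X Y) (hG : G ≤ completeBipartiteGraph H S) : Drawing G where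
  pos := pos X Y
  pos_injective := pos_inj h
  arc e := seg (pos X Y e.out.1) (pos X Y e.out.2)
  arc_continuousOn e _ := (seg_cont _ _).continuousOn
  arc_injOn e he s _ t _ hst := by
    refine seg_inj (fun hh => ?_) hst
    apply G.not_isDiag_of_mem_edgeSet he
    have he' : s(e.out.1, e.out.2) = e := e.out_eq
    rw [← he', Sym2.mk_isDiag_iff]
    exact pos_inj h hh
  arc_ends u v huv := by
    have he : s((s(u, v)).out.1, (s(u, v)).out.2) = s(u, v) := (s(u, v)).out_eq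
    rcases Sym2.eq_iff.mp he with h | h
    · left; rw [h.1, h.2]; exact ⟨seg_zero _ _, seg_one _ _⟩
    · right; rw [h.1, h.2]; exact ⟨seg_zero _ _, seg_one _ _⟩
  arc_avoids e he t ht w hw := by
    obtain ⟨a, s, -, -, hf⟩ := edge_form (X := X) (Y := Y) hG he
    obtain ⟨t', ht', hf⟩ := hf t ht
    rw [hf] at hw
    rcases w with w | w
    · simp only [pos, Complex.mk.injEq] at hw
      exact (mul_ne_zero ht'.1.ne' (h.hY s)) hw.2
    · simp only [pos, Complex.mk.injEq] at hw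
      exact (mul_ne_zero (sub_ne_zero.mpr ht'.2.ne') (h.hX a)) hw.1

lemma abs_form {x x' y y' t t' : ℝ} (hx : x ≠ 0) (hx' : x' ≠ 0) (hy : y ≠ 0) (hy' : y' ≠ 0)
    (ht : t ∈ Set.Ioo (0 : ℝ) 1) (ht' : t' ∈ Set.Ioo (0 : ℝ) 1)
    (h1 : (1 - t) * x = (1 - t') * x') (h2 : t * y = t' * y') :
    0 < x * x' ∧ 0 < y * y' ∧ (1 - t) * |x| = (1 - t') * |x'| ∧ t * |y| = t' * |y'| := by
  have a1 : 0 < 1 - t := by linarith [ht.2]
  have a2 : 0 < 1 - t' := by linarith [ht'.2]
  have b1 := ht.1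
  have b2 := ht'.1
  have c1 : (1 - t) * |x| = (1 - t') * |x'| := by
    have e1 : (1 - t) * |x| = |(1 - t) * x| := by rw [abs_mul, abs_of_pos a1]
    have e2 : (1 - t') * |x'| = |(1 - t') * x'| := by rw [abs_mul, abs_of_pos a2]
    rw [e1, e2, h1]
  have c2 : t * |y| = t' * |y'| := by
    have e1 : t * |y| = |t * y| := by rw [abs_mul, abs_of_pos b1]
    have e2 : t' * |y'| = |t' * y'| := by rw [abs_mul, abs_of_pos b2]
    rw [e1, e2, h2]
  refine ⟨?_, ?_, c1, c2⟩
  · have : (1 - t') * (x * x') = (1 - t) * x ^ 2 := by linear_combination (-x) * h1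
    have h3 : 0 < (1 - t) * x ^ 2 := by positivity
    rw [← this] at h3
    exact (pos_iff_pos_of_mul_pos h3).mp a2
  · have : t' * (y * y') = t * y ^ 2 := by linear_combination (-y) * h2
    have h3 : 0 < t * y ^ 2 := by positivity
    rw [← this] at h3
    exact (pos_iff_pos_of_mul_pos h3).mp b2

/-- The crossings of an axis drawing. -/
theorem axis_le (h : Ok X Y) (hG : G ≤ completeBipartiteGraph H S)
    (Z : Finset (Sym2 (Sym2 (H ⊕ S))))
    (hZ : ∀ a s a' s', G.Adj (Sum.inl a) (Sum.inr s) → G.Adj (Sum.inl a') (Sum.inr s') →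
      0 < X a * X a' → 0 < Y s * Y s' → |X a| < |X a'| → |Y s'| < |Y s| →
      s(s(Sum.inl a, Sum.inr s), s(Sum.inl a', Sum.inr s')) ∈ Z) :
    crossingNumber G ≤ Z.card := by
  have key : ∀ x ∈ (drawing h hG).crossings, ∃ a s a' s' t t', t ∈ Set.Ioo (0 : ℝ) 1 ∧
      t' ∈ Set.Ioo (0 : ℝ) 1 ∧ G.Adj (Sum.inl a) (Sum.inr s) ∧ G.Adj (Sum.inl a') (Sum.inr s') ∧
      (s(Sum.inl a, Sum.inr s) : Sym2 (H ⊕ S)) ≠ s(Sum.inl a', Sum.inr s') ∧
      x.1 = s(s(Sum.inl a, Sum.inr s), s(Sum.inl a', Sum.inr s')) ∧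
      x.2 = ⟨(1 - t) * X a, t * Y s⟩ ∧ x.2 = ⟨(1 - t') * X a', t' * Y s'⟩ := by
    rintro x ⟨e, he, f, hf, hef, hxe, ⟨t, ht, hs⟩, ⟨t', ht', hs'⟩⟩
    obtain ⟨a, s, e1, e2, e3⟩ := edge_form (X := X) (Y := Y) hG he
    obtain ⟨a', s', f1, f2, f3⟩ := edge_form (X := X) (Y := Y) hG hf
    obtain ⟨u, hu, hu'⟩ := e3 t ht
    obtain ⟨v, hv, hv'⟩ := f3 t' ht'
    refine ⟨a, s, a', s', u, v, hu, hv, e2, f2, ?_, ?_, ?_, ?_⟩
    · rw [← e1, ← f1]; exact hef
    · rw [← e1, ← f1]; exact hxe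
    · rw [← hs]; exact hu'
    · rw [← hs']; exact hv'
  -- consequences of a crossing
  have cons : ∀ a s a' s' t t', t ∈ Set.Ioo (0 : ℝ) 1 → t' ∈ Set.Ioo (0 : ℝ) 1 →
      (s(Sum.inl a, Sum.inr s) : Sym2 (H ⊕ S)) ≠ s(Sum.inl a', Sum.inr s') →
      (⟨(1 - t) * X a, t * Y s⟩ : ℂ) = ⟨(1 - t') * X a', t' * Y s'⟩ →
      0 < X a * X a' ∧ 0 < Y s * Y s' ∧
      ((|X a| < |X a'| ∧ |Y s'| < |Y s|) ∨ (|X a'| < |X a| ∧ |Y s| < |Y s'|)) := by
    intro a s a' s' t t' ht ht' hne heq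
    simp only [Complex.mk.injEq] at heq
    obtain ⟨p1, p2, p3, p4⟩ := abs_form (h.hX a) (h.hX a') (h.hY s) (h.hY s') ht ht' heq.1 heq.2
    refine ⟨p1, p2, ?_⟩
    have xa : 0 < |X a| := abs_pos.mpr (h.hX a)
    have xa' : 0 < |X a'| := abs_pos.mpr (h.hX a')
    have ys : 0 < |Y s| := abs_pos.mpr (h.hY s)
    have ys' : 0 < |Y s'| := abs_pos.mpr (h.hY s')
    rcases lt_trichotomy t t' with hlt | heq2 | hgt
    · left
      constructor
      · by_contra hc
        push Not at hc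
        nlinarith [ht'.2]
      · by_contra hc
        push Not at hc
        nlinarith [ht.1]
    · exfalso
      subst heq2
      have a1 : (1 - t) ≠ 0 := by have := ht.2; intro h0; linarith
      have e1 : X a = X a' := mul_left_cancel₀ a1 heq.1
      have e2 : Y s = Y s' := mul_left_cancel₀ ht.1.ne' heq.2
      exact hne (by rw [h.iX e1, h.iY e2])
    · right
      constructor
      · by_contra hc
        push Not at hc
        nlinarith [ht.2]
      · by_contra hc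
        push Not at hc
        nlinarith [ht'.1]
  have hsub : Prod.fst '' (drawing h hG).crossings ⊆ (Z : Set (Sym2 (Sym2 (H ⊕ S)))) := by
    rintro _ ⟨x, hx, rfl⟩
    obtain ⟨a, s, a', s', t, t', ht, ht', g1, g2, hne, hx1, hx2, hx3⟩ := key x hx
    obtain ⟨p1, p2, p3⟩ := cons a s a' s' t t' ht ht' hne (hx2.symm.trans hx3)
    rw [hx1]
    rcases p3 with ⟨q1, q2⟩ | ⟨q1, q2⟩
    · exact hZ a s a' s' g1 g2 p1 p2 q1 q2
    · rw [Sym2.eq_swap]
      exact hZ a' s' a s g2 g1 (by rw [mul_comm]; exact p1) (by rw [mul_comm]; exact p2) q1 q2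
  -- one crossing per pair
  have uniq : ∀ a s a' s' t t' u u', t ∈ Set.Ioo (0 : ℝ) 1 → t' ∈ Set.Ioo (0 : ℝ) 1 →
      u ∈ Set.Ioo (0 : ℝ) 1 → u' ∈ Set.Ioo (0 : ℝ) 1 →
      (s(Sum.inl a, Sum.inr s) : Sym2 (H ⊕ S)) ≠ s(Sum.inl a', Sum.inr s') →
      (⟨(1 - t) * X a, t * Y s⟩ : ℂ) = ⟨(1 - t') * X a', t' * Y s'⟩ →
      (⟨(1 - u) * X a, u * Y s⟩ : ℂ) = ⟨(1 - u') * X a', u' * Y s'⟩ → t = u := by
    intro a s a' s' t t' u u' ht ht' hu hu' hne h1 h2
    obtain ⟨-, -, p3⟩ := cons a s a' s' t t' ht ht' hne h1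
    have hXX : X a ≠ X a' := by
      intro hh; rw [hh] at p3
      rcases p3 with ⟨q, -⟩ | ⟨q, -⟩ <;> exact lt_irrefl _ q
    simp only [Complex.mk.injEq] at h1 h2
    obtain ⟨h11, h12⟩ := h1
    obtain ⟨h21, h22⟩ := h2
    -- eliminate
    have e1 : (t - u) * (Y s * X a' - X a * Y s') = 0 := by
      linear_combination (X a') * h12 - (X a') * h22 + (Y s') * h11 - (Y s') * h21
    rcases mul_eq_zero.mp e1 with h0 | h0
    · linarith
    · exfalso
      have e2 : Y s' * (X a - X a') = 0 := by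
        linear_combination (Y s') * h11 + (X a') * h12 - t * h0
      rcases mul_eq_zero.mp e2 with h3 | h3
      · exact h.hY s' h3
      · exact hXX (by linarith)
  have hinj : Set.InjOn Prod.fst (drawing h hG).crossings := by
    rintro ⟨x, z⟩ hx ⟨y, z'⟩ hy hxy
    change x = y at hxy
    subst hxy
    obtain ⟨a, s, a', s', t, t', ht, ht', g1, g2, hne, hx1, hx2, hx3⟩ := key _ hx
    obtain ⟨b, r, b', r', u, u', hu, hu', k1, k2, kne, hy1, hy2, hy3⟩ := key _ hy
    simp only at hx1 hx2 hx3 hy1 hy2 hy3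
    have hz : z = z' := by
      rcases Sym2.eq_iff.mp (hx1.symm.trans hy1) with ⟨r1, r2⟩ | ⟨r1, r2⟩
      · have e1 : a = b ∧ s = r := by simpa using r1
        have e2 : a' = b' ∧ s' = r' := by simpa using r2
        obtain ⟨rfl, rfl⟩ := e1
        obtain ⟨rfl, rfl⟩ := e2
        have := uniq a s a' s' t t' u u' ht ht' hu hu' hne (hx2.symm.trans hx3) (hy2.symm.trans hy3)
        rw [hx2, hy2, this]
      · have e1 : a = b' ∧ s = r' := by simpa using r1
        have e2 : a' = b ∧ s' = r := by simpa using r2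
        obtain ⟨rfl, rfl⟩ := e1
        obtain ⟨rfl, rfl⟩ := e2
        have := uniq a s a' s' t t' u' u ht ht' hu' hu hne (hx2.symm.trans hx3) (hy3.symm.trans hy2)
        rw [hx2, hy3, this]
    rw [hz]
  have hfin : (drawing h hG).crossings.Finite :=
    Set.Finite.of_finite_image ((Finset.finite_toSet Z).subset hsub) hinj
  refine (crossingNumber_le _ hfin).trans ?_
  rw [← Set.ncard_image_of_injOn hinj, ← Set.ncard_coe_finset]
  exact Set.ncard_le_ncard hsub (Finset.finite_toSet Z)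

end H571R3.Axis
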