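import Mathlib

/-! Task 571-B: counting the interior directions of a finite set of reduced sequences. -/

namespace H571R3.SeqCount

variable {p : ℕ} {ι : Type*}

def pre (ξ : ℕ → Fin p) (n : ℕ) : List (Fin p) := (List.range n).map ξ

def dir (g : List (Fin p)) (ξ : ℕ → Fin p) : Fin p :=
  if g = pre ξ g.length then ξ g.length else g.getLast?.getD (ξ 0)

def Fset (S : Finset ι) (ξ : ι → ℕ → Fin p) : Set (List (Fin p) × Fin p) :=
  {x | ∃ a ∈ S, ∃ b ∈ S, ∃ c ∈ S,
    dir x.1 (ξ a) < x.2 ∧ dir x.1 (ξ b) = x.2 ∧ x.2 < dir x.1 (ξ c)}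

/-- interior elements of a finite set -/
def inner (D : Set (Fin p)) : Set (Fin p) := {x | x ∈ D ∧ (∃ y ∈ D, y < x) ∧ ∃ z ∈ D, x < z}

def DD (S : Finset ι) (ξ : ι → ℕ → Fin p) (g : List (Fin p)) : Set (Fin p) :=
  (fun a => dir g (ξ a)) '' (S : Set ι)

theorem mem_Fset (S : Finset ι) (ξ : ι → ℕ → Fin p) (g : List (Fin p)) (x : Fin p) :
    (g, x) ∈ Fset S ξ ↔ x ∈ inner (DD S ξ g) := by
  constructor
  · rintro ⟨a, ha, b, hb, c, hc, h1, h2, h3⟩
    exact ⟨⟨b, hb, h2⟩, ⟨_, ⟨a, ha, rfl⟩, h1⟩, ⟨_, ⟨c, hc, rfl⟩, h3⟩⟩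
  · rintro ⟨⟨b, hb, h2⟩, ⟨_, ⟨a, ha, rfl⟩, h1⟩, ⟨_, ⟨c, hc, rfl⟩, h3⟩⟩
    exact ⟨a, ha, b, hb, c, hc, h1, h2, h3⟩

theorem inner_insert (D : Set (Fin p)) (x a b : Fin p) (ha : a ∈ D) (hb : b ∈ D) (hab : a ≠ b)
    (hx : x ∉ D) : ∃ y, inner (insert x D) = insert y (inner D) ∧ y ∉ inner D := by
  classical
  have hfin : D.Finite := Set.toFinite D
  by_cases h1 : ∃ y ∈ D, y < x
  · by_cases h2 : ∃ z ∈ D, x < z
    · refine ⟨x, ?_, fun h => hx h.1⟩
      ext w
      constructor
      · rintro ⟨hw, ⟨y, hy, hyw⟩, ⟨z, hz, hwz⟩⟩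
        rcases hw with rfl | hw
        · exact Or.inl rfl
        · right
          refine ⟨hw, ?_, ?_⟩
          · rcases hy with rfl | hy
            · obtain ⟨y', hy', h⟩ := h1
              exact ⟨y', hy', h.trans hyw⟩
            · exact ⟨y, hy, hyw⟩
          · rcases hz with rfl | hz
            · obtain ⟨z', hz', h⟩ := h2
              exact ⟨z', hz', hwz.trans h⟩
            · exact ⟨z, hz, hwz⟩
      · rintro (rfl | ⟨hw, ⟨y, hy, hyw⟩, ⟨z, hz, hwz⟩⟩)
        · obtain ⟨y', hy', h⟩ := h1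
          obtain ⟨z', hz', h'⟩ := h2
          exact ⟨Or.inl rfl, ⟨y', Or.inr hy', h⟩, ⟨z', Or.inr hz', h'⟩⟩
        · exact ⟨Or.inr hw, ⟨y, Or.inr hy, hyw⟩, ⟨z, Or.inr hz, hwz⟩⟩
    · -- x is larger than everything: the old maximum becomes interior
      push Not at h2
      obtain ⟨m, hm, hmax⟩ := Set.exists_max_image D id hfin ⟨a, ha⟩
      have hlt : ∀ w ∈ D, w < x := fun w hw =>
        lt_of_le_of_ne (h2 w hw) (fun h => hx (h ▸ hw))
      have hmin : ∃ y ∈ D, y < m := by
        by_cases h : a = m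
        · exact ⟨b, hb, lt_of_le_of_ne (hmax b hb) (fun h' => hab (h.trans h'.symm))⟩
        · exact ⟨a, ha, lt_of_le_of_ne (hmax a ha) h⟩
      refine ⟨m, ?_, ?_⟩
      · ext w
        constructor
        · rintro ⟨hw, ⟨y, hy, hyw⟩, ⟨z, hz, hwz⟩⟩
          rcases hw with rfl | hw
          · rcases hz with rfl | hz
            · exact absurd hwz (lt_irrefl _)
            · exact absurd (hwz.trans (hlt z hz)) (lt_irrefl _)
          · by_cases hwm : w = m
            · exact Or.inl hwm
            · right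
              refine ⟨hw, ?_, ⟨m, hm, lt_of_le_of_ne (hmax w hw) hwm⟩⟩
              rcases hy with rfl | hy
              · exact absurd (hyw.trans (hlt w hw)) (lt_irrefl _)
              · exact ⟨y, hy, hyw⟩
        · rintro (rfl | ⟨hw, ⟨y, hy, hyw⟩, ⟨z, hz, hwz⟩⟩)
          · obtain ⟨y, hy, h⟩ := hmin
            exact ⟨Or.inr hm, ⟨y, Or.inr hy, h⟩, ⟨x, Or.inl rfl, hlt _ hm⟩⟩
          · exact ⟨Or.inr hw, ⟨y, Or.inr hy, hyw⟩, ⟨z, Or.inr hz, hwz⟩⟩
      · rintro ⟨_, _, ⟨z, hz, h⟩⟩
        exact absurd h (not_lt.mpr (hmax z hz))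
  · -- x is smaller than everything
    push Not at h1
    obtain ⟨m, hm, hmin⟩ := Set.exists_min_image D id hfin ⟨a, ha⟩
    have hlt : ∀ w ∈ D, x < w := fun w hw =>
      lt_of_le_of_ne (h1 w hw) (fun h => hx (h ▸ hw))
    have hmax : ∃ y ∈ D, m < y := by
      by_cases h : a = m
      · exact ⟨b, hb, lt_of_le_of_ne (hmin b hb) (fun h' => hab (h.trans h'))⟩
      · exact ⟨a, ha, lt_of_le_of_ne (hmin a ha) (fun h' => h h'.symm)⟩
    refine ⟨m, ?_, ?_⟩
    · ext w
      constructor
      · rintro ⟨hw, ⟨y, hy, hyw⟩, ⟨z, hz, hwz⟩⟩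
        rcases hw with rfl | hw
        · rcases hy with rfl | hy
          · exact absurd hyw (lt_irrefl _)
          · exact absurd (hyw.trans (hlt y hy)) (lt_irrefl _)
        · by_cases hwm : w = m
          · exact Or.inl hwm
          · right
            refine ⟨hw, ⟨m, hm, lt_of_le_of_ne (hmin w hw) (fun h => hwm h.symm)⟩, ?_⟩
            rcases hz with rfl | hz
            · exact absurd (hwz.trans (hlt w hw)) (lt_irrefl _)
            · exact ⟨z, hz, hwz⟩
      · rintro (rfl | ⟨hw, ⟨y, hy, hyw⟩, ⟨z, hz, hwz⟩⟩)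
        · obtain ⟨y, hy, h⟩ := hmax
          exact ⟨Or.inr hm, ⟨x, Or.inl rfl, hlt _ hm⟩, ⟨y, Or.inr hy, h⟩⟩
        · exact ⟨Or.inr hw, ⟨y, Or.inr hy, hyw⟩, ⟨z, Or.inr hz, hwz⟩⟩
    · rintro ⟨_, ⟨y, hy, h⟩, _⟩
      exact absurd h (not_lt.mpr (hmin y hy))

theorem pre_length (ξ : ℕ → Fin p) (n : ℕ) : (pre ξ n).length = n := by simp [pre]

theorem pre_eq_iff (ξ η : ℕ → Fin p) (n : ℕ) : pre ξ n = pre η n ↔ ∀ m < n, ξ m = η m := by
  simp [pre]

theorem dir_of_pre (ξ : ℕ → Fin p) (g : List (Fin p)) (h : g = pre ξ g.length) :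
    dir g ξ = ξ g.length := by rw [dir, if_pos h]

theorem dir_of_not_pre (ξ η : ℕ → Fin p) (g : List (Fin p)) (h : ¬ g = pre ξ g.length)
    (h' : ¬ g = pre η g.length) : dir g ξ = dir g η := by
  rw [dir, dir, if_neg h, if_neg h']
  cases hg : g with
  | nil => exact absurd (by simp [hg, pre]) h
  | cons a l =>
    cases hl : (a :: l).getLast? with
    | none => simp at hl
    | some b => rfl

/-- if `g` is a prefix of `η` but not of `ξ`, then `dir g ξ` is the last letter, which is
`η (length - 1)` -/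
theorem dir_last (ξ η : ℕ → Fin p) (g : List (Fin p)) (h : ¬ g = pre ξ g.length)
    (h' : g = pre η g.length) : 0 < g.length ∧ dir g ξ = η (g.length - 1) := by
  have hpos : 0 < g.length := by
    rcases Nat.eq_zero_or_pos g.length with h0 | h0
    · exact absurd (by rw [h0]; rw [List.length_eq_zero_iff] at h0; simp [h0, pre]) h
    · exact h0
  refine ⟨hpos, ?_⟩
  rw [dir, if_neg h]
  obtain ⟨n, hn⟩ : ∃ n, g.length = n + 1 := ⟨g.length - 1, by omega⟩
  rw [hn] at h' ⊢
  rw [h', pre, List.range_succ, List.map_append]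
  simp

theorem Fset_card (S : Finset ι) (ξ : ι → ℕ → Fin p)
    (hred : ∀ a ∈ S, ∀ n, ξ a n ≠ ξ a (n + 1))
    (hinj : ∀ a ∈ S, ∀ b ∈ S, ξ a = ξ b → a = b) (h2 : 2 ≤ S.card) :
    (Fset S ξ).Finite ∧ (Fset S ξ).ncard = S.card - 2 := by
  classical
  obtain ⟨k, hk⟩ : ∃ k, S.card = k + 2 := ⟨S.card - 2, by omega⟩
  clear h2
  induction k generalizing S with
  | zero =>
    have hempty : Fset S ξ = ∅ := by
      rw [Set.eq_empty_iff_forall_notMem]
      rintro x ⟨a, ha, b, hb, c, hc, h1, h2, h3⟩
      have hab : a ≠ b := by rintro rfl; rw [h2] at h1; exact lt_irrefl _ h1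
      have hbc : b ≠ c := by rintro rfl; rw [h2] at h3; exact lt_irrefl _ h3
      have hac : a ≠ c := by rintro rfl; exact lt_irrefl _ (h1.trans h3)
      have : ({a, b, c} : Finset ι) ⊆ S := by
        intro z hz
        simp only [Finset.mem_insert, Finset.mem_singleton] at hz
        rcases hz with rfl | rfl | rfl <;> assumption
      have h := Finset.card_le_card this
      rw [Finset.card_eq_three.mpr ⟨a, b, c, hab, hac, hbc, rfl⟩, hk] at h
      omega
    rw [hempty, hk]
    simp
  | succ k ih =>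
    -- the pair with the longest common prefix
    let N : ι × ι → ℕ := fun q => sInf {m | ξ q.1 m ≠ ξ q.2 m}
    have hNe : ∀ q ∈ S.offDiag, {m | ξ q.1 m ≠ ξ q.2 m}.Nonempty := by
      intro q hq
      rw [Finset.mem_offDiag] at hq
      by_contra h
      rw [Set.not_nonempty_iff_eq_empty, Set.eq_empty_iff_forall_notMem] at h
      apply hq.2.2
      apply hinj _ hq.1 _ hq.2.1
      funext m
      by_contra hm
      exact h m hm
    have hne : S.offDiag.Nonempty := by
      have : 1 < S.card := by omega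
      obtain ⟨a, ha, b, hb, hab⟩ := Finset.one_lt_card.mp this
      exact ⟨(a, b), Finset.mem_offDiag.mpr ⟨ha, hb, hab⟩⟩
    obtain ⟨⟨a, b⟩, hq, hmax⟩ := Finset.exists_max_image S.offDiag N hne
    have hq' := Finset.mem_offDiag.mp hq
    obtain ⟨ha, hb, hab⟩ := hq'
    simp only at ha hb hab
    obtain ⟨n, hn⟩ : ∃ n, N (a, b) = n := ⟨_, rfl⟩
    have hn1 : ξ a n ≠ ξ b n := by
      have := Nat.sInf_mem (hNe _ hq)
      rw [show sInf {m | ξ (a, b).1 m ≠ ξ (a, b).2 m} = n from hn] at this
      exact this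
    have hn2 : ∀ m < n, ξ a m = ξ b m := by
      intro m hm
      by_contra h
      have : sInf {m | ξ (a, b).1 m ≠ ξ (a, b).2 m} ≤ m := Nat.sInf_le h
      rw [show sInf {m | ξ (a, b).1 m ≠ ξ (a, b).2 m} = n from hn] at this
      omega
    have hmax' : ∀ c ∈ S, ∀ d ∈ S, c ≠ d → ¬ (∀ m ≤ n, ξ c m = ξ d m) := by
      intro c hc d hd hcd h
      have hcd' : (c, d) ∈ S.offDiag := Finset.mem_offDiag.mpr ⟨hc, hd, hcd⟩
      have h1 := hmax (c, d) hcd'
      rw [hn] at h1
      have h3 := Nat.sInf_mem (hNe _ hcd')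
      exact h3 (h _ h1)
    -- remove b
    let S' := S.erase b
    have hS'c : S'.card = k + 2 := by
      rw [Finset.card_erase_of_mem hb, hk]; omega
    have hS'S : ∀ c ∈ S', c ∈ S := fun c hc => Finset.mem_of_mem_erase hc
    have haS' : a ∈ S' := Finset.mem_erase.mpr ⟨hab, ha⟩
    have ih' := ih S' (fun c hc => hred c (hS'S c hc))
      (fun c hc d hd h => hinj c (hS'S c hc) d (hS'S d hd) h) hS'c
    obtain ⟨c, hcS', hca⟩ : ∃ c ∈ S', c ≠ a := by
      have : 1 < S'.card := by omega
      exact Finset.exists_mem_ne this a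
    have hcS : c ∈ S := hS'S c hcS'
    have hcb : c ≠ b := (Finset.mem_erase.mp hcS').1
    have hDD : ∀ g, DD S ξ g = insert (dir g (ξ b)) (DD S' ξ g) := by
      intro g
      have hS : (S : Set ι) = insert b (S' : Set ι) := by
        rw [← Finset.coe_insert, Finset.insert_erase hb]
      rw [DD, DD, hS, Set.image_insert_eq]
    set g0 := pre (ξ b) n with hg0
    have hg0l : g0.length = n := pre_length _ _
    have hg0a : g0 = pre (ξ a) n := by
      rw [hg0, pre_eq_iff]; intro m hm; exact (hn2 m hm).symm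
    -- case g ≠ g0
    have hsame : ∀ g, g ≠ g0 → inner (DD S ξ g) = inner (DD S' ξ g) := by
      intro g hg
      by_cases hgb : g = pre (ξ b) g.length
      · rcases lt_trichotomy g.length n with hlt | heq | hgt
        · -- short prefix
          have hga : g = pre (ξ a) g.length := by
            rw [hgb, pre_length, pre_eq_iff]
            intro m hm; exact (hn2 m (by omega)).symm
          have : dir g (ξ b) ∈ DD S' ξ g := by
            refine ⟨a, haS', ?_⟩
            show dir g (ξ a) = dir g (ξ b)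
            rw [dir_of_pre _ _ hga, dir_of_pre _ _ hgb]
            exact hn2 _ hlt
          rw [hDD, Set.insert_eq_of_mem this]
        · exact absurd (by rw [hg0, ← heq]; exact hgb) hg
        · -- long prefix: only two directions
          have hnot : ∀ d ∈ S', ¬ g = pre (ξ d) g.length := by
            intro d hd h
            have hdb : d ≠ b := (Finset.mem_erase.mp hd).1
            apply hmax' d (hS'S d hd) b hb hdb
            intro m hm
            have h3 : pre (ξ d) g.length = pre (ξ b) g.length := by rw [← h, ← hgb]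
            rw [pre_eq_iff] at h3
            exact h3 m (by omega)
          have hsub : ∀ x ∈ DD S' ξ g, x = dir g (ξ a) := by
            rintro x ⟨d, hd, rfl⟩
            exact dir_of_not_pre _ _ _ (hnot d hd) (hnot a haS')
          have hl : inner (DD S' ξ g) = ∅ := by
            rw [Set.eq_empty_iff_forall_notMem]
            rintro x ⟨hx, ⟨y, hy, hyx⟩, _⟩
            rw [hsub x hx, hsub y hy] at hyx
            exact lt_irrefl _ hyx
          have hr : inner (DD S ξ g) = ∅ := by
            rw [hDD, Set.eq_empty_iff_forall_notMem]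
            rintro x ⟨hx, ⟨y, hy, hyx⟩, ⟨z, hz, hxz⟩⟩
            have hcases : ∀ w ∈ insert (dir g (ξ b)) (DD S' ξ g),
                w = dir g (ξ b) ∨ w = dir g (ξ a) := by
              rintro w (h | h)
              · exact Or.inl h
              · exact Or.inr (hsub w h)
            rcases hcases x hx with h1 | h1 <;> rcases hcases y hy with h2 | h2 <;>
              rcases hcases z hz with h3 | h3 <;> rw [h1, h2] at hyx <;> rw [h1, h3] at hxz <;>
              first
                | exact lt_irrefl _ hyx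
                | exact lt_irrefl _ hxz
                | exact lt_irrefl _ (hyx.trans hxz)
          rw [hl, hr]
      · -- g is not a prefix of b
        have hex : ∃ d ∈ S', ¬ g = pre (ξ d) g.length := by
          by_contra hall
          push Not at hall
          have h1 := hall a haS'
          have h3 := hall c hcS'
          have hac : pre (ξ a) g.length = pre (ξ c) g.length := by rw [← h1, ← h3]
          rw [pre_eq_iff] at hac
          -- then the common prefix of a, b is shorter than g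
          have hlen : n < g.length := by
            by_contra hle
            apply hgb
            rw [h1, pre_length, pre_eq_iff]
            intro m hm
            exact hn2 m (by omega)
          exact hmax' a ha c hcS (Ne.symm hca) (fun m hm => hac m (by omega))
        obtain ⟨d, hd, hdg⟩ := hex
        have : dir g (ξ b) ∈ DD S' ξ g := ⟨d, hd, dir_of_not_pre _ _ _ hdg hgb⟩
        rw [hDD, Set.insert_eq_of_mem this]
    -- case g0
    have hda : dir g0 (ξ a) = ξ a n := by
      rw [dir_of_pre _ _ (by rw [hg0l]; exact hg0a), hg0l]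
    have hdb : dir g0 (ξ b) = ξ b n := by
      rw [dir_of_pre _ _ (by rw [hg0l]), hg0l]
    have hnew : dir g0 (ξ b) ∉ DD S' ξ g0 := by
      rintro ⟨d, hd, h⟩
      have h' : dir g0 (ξ d) = dir g0 (ξ b) := h
      have hdb' : d ≠ b := (Finset.mem_erase.mp hd).1
      by_cases hp : g0 = pre (ξ d) g0.length
      · rw [dir_of_pre _ _ hp, hdb, hg0l] at h'
        apply hmax' d (hS'S d hd) b hb hdb'
        intro m hm
        rcases Nat.lt_or_eq_of_le hm with h3 | h3
        · have h4 : pre (ξ d) n = pre (ξ b) n := by rw [← hg0, hp, hg0l]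
          rw [pre_eq_iff] at h4
          exact h4 m h3
        · rw [h3]; exact h'
      · obtain ⟨hpos, h3⟩ := dir_last (ξ d) (ξ b) g0 hp (by rw [hg0l])
        rw [h3, hdb, hg0l] at h'
        rw [hg0l] at hpos
        have := hred b hb (n - 1)
        rw [Nat.sub_add_cancel hpos] at this
        exact this h'
    have hca' : dir g0 (ξ c) ≠ dir g0 (ξ a) := by
      intro h
      by_cases hp : g0 = pre (ξ c) g0.length
      · rw [dir_of_pre _ _ hp, hda, hg0l] at h
        apply hmax' c hcS a ha hca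
        intro m hm
        rcases Nat.lt_or_eq_of_le hm with h3 | h3
        · have h4 : pre (ξ c) n = pre (ξ a) n := by rw [← hg0a, hp, hg0l]
          rw [pre_eq_iff] at h4
          exact h4 m h3
        · rw [h3]; exact h
      · obtain ⟨hpos, h3⟩ := dir_last (ξ c) (ξ a) g0 hp (by rw [hg0l]; exact hg0a)
        rw [h3, hda, hg0l] at h
        rw [hg0l] at hpos
        have := hred a ha (n - 1)
        rw [Nat.sub_add_cancel hpos] at this
        exact this h
    obtain ⟨y, hy1, hy2⟩ := inner_insert (DD S' ξ g0) (dir g0 (ξ b)) _ _ ⟨c, hcS', rfl⟩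
      ⟨a, haS', rfl⟩ hca' hnew
    have hF : Fset S ξ = insert (g0, y) (Fset S' ξ) := by
      ext ⟨g, x⟩
      rw [mem_Fset, Set.mem_insert_iff, mem_Fset, Prod.mk.injEq]
      by_cases hg : g = g0
      · subst hg
        rw [hDD, hy1]
        simp
      · rw [hsame g hg]
        simp [hg]
    have hnotmem : (g0, y) ∉ Fset S' ξ := by rw [mem_Fset]; exact hy2
    refine ⟨by rw [hF]; exact ih'.1.insert _, ?_⟩
    rw [hF, Set.ncard_insert_of_notMem hnotmem ih'.1, ih'.2, hS'c, hk]
    omega

end H571R3.SeqCount
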