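import Pool.Agent.H571R3.Lift
import Pool.Agent.H571R3.SeqCount
set_option autoImplicit false
set_option linter.unusedSectionVars false
set_option linter.unusedVariables false
namespace H571R3
open Complex Real Set
open H571R3.SeqCount (pre dir Fset)

noncomputable section

variable {p : ℕ}



lemma pre_succ (ξ : ℕ → Fin p) (n : ℕ) : pre ξ (n + 1) = ξ 0 :: pre (fun k => ξ (k + 1)) n := by
  unfold pre
  rw [List.range_succ_eq_map, List.map_cons, List.map_map]
  rfl

lemma dir_nil (ξ : ℕ → Fin p) : dir [] ξ = ξ 0 := by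
  unfold dir pre; simp

lemma dir_cons_of_eq {ξ : ℕ → Fin p} {i : Fin p} (h : ξ 0 = i) (g : List (Fin p)) :
    dir (i :: g) ξ = dir g (fun k => ξ (k + 1)) := by
  unfold dir
  rw [List.length_cons, pre_succ, h]
  by_cases hg : g = pre (fun k => ξ (k + 1)) g.length
  · rw [if_pos (by rw [← hg]), if_pos hg]
  · rw [if_neg (by simpa using hg), if_neg hg]
    cases g with
    | nil => exact absurd (by simp [pre]) hg
    | cons j g => simp [List.getLast?_eq_some_getLast]

lemma dir_cons_of_ne {ξ : ℕ → Fin p} {i : Fin p} (h : ξ 0 ≠ i) (g : List (Fin p)) :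
    dir (i :: g) ξ = (i :: g).getLast (List.cons_ne_nil _ _) := by
  unfold dir
  rw [List.length_cons, pre_succ, if_neg]
  · rw [List.getLast?_eq_some_getLast (List.cons_ne_nil _ _)]; rfl
  · intro h'
    rw [List.cons.injEq] at h'
    exact h h'.1.symm

/-- index of the arc of a boundary point -/
def idx (hp : 3 ≤ p) (b : Bool) (x : Dk) : Fin p :=
  if h : ‖x.1‖ = 1 then Classical.choose (exists_Arc hp b h) else ⟨0, by omega⟩

lemma idx_spec (hp : 3 ≤ p) (b : Bool) {x : Dk} (hx : ‖x.1‖ = 1) : Arc p b (idx hp b x) x.1 := by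
  unfold idx; rw [dif_pos hx]; exact Classical.choose_spec (exists_Arc hp b hx)

lemma idx_eq (hp : 3 ≤ p) {b : Bool} {x : Dk} {i : Fin p} (h : Arc p b i x.1) : idx hp b x = i :=
  (idx_spec hp b h.norm).unique hp h

def itn (hp : 3 ≤ p) : Bool → Dk → ℕ → Fin p
  | b, x, 0 => idx hp b x
  | b, x, n + 1 => itn hp (!b) (R hp (idx hp b x) x) n

lemma norm_R_eq (hp : 3 ≤ p) (i : Fin p) {x : Dk} (hx : ‖x.1‖ = 1) : ‖(R hp i x).1‖ = 1 :=
  norm_r_eq hp hx _

lemma R_R (hp : 3 ≤ p) (i : Fin p) (x : Dk) : R hp i (R hp i x) = x := by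
  have := congrArg (fun f : Equiv.Perm Dk => f x) (R_mul_self hp i)
  exact this

lemma idx_R_of_ne (hp : 3 ≤ p) {b : Bool} {x : Dk} (hx : ‖x.1‖ = 1) {i : Fin p} (h : idx hp b x ≠ i) :
    idx hp (!b) (R hp i x) = i :=
  idx_eq hp (Arc_r_of_ne hp h (idx_spec hp b hx))

lemma idx_R_ne (hp : 3 ≤ p) {b : Bool} {x : Dk} (hx : ‖x.1‖ = 1) :
    idx hp (!b) (R hp (idx hp b x) x) ≠ idx hp b x :=
  Arc_r_ne hp (idx_spec hp b hx) (idx_spec hp (!b) (norm_R_eq hp _ hx))

lemma itn_red (hp : 3 ≤ p) : ∀ (n : ℕ) (b : Bool) (x : Dk), ‖x.1‖ = 1 → itn hp b x n ≠ itn hp b x (n + 1)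
  | 0, b, x, hx => (idx_R_ne hp hx).symm
  | n + 1, b, x, hx => itn_red hp n (!b) _ (norm_R_eq hp _ hx)

/-- parity transported by a word -/
def bx (b : Bool) (g : List (Fin p)) : Bool := if Even g.length then b else !b

lemma bx_cons (b : Bool) (i : Fin p) (g : List (Fin p)) : bx b (i :: g) = bx (!b) g := by
  unfold bx
  rw [List.length_cons]
  by_cases h : Even g.length
  · rw [if_neg (by rw [Nat.even_add_one]; simpa using h), if_pos h]
  · rw [if_pos (by rw [Nat.even_add_one]; exact h), if_neg h, Bool.not_not]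

lemma inv_cons (hp : 3 ≤ p) (i : Fin p) (g : List (Fin p)) (x : Dk) :
    (act hp (i :: g))⁻¹ x = (act hp g)⁻¹ (R hp i x) := by
  have h : (R hp i)⁻¹ = R hp i := inv_eq_of_mul_eq_one_left (R_mul_self hp i)
  rw [act_cons, mul_inv_rev, h]; rfl

lemma idx_back (hp : 3 ≤ p) : ∀ (g : List (Fin p)) (i : Fin p) (b : Bool) (x : Dk), ‖x.1‖ = 1 →
    idx hp b x = i → Red (i :: g) →
    idx hp (bx b g) ((act hp g)⁻¹ x) = (i :: g).getLast (List.cons_ne_nil _ _) := by
  intro g
  induction g with
  | nil => intro i b x _ h _; simpa [bx] using h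
  | cons j g ih =>
    intro i b x hx h hr
    unfold Red at hr
    rw [List.isChain_cons_cons] at hr
    rw [bx_cons, inv_cons, List.getLast_cons_cons]
    exact ih j (!b) (R hp j x) (norm_R_eq hp _ hx) (idx_R_of_ne hp hx (by rw [h]; exact hr.1)) hr.2

/-- direction of a boundary point seen from a vertex -/
lemma idx_act (hp : 3 ≤ p) : ∀ (g : List (Fin p)) (b : Bool) (x : Dk), ‖x.1‖ = 1 → Red g →
    idx hp (bx b g) ((act hp g)⁻¹ x) = dir g (itn hp b x) := by
  intro g
  induction g with
  | nil => intro b x _ _; rw [dir_nil]; simp [bx, itn]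
  | cons i g ih =>
    intro b x hx hr
    rw [bx_cons, inv_cons]
    by_cases h : idx hp b x = i
    · have h0 : itn hp b x 0 = i := h
      rw [dir_cons_of_eq h0, ih (!b) (R hp i x) (norm_R_eq hp _ hx) (by unfold Red at hr ⊢; exact hr.tail)]
      have : itn hp (!b) (R hp i x) = fun k => itn hp b x (k + 1) := by
        funext k; show _ = itn hp (!b) (R hp (idx hp b x) x) k; rw [h]
      rw [this]
    · have h0 : itn hp b x 0 ≠ i := h
      rw [dir_cons_of_ne h0]
      exact idx_back hp g i (!b) (R hp i x) (norm_R_eq hp _ hx) (idx_R_of_ne hp hx h) hr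

variable [NeZero p]

lemma norm_VD (k : Fin p) : ‖(VD k : Dk).1‖ = 1 := norm_V _

lemma itn_VD (hp : 3 ≤ p) (k : Fin p) : ∀ (n : ℕ) (b : Bool), itn hp b (VD k) n = k ∨ itn hp b (VD k) n = prev p k := by
  have hf : idx hp false (VD k) = k := idx_eq hp (Arc_V hp k)
  have ht : idx hp true (VD k) = prev p k := idx_eq hp (Arc_V_prev hp k)
  have rf : R hp k (VD k) = VD k := Subtype.ext (r_V hp _)
  have rt : R hp (prev p k) (VD k) = VD k := by
    apply Subtype.ext
    exact r_fix hp _ (V_sub_C_prev hp k)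
  intro n
  induction n with
  | zero => intro b; cases b <;> simp [itn, hf, ht]
  | succ n ih =>
    intro b
    cases b
    · have : itn hp false (VD k) (n + 1) = itn hp (!false) (VD k) n := by
        show itn hp (!false) (R hp (idx hp false (VD k)) (VD k)) n = _; rw [hf, rf]
      rw [this]; exact ih _
    · have : itn hp true (VD k) (n + 1) = itn hp (!true) (VD k) n := by
        show itn hp (!true) (R hp (idx hp true (VD k)) (VD k)) n = _; rw [ht, rt]
      rw [this]; exact ih _

lemma itn_act_VD (hp : 3 ≤ p) (k : Fin p) : ∀ (m : List (Fin p)) (b : Bool), ∃ N, ∀ n ≥ N,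
    itn hp b (act hp m (VD k)) n = k ∨ itn hp b (act hp m (VD k)) n = prev p k := by
  intro m
  induction m with
  | nil => intro b; exact ⟨0, fun n _ => itn_VD hp k n b⟩
  | cons i m ih =>
    intro b
    obtain ⟨N, hN⟩ := ih (!b)
    set x' := act hp m (VD k) with hx'
    have hn : ‖x'.1‖ = 1 := norm_act_eq hp m (norm_VD k)
    have hx : act hp (i :: m) (VD k) = R hp i x' := by rw [act_cons]; rfl
    rw [hx]
    by_cases h : idx hp (!b) x' = i
    · refine ⟨N, fun n hn' => ?_⟩
      have h1 : itn hp (!b) x' (n + 1) = itn hp b (R hp i x') n := by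
        show itn hp (!!b) (R hp (idx hp (!b) x') x') n = _
        rw [h, Bool.not_not]
      rw [← h1]; exact hN (n + 1) (by omega)
    · refine ⟨N + 1, fun n hn' => ?_⟩
      obtain ⟨n, rfl⟩ : ∃ n', n = n' + 1 := ⟨n - 1, by omega⟩
      have h1 : idx hp b (R hp i x') = i := by
        have := idx_R_of_ne hp hn h; rwa [Bool.not_not] at this
      have h2 : itn hp b (R hp i x') (n + 1) = itn hp (!b) x' n := by
        show itn hp (!b) (R hp (idx hp b (R hp i x')) (R hp i x')) n = _
        rw [h1, R_R]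
      rw [h2]; exact hN n (by omega)

lemma prev_prev_ne (hp : 3 ≤ p) (k : Fin p) : prev p (prev p k) ≠ k := by
  intro h
  have := congrArg Fin.val h
  have hk := k.2
  unfold prev at this
  split_ifs at this with h0 h1 h1 <;> simp only at this h1 <;> omega

/-- codes of lifts of different hubs are different -/
lemma code_ne (hp : 3 ≤ p) {k l : Fin p} (hkl : k ≠ l) (m m' : List (Fin p)) (b : Bool) :
    itn hp b (act hp m (VD k)) ≠ itn hp b (act hp m' (VD l)) := by
  intro h
  obtain ⟨N, hN⟩ := itn_act_VD hp k m b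
  obtain ⟨N', hN'⟩ := itn_act_VD hp l m' b
  have hx : ‖(act hp m (VD k)).1‖ = 1 := norm_act_eq hp m (norm_VD k)
  have h1 := hN (max N N') (le_max_left _ _)
  have h2 := hN (max N N' + 1) (by omega)
  have h3 := hN' (max N N') (le_max_right _ _)
  have h4 := hN' (max N N' + 1) (by omega)
  rw [← h] at h3 h4
  have h5 := itn_red hp (max N N') b _ hx
  set A := itn hp b (act hp m (VD k)) (max N N')
  set B := itn hp b (act hp m (VD k)) (max N N' + 1)
  have p1 := prev_prev_ne hp k
  have p2 := prev_prev_ne hp l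
  rcases h1 with h1 | h1 <;> rcases h2 with h2 | h2 <;> rcases h3 with h3 | h3 <;> rcases h4 with h4 | h4
  all_goals first
    | exact absurd (h1.trans h2.symm) h5
    | exact absurd (h3.trans h4.symm) h5
    | exact absurd (h1.symm.trans h3) hkl
    | exact absurd (h2.symm.trans h4) hkl
    | exact p1 ((congrArg (prev p) (h2.symm.trans h4)).trans (h3.symm.trans h1))
    | exact p1 ((congrArg (prev p) (h1.symm.trans h3)).trans (h4.symm.trans h2))

end

end H571R3
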