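import Pool.Agent.H571R3.Disc
set_option autoImplicit false
set_option linter.unusedSectionVars false
set_option linter.unusedVariables false
namespace H571R3
open Complex Real Set
open H571R3.SeqCount (pre dir Fset)

noncomputable section

variable {p : ℕ} [NeZero p]

/-- a drawn system of stars whose hubs are the ideal vertices -/
structure Sys (p : ℕ) [NeZero p] (Y : Type) where
  z : Y → ℂ
  L : Y → Finset (Fin p)
  γ : Y → Fin p → ℝ → ℂ
  z_inj : Function.Injective z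
  z_hub : ∀ y, ¬ Hub p (z y)
  cont : ∀ y, ∀ a ∈ L y, ContinuousOn (γ y a) (Icc 0 1)
  inj : ∀ y, ∀ a ∈ L y, InjOn (γ y a) (Icc 0 1)
  at0 : ∀ y, ∀ a ∈ L y, γ y a 0 = z y
  at1 : ∀ y, ∀ a ∈ L y, γ y a 1 = V p (a:ℕ)
  nohub : ∀ y, ∀ a ∈ L y, ∀ t ∈ Ico (0:ℝ) 1, ¬ Hub p (γ y a t)
  nocen : ∀ y, ∀ a ∈ L y, ∀ t ∈ Ioo (0:ℝ) 1, ∀ y', γ y a t ≠ z y'

/-- ordered crossings -/
def Sys.X {Y : Type} (S : Sys p Y) : Set ((Y × Fin p) × (Y × Fin p) × ℂ) :=
  {x | x.1.2 ∈ S.L x.1.1 ∧ x.2.1.2 ∈ S.L x.2.1.1 ∧ x.1 ≠ x.2.1 ∧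
    x.2.2 ∈ S.γ x.1.1 x.1.2 '' Ioo 0 1 ∧ x.2.2 ∈ S.γ x.2.1.1 x.2.1.2 '' Ioo 0 1}

/-- lifts of all legs -/
structure Lifts (hp : 3 ≤ p) {Y : Type} (S : Sys p Y) where
  g0 : Y → List (Fin p)
  w : Y → Fin p → ℝ → Dk
  par0 : ∀ y, Par (g0 y) (S.z y)
  cont : ∀ y, ∀ a ∈ S.L y, ContinuousOn (w y a) (Icc 0 1)
  at0 : ∀ y, ∀ a ∈ S.L y, w y a 0 = act hp (g0 y) (PsD hp (S.z y))
  rel : ∀ y, ∀ a ∈ S.L y, ∀ t ∈ Ico (0:ℝ) 1, ∃ m, Par m (S.γ y a t) ∧ w y a t = act hp m (PsD hp (S.γ y a t))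
  at1 : ∀ y, ∀ a ∈ S.L y, ∃ m, w y a 1 = act hp m (VD a)

lemma exists_lifts (hp : 3 ≤ p) {Y : Type} (S : Sys p Y) : Nonempty (Lifts hp S) := by
  classical
  have h1 : ∀ y, ∃ g : List (Fin p), Par g (S.z y) := by
    intro y
    by_cases h : ‖S.z y‖ ≤ 1
    · exact ⟨[], fun _ => by simp, fun h' => absurd h' (not_lt.mpr h)⟩
    · exact ⟨[0], fun h' => absurd h'.le h, fun _ => by simp⟩
  choose g0 hg0 using h1
  have h2 : ∀ y a, ∃ w : ℝ → Dk, a ∈ S.L y → (ContinuousOn w (Icc 0 1) ∧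
      w 0 = act hp (g0 y) (PsD hp (S.z y)) ∧
      (∀ t ∈ Ico (0:ℝ) 1, ∃ m, Par m (S.γ y a t) ∧ w t = act hp m (PsD hp (S.γ y a t))) ∧
      ∃ m, w 1 = act hp m (VD a)) := by
    intro y a
    by_cases ha : a ∈ S.L y
    · obtain ⟨w, h⟩ := lift_leg hp (S.cont y a ha) a (S.at1 y a ha) (S.nohub y a ha) (g := g0 y)
        (by rw [S.at0 y a ha]; exact hg0 y)
      rw [S.at0 y a ha] at h
      exact ⟨w, fun _ => h⟩
    · exact ⟨fun _ => VD a, fun h => absurd h ha⟩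
  choose w hw using h2
  exact ⟨⟨g0, w, hg0, fun y a ha => (hw y a ha).1, fun y a ha => (hw y a ha).2.1,
    fun y a ha => (hw y a ha).2.2.1, fun y a ha => (hw y a ha).2.2.2⟩⟩

lemma red_pre {ξ : ℕ → Fin p} (h : ∀ n, ξ n ≠ ξ (n + 1)) (n : ℕ) : Red (pre ξ n) := by
  induction n generalizing ξ with
  | zero => exact List.isChain_nil
  | succ n ih =>
    rw [pre_succ]
    have h' : ∀ n, (fun k => ξ (k + 1)) n ≠ (fun k => ξ (k + 1)) (n + 1) := fun n => h (n + 1)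
    have := ih h'
    cases n with
    | zero => unfold Red pre; simp
    | succ n =>
      unfold Red at this ⊢
      rw [pre_succ] at this ⊢
      rw [List.isChain_cons_cons]
      exact ⟨h 0, this⟩

lemma continuous_act_inv (hp : 3 ≤ p) (g : List (Fin p)) : Continuous (((act hp g)⁻¹ : Equiv.Perm Dk) : Dk → Dk) := by
  rw [← act_reverse]; exact continuous_act hp _

section
variable {hp : 3 ≤ p} {Y : Type} {S : Sys p Y} (Λ : Lifts hp S)

def Lifts.ξ (y : Y) (a : Fin p) : ℕ → Fin p := itn hp false (Λ.w y a 1)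

include Λ in
lemma Lifts.norm1 {y : Y} {a : Fin p} (ha : a ∈ S.L y) : ‖(Λ.w y a 1).1‖ = 1 := by
  obtain ⟨m, hm⟩ := Λ.at1 y a ha
  rw [hm]; exact norm_act_eq hp m (norm_VD a)

lemma Lifts.norm_lt {y : Y} {a : Fin p} (ha : a ∈ S.L y) {t : ℝ} (ht : t ∈ Ico (0:ℝ) 1) :
    ‖(Λ.w y a t).1‖ < 1 := by
  obtain ⟨m, -, hm⟩ := Λ.rel y a ha t ht
  rw [hm]; exact norm_act_lt hp m (PsD_mem hp (S.nohub y a ha t ht)).1

lemma Lifts.red {y : Y} {a : Fin p} (ha : a ∈ S.L y) (n : ℕ) : Λ.ξ y a n ≠ Λ.ξ y a (n + 1) :=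
  itn_red hp n false _ (Λ.norm1 ha)

lemma Lifts.inj {y : Y} {a b : Fin p} (ha : a ∈ S.L y) (hb : b ∈ S.L y) (h : Λ.ξ y a = Λ.ξ y b) : a = b := by
  by_contra hab
  obtain ⟨m, hm⟩ := Λ.at1 y a ha
  obtain ⟨m', hm'⟩ := Λ.at1 y b hb
  unfold Lifts.ξ at h
  rw [hm, hm'] at h
  exact code_ne hp hab m m' false h

lemma Lifts.red_of_mem {y : Y} {S0 : Finset (Fin p)} (hS : S0 ⊆ S.L y) {e : List (Fin p) × Fin p}
    (he : e ∈ Fset S0 (Λ.ξ y)) : Red e.1 := by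
  obtain ⟨a, ha, b, hb, c, hc, h1, h2, h3⟩ := he
  by_cases h : e.1 = pre (Λ.ξ y a) e.1.length
  · rw [h]; exact red_pre (fun n => Λ.red (hS ha) n) _
  by_cases h' : e.1 = pre (Λ.ξ y c) e.1.length
  · rw [h']; exact red_pre (fun n => Λ.red (hS hc) n) _
  · have := H571R3.SeqCount.dir_of_not_pre _ _ _ h h'
    rw [this] at h1
    exact absurd (h1.trans h3) (lt_irrefl _)

lemma Lifts.arc {y : Y} {a : Fin p} (ha : a ∈ S.L y) {g : List (Fin p)} (hg : Red g) :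
    Arc p (bx false g) (dir g (Λ.ξ y a)) (((act hp g)⁻¹ : Equiv.Perm Dk) (Λ.w y a 1)).1 := by
  have h1 := idx_act hp g false (Λ.w y a 1) (Λ.norm1 ha) hg
  have h2 : ‖((((act hp g)⁻¹ : Equiv.Perm Dk)) (Λ.w y a 1)).1‖ = 1 := by
    rw [← act_reverse]; exact norm_act_eq hp _ (Λ.norm1 ha)
  have h3 := idx_spec hp (bx false g) h2
  rw [h1] at h3
  exact h3

/-- two different stars (or translates) with a common cell cross -/
lemma Lifts.P1 {y y' : Y} {S0 : Finset (Fin p)} (hS : S0 ⊆ S.L y) {e e' : List (Fin p) × Fin p}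
    (he : e ∈ Fset S0 (Λ.ξ y)) (he' : e' ∈ Fset (S.L y') (Λ.ξ y'))
    (hpar : Even e.1.length ↔ Even e'.1.length) (hj : e.2 = e'.2) (hne : ¬ (y = y' ∧ e = e')) :
    ∃ a ∈ S0, ∃ a' ∈ S.L y', ¬ (y = y' ∧ a = a') ∧ ∃ s ∈ Ioo (0:ℝ) 1, ∃ t ∈ Ioo (0:ℝ) 1,
      Λ.w y a s = (act hp e.1 * (act hp e'.1)⁻¹) (Λ.w y' a' t) := by
  have hr := Λ.red_of_mem hS he
  have hr' := Λ.red_of_mem (Finset.Subset.refl _) he'
  obtain ⟨a1, ha1, a2, ha2, a3, ha3, h1, h2, h3⟩ := he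
  obtain ⟨b1, hb1, b2, hb2, b3, hb3, k1, k2, k3⟩ := he'
  set g := e.1 with hg
  set g' := e'.1 with hg'
  have hbx : bx false g' = bx false g := by unfold bx; simp only [hpar]
  let av : Fin 3 → Fin p := ![a1, a2, a3]
  let bv : Fin 3 → Fin p := ![b1, b2, b3]
  have hav : ∀ i, av i ∈ S0 := by intro i; fin_cases i <;> simp [av, ha1, ha2, ha3]
  have hbv : ∀ i, bv i ∈ S.L y' := by intro i; fin_cases i <;> simp [bv, hb1, hb2, hb3]
  have hnorm_inv : ∀ (h : List (Fin p)) (x : Dk), ‖x.1‖ < 1 → ‖(((act hp h)⁻¹ : Equiv.Perm Dk) x).1‖ < 1 := by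
    intro h x hx; rw [← act_reverse]; exact norm_act_lt hp _ hx
  have hnorm_inv1 : ∀ (h : List (Fin p)) (x : Dk), ‖x.1‖ = 1 → ‖(((act hp h)⁻¹ : Equiv.Perm Dk) x).1‖ = 1 := by
    intro h x hx; rw [← act_reverse]; exact norm_act_eq hp _ hx
  have hord : ∀ i j : Fin 3, i < j → dir g (Λ.ξ y (av i)) < dir g (Λ.ξ y (av j)) ∧
      dir g (Λ.ξ y (av i)) < dir g' (Λ.ξ y' (bv j)) ∧ dir g' (Λ.ξ y' (bv i)) < dir g (Λ.ξ y (av j)) ∧
      dir g' (Λ.ξ y' (bv i)) < dir g' (Λ.ξ y' (bv j)) := by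
    rw [← hj] at k1 k2 k3
    intro i j hij
    fin_cases i <;> fin_cases j <;> simp only [av, bv] at hij ⊢
    all_goals first
      | exact absurd hij (by decide)
      | skip
    · exact ⟨h1.trans_eq h2.symm, h1.trans_eq k2.symm, k1.trans_eq h2.symm, k1.trans_eq k2.symm⟩
    · exact ⟨h1.trans h3, h1.trans k3, k1.trans h3, k1.trans k3⟩
    · exact ⟨h2.trans_lt h3, h2.trans_lt k3, k2.trans_lt h3, k2.trans_lt k3⟩
  have harc : ∀ i, Arc p (bx false g) (dir g (Λ.ξ y (av i))) (((act hp g)⁻¹ : Equiv.Perm Dk) (Λ.w y (av i) 1)).1 :=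
    fun i => Λ.arc (hS (hav i)) hr
  have harc' : ∀ i, Arc p (bx false g) (dir g' (Λ.ξ y' (bv i))) (((act hp g')⁻¹ : Equiv.Perm Dk) (Λ.w y' (bv i) 1)).1 := by
    intro i; have := Λ.arc (hbv i) hr'; rwa [hbx] at this
  obtain ⟨i, k, hik, s, hs, t, ht, hst⟩ := cross_disc hp (bx false g)
    (((act hp g)⁻¹ : Equiv.Perm Dk) (act hp (Λ.g0 y) (PsD hp (S.z y))))
    (((act hp g')⁻¹ : Equiv.Perm Dk) (act hp (Λ.g0 y') (PsD hp (S.z y'))))
    (fun i t => ((act hp g)⁻¹ : Equiv.Perm Dk) (Λ.w y (av i) t))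
    (fun i t => ((act hp g')⁻¹ : Equiv.Perm Dk) (Λ.w y' (bv i) t))
    (fun i => (continuous_act_inv hp g).comp_continuousOn (Λ.cont y _ (hS (hav i))))
    (fun i => (continuous_act_inv hp g').comp_continuousOn (Λ.cont y' _ (hbv i)))
    (fun i => by rw [Λ.at0 y _ (hS (hav i))]) (fun i => by rw [Λ.at0 y' _ (hbv i)])
    (fun i t ht => hnorm_inv _ _ (Λ.norm_lt (hS (hav i)) ht))
    (fun i t ht => hnorm_inv _ _ (Λ.norm_lt (hbv i) ht))
    _ _ harc harc' hord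
  set a := av i with ha
  set a' := bv k with ha'
  have haL : a ∈ S.L y := hS (hav i)
  have haL' : a' ∈ S.L y' := hbv k
  have hst' : Λ.w y a s = (act hp g * (act hp g')⁻¹) (Λ.w y' a' t) := by
    rw [Equiv.Perm.mul_apply, ← hst]; simp
  -- the word of u
  have hu : act hp (g ++ g'.reverse) = act hp g * (act hp g')⁻¹ := by rw [act_append, act_reverse]
  have hue : Even (g ++ g'.reverse).length := by
    rw [List.length_append, List.length_reverse, Nat.even_add]; exact hpar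
  have hu1 : y = y' → act hp (g ++ g'.reverse) = 1 → False := by
    intro hy h
    rw [hu, mul_inv_eq_one] at h
    exact hne ⟨hy, Prod.ext (red_inj hp g g' hr hr' h) hj⟩
  -- endpoints are different
  have hs1 : s < 1 ∧ t < 1 := by
    rcases hs.2.lt_or_eq with hs1 | hs1
    · refine ⟨hs1, ?_⟩
      rcases ht.2.lt_or_eq with ht1 | ht1
      · exact ht1
      · exfalso
        have e1 := hnorm_inv g _ (Λ.norm_lt haL ⟨hs.1, hs1⟩)
        rw [hst, ht1, hnorm_inv1 _ _ (Λ.norm1 haL')] at e1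
        exact lt_irrefl _ e1
    · exfalso
      rcases ht.2.lt_or_eq with ht1 | ht1
      · have e1 := hnorm_inv g' _ (Λ.norm_lt haL' ⟨ht.1, ht1⟩)
        rw [← hst, hs1, hnorm_inv1 _ _ (Λ.norm1 haL)] at e1
        exact lt_irrefl _ e1
      · have e1 := harc i
        have e2 := harc' k
        rw [← ha] at e1
        rw [← ha'] at e2
        rw [hs1, ht1] at hst
        rw [hst] at e1
        have e3 := e1.unique hp e2
        rcases lt_or_gt_of_ne hik with h | h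
        · exact absurd e3 (hord i k h).2.1.ne
        · exact absurd e3 (hord k i h).2.2.1.ne'
  have hsI : s ∈ Ico (0:ℝ) 1 := ⟨hs.1, hs1.1⟩
  have htI : t ∈ Ico (0:ℝ) 1 := ⟨ht.1, hs1.2⟩
  obtain ⟨m, hm1, hm2⟩ := Λ.rel y a haL s hsI
  obtain ⟨m', hm1', hm2'⟩ := Λ.rel y' a' haL' t htI
  have hparm : Par ((g ++ g'.reverse) ++ m') (S.γ y' a' t) := by
    have : Even ((g ++ g'.reverse) ++ m').length ↔ Even m'.length := by
      rw [List.length_append, Nat.even_add]; tauto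
    exact ⟨fun h => this.mpr (hm1'.1 h), fun h h' => hm1'.2 h (this.mp h')⟩
  have hq : S.γ y a s = S.γ y' a' t := by
    refine (proj hp (S.nohub y a haL s hsI) (S.nohub y' a' haL' t htI) hm1 hparm ?_).1
    rw [← hm2, hst', act_append, hu, hm2']; rfl
  have hs0 : 0 < s := by
    rcases hs.1.lt_or_eq with h | h
    · exact h
    exfalso
    have e1 : S.γ y a s = S.z y := by rw [← h]; exact S.at0 y a haL
    rcases ht.1.lt_or_eq with h' | h'
    · exact S.nocen y' a' haL' t ⟨h', hs1.2⟩ y (hq.symm.trans e1)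
    · have e2 : S.γ y' a' t = S.z y' := by rw [← h']; exact S.at0 y' a' haL'
      have e3 : y = y' := S.z_inj (e1.symm.trans (hq.trans e2))
      apply hu1 e3
      apply free hp (S.z_hub y) (Λ.par0 y) hue
      have e4 : Λ.w y a s = act hp (Λ.g0 y) (PsD hp (S.z y)) := by rw [← h]; exact Λ.at0 y a haL
      have e5 : Λ.w y' a' t = act hp (Λ.g0 y) (PsD hp (S.z y)) := by rw [← h', Λ.at0 y' a' haL', e3]
      rw [hu, ← e5, ← hst', e4, ← e5]
  have ht0 : 0 < t := by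
    rcases ht.1.lt_or_eq with h | h
    · exact h
    exfalso
    have e2 : S.γ y' a' t = S.z y' := by rw [← h]; exact S.at0 y' a' haL'
    exact S.nocen y a haL s ⟨hs0, hs1.1⟩ y' (hq.trans e2)
  refine ⟨a, hav i, a', haL', ?_, s, ⟨hs0, hs1.1⟩, t, ⟨ht0, hs1.2⟩, hst'⟩
  rintro ⟨e1, e2⟩
  have hst2 : s = t := by
    apply S.inj y a haL hs ht
    rw [hq, ← e1, ← e2]
  apply hu1 e1
  apply free hp (S.nohub y a haL s hsI) hm1 hue
  rw [← hm2, hu]
  conv_rhs => rw [hst']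
  rw [← e1, ← e2, ← hst2]

/-- crossings of translates project injectively -/
lemma Lifts.proj_eq {y y' : Y} {a a' : Fin p} (ha : a ∈ S.L y) (ha' : a' ∈ S.L y') {n : List (Fin p)}
    (hn : Even n.length) {s t : ℝ} (hs : s ∈ Ioo (0:ℝ) 1) (ht : t ∈ Ioo (0:ℝ) 1)
    (h : Λ.w y a s = act hp n (Λ.w y' a' t)) : S.γ y a s = S.γ y' a' t := by
  have hsI : s ∈ Ico (0:ℝ) 1 := ⟨hs.1.le, hs.2⟩
  have htI : t ∈ Ico (0:ℝ) 1 := ⟨ht.1.le, ht.2⟩
  obtain ⟨m, hm1, hm2⟩ := Λ.rel y a ha s hsI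
  obtain ⟨m', hm1', hm2'⟩ := Λ.rel y' a' ha' t htI
  have hparm : Par (n ++ m') (S.γ y' a' t) := by
    have : Even (n ++ m').length ↔ Even m'.length := by
      rw [List.length_append, Nat.even_add]; tauto
    exact ⟨fun h => this.mpr (hm1'.1 h), fun h h' => hm1'.2 h (this.mp h')⟩
  refine (proj hp (S.nohub y a ha s hsI) (S.nohub y' a' ha' t htI) hm1 hparm ?_).1
  rw [← hm2, h, act_append, hm2']; rfl

lemma Lifts.free {y : Y} {a : Fin p} (ha : a ∈ S.L y) {n : List (Fin p)} (hn : Even n.length) {t : ℝ}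
    (ht : t ∈ Ioo (0:ℝ) 1) (h : act hp n (Λ.w y a t) = Λ.w y a t) : act hp n = 1 := by
  have htI : t ∈ Ico (0:ℝ) 1 := ⟨ht.1.le, ht.2⟩
  obtain ⟨m, hm1, hm2⟩ := Λ.rel y a ha t htI
  rw [hm2] at h
  exact H571R3.free hp (S.nohub y a ha t htI) hm1 hn h

end

end

end H571R3
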