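import Pool.Agent.H571R3.Core
set_option autoImplicit false
set_option linter.unusedSectionVars false
set_option linter.unusedVariables false
namespace H571R3
open Complex Real Set
open H571R3.SeqCount (pre dir Fset Fset_card)

noncomputable section

variable {p : ℕ} [NeZero p]

lemma Fset_mono {ι : Type} {S T : Finset ι} (h : S ⊆ T) (ξ : ι → ℕ → Fin p) : Fset S ξ ⊆ Fset T ξ := by
  rintro x ⟨a, ha, b, hb, c, hc, h'⟩
  exact ⟨a, h ha, b, h hb, c, h hc, h'⟩

/-- integer convexity -/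
lemma conv (k N : ℕ) : 2 * k * N ≤ (N * N - N) + k * (k + 1) := by
  have h : N ≤ N * N := by nlinarith [Nat.zero_le N, Nat.le_mul_self N]
  zify [h]
  have h1 : (0:ℤ) ≤ ((N:ℤ) - k) * ((N:ℤ) - k - 1) := by
    rcases le_or_gt ((N:ℤ) - k) 0 with h0 | h0
    · nlinarith
    · have : (1:ℤ) ≤ (N:ℤ) - k := h0
      nlinarith
  nlinarith

lemma card_mid (hp : 3 ≤ p) : (Finset.univ.filter (fun j : Fin p => 0 < (j:ℕ) ∧ (j:ℕ) < p - 1)).card = p - 2 := by
  have h : (Finset.univ.filter (fun j : Fin p => 0 < (j:ℕ) ∧ (j:ℕ) < p - 1)) =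
      Finset.univ \ {(⟨0, by omega⟩ : Fin p), ⟨p - 1, by omega⟩} := by
    ext j
    simp only [Finset.mem_filter, Finset.mem_univ, true_and, Finset.mem_sdiff, Finset.mem_insert,
      Finset.mem_singleton, not_or, Fin.ext_iff]
    have := j.2
    omega
  rw [h, Finset.card_sdiff_of_subset (Finset.subset_univ _), Finset.card_univ, Fintype.card_fin,
    Finset.card_pair]
  intro h'
  have := congrArg Fin.val h'
  simp only at this
  omega

theorem Sys.core (hp : 3 ≤ p) {Y : Type} [Fintype Y] (S : Sys p Y) (hX : S.X.Finite) (k : ℕ) :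
    2 * k * (∑ y, ((S.L y).card - 2)) ≤ S.X.ncard + k * (k + 1) * (2 * (p - 2)) := by
  classical
  obtain ⟨Λ⟩ := exists_lifts hp S
  have hF : ∀ y, 2 ≤ (S.L y).card → (Fset (S.L y) (Λ.ξ y)).Finite ∧ (Fset (S.L y) (Λ.ξ y)).ncard = (S.L y).card - 2 :=
    fun y h => Fset_card _ _ (fun a ha n => Λ.red ha n) (fun a ha b hb h => Λ.inj ha hb h) h
  let F : Y → Finset (List (Fin p) × Fin p) := fun y => if h : 2 ≤ (S.L y).card then (hF y h).1.toFinset else ∅
  have F_card : ∀ y, (F y).card = (S.L y).card - 2 := by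
    intro y
    by_cases h : 2 ≤ (S.L y).card
    · simp only [F, h, dif_pos]
      rw [← Set.ncard_eq_toFinset_card _ (hF y h).1]; exact (hF y h).2
    · simp only [F, h, dif_neg, not_false_iff, Finset.card_empty]
      omega
  have F_mem : ∀ y e, e ∈ F y → 2 ≤ (S.L y).card ∧ e ∈ Fset (S.L y) (Λ.ξ y) := by
    intro y e he
    by_cases h : 2 ≤ (S.L y).card
    · simp only [F, h, dif_pos] at he
      exact ⟨h, (hF y h).1.mem_toFinset.mp he⟩
    · simp [F, h] at he
  -- all cells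
  let T : Finset (Σ _ : Y, List (Fin p) × Fin p) := Finset.univ.sigma F
  have T_card : T.card = ∑ y, ((S.L y).card - 2) := by
    simp only [T, Finset.card_sigma, F_card]
  have T_mem : ∀ x ∈ T, x.2 ∈ F x.1 := fun x hx => (Finset.mem_sigma.mp hx).2
  let cls : (Σ _ : Y, List (Fin p) × Fin p) → Bool × Fin p := fun x => (decide (Even x.2.1.length), x.2.2)
  let CC : Finset (Bool × Fin p) :=
    Finset.univ ×ˢ Finset.univ.filter (fun j : Fin p => 0 < (j:ℕ) ∧ (j:ℕ) < p - 1)
  have CC_card : CC.card = 2 * (p - 2) := by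
    simp only [CC, Finset.card_product, Finset.card_univ, Fintype.card_bool, card_mid hp]
  have cls_mem : ∀ x ∈ T, cls x ∈ CC := by
    intro x hx
    obtain ⟨-, a, ha, b, hb, c, hc, h1, h2, h3⟩ := F_mem _ _ (T_mem x hx)
    simp only [CC, cls, Finset.mem_product, Finset.mem_univ, true_and, Finset.mem_filter]
    constructor
    · exact lt_of_le_of_lt (Nat.zero_le _) (Fin.lt_def.mp h1)
    · have := Fin.lt_def.mp h3
      have := (dir x.2.1 (Λ.ξ x.1 c)).2
      omega
  -- pairs of different cells in the same class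
  let P : Finset ((Σ _ : Y, List (Fin p) × Fin p) × (Σ _ : Y, List (Fin p) × Fin p)) :=
    T.offDiag.filter (fun x => cls x.1 = cls x.2)
  have P_card : P.card = ∑ c ∈ CC, ((T.filter (fun x => cls x = c)).card * (T.filter (fun x => cls x = c)).card
      - (T.filter (fun x => cls x = c)).card) := by
    rw [Finset.card_eq_sum_card_fiberwise (f := fun x => cls x.1) (t := CC)]
    · refine Finset.sum_congr rfl (fun c _ => ?_)
      rw [← Finset.offDiag_card]
      congr 1
      ext x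
      simp only [P, Finset.mem_filter, Finset.mem_offDiag]
      constructor
      · rintro ⟨⟨⟨h1, h2, h3⟩, h4⟩, h5⟩; exact ⟨⟨h1, h5⟩, ⟨h2, h4 ▸ h5⟩, h3⟩
      · rintro ⟨⟨h1, h5⟩, ⟨h2, h6⟩, h3⟩; exact ⟨⟨⟨h1, h2, h3⟩, h5.trans h6.symm⟩, h5⟩
    · intro x hx
      have hx' := (Finset.mem_filter.mp (Finset.mem_coe.mp hx)).1
      exact cls_mem _ (Finset.mem_offDiag.mp hx').1
  have T_sum : T.card = ∑ c ∈ CC, (T.filter (fun x => cls x = c)).card :=
    Finset.card_eq_sum_card_fiberwise (fun x hx => cls_mem x hx)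
  have step1 : 2 * k * T.card ≤ P.card + k * (k + 1) * (2 * (p - 2)) := by
    rw [P_card, T_sum, ← CC_card, Finset.mul_sum, mul_comm (k * (k + 1)) CC.card, ← smul_eq_mul CC.card,
      ← Finset.sum_const, ← Finset.sum_add_distrib]
    exact Finset.sum_le_sum (fun c _ => conv k _)
  -- pairs are bounded by crossings
  let f : ((Σ _ : Y, List (Fin p) × Fin p) × (Σ _ : Y, List (Fin p) × Fin p)) → Y × Y × Equiv.Perm Dk :=
    fun x => (x.1.1, x.2.1, act hp x.1.2.1 * (act hp x.2.2.1)⁻¹)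
  let Xv : Y × Y × Equiv.Perm Dk → Finset (Fin p × Fin p) := fun v =>
    (S.L v.1 ×ˢ S.L v.2.1).filter (fun a => ¬ (v.1 = v.2.1 ∧ a.1 = a.2) ∧
      ∃ s ∈ Ioo (0:ℝ) 1, ∃ t ∈ Ioo (0:ℝ) 1, Λ.w v.1 a.1 s = v.2.2 (Λ.w v.2.1 a.2 t))
  have hfib : ∀ v ∈ P.image f, (P.filter (fun x => f x = v)).card ≤ (Xv v).card := by
    intro v hv
    let S0 : Finset (Fin p) := (S.L v.1).filter (fun a => ∀ a' ∈ S.L v.2.1, (a, a') ∉ Xv v)
    have hS0 : S0 ⊆ S.L v.1 := Finset.filter_subset _ _
    have c1 : (S.L v.1 \ S0).card ≤ (Xv v).card := by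
      have : S.L v.1 \ S0 ⊆ (Xv v).image Prod.fst := by
        intro a ha
        rw [Finset.mem_sdiff] at ha
        have h2 : ¬ ∀ a' ∈ S.L v.2.1, (a, a') ∉ Xv v := fun h => ha.2 (Finset.mem_filter.mpr ⟨ha.1, h⟩)
        push Not at h2
        obtain ⟨a', -, h3⟩ := h2
        exact Finset.mem_image.mpr ⟨_, h3, rfl⟩
      exact (Finset.card_le_card this).trans Finset.card_image_le
    have c2 : ((F v.1).filter (fun e => e ∉ Fset S0 (Λ.ξ v.1))).card ≤ (S.L v.1 \ S0).card := by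
      rw [Finset.card_sdiff_of_subset hS0]
      by_cases h2 : 2 ≤ S0.card
      · obtain ⟨fin0, card0⟩ := Fset_card S0 (Λ.ξ v.1) (fun a ha n => Λ.red (hS0 ha) n)
          (fun a ha b hb h => Λ.inj (hS0 ha) (hS0 hb) h) h2
        have hL2 : 2 ≤ (S.L v.1).card := h2.trans (Finset.card_le_card hS0)
        have hsub : fin0.toFinset ⊆ F v.1 := by
          intro e he
          rw [fin0.mem_toFinset] at he
          simp only [F, hL2, dif_pos]
          rw [(hF v.1 hL2).1.mem_toFinset]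
          exact Fset_mono hS0 _ he
        have heq : (F v.1).filter (fun e => e ∉ Fset S0 (Λ.ξ v.1)) = F v.1 \ fin0.toFinset := by
          ext e; simp [Finset.mem_sdiff, fin0.mem_toFinset]
        rw [heq, Finset.card_sdiff_of_subset hsub, F_card, ← Set.ncard_eq_toFinset_card _ fin0, card0]
        omega
      · refine (Finset.card_filter_le _ _).trans ?_
        rw [F_card]; omega
    refine le_trans ?_ (c2.trans c1)
    -- injection of the fibre
    refine Finset.card_le_card_of_injOn (fun x => x.1.2) ?_ ?_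
    · intro x hx
      obtain ⟨hxP, hxv⟩ := Finset.mem_filter.mp (Finset.mem_coe.mp hx)
      obtain ⟨hxo, hxc⟩ := Finset.mem_filter.mp hxP
      obtain ⟨hx1, hx2, hx3⟩ := Finset.mem_offDiag.mp hxo
      have hv1 : x.1.1 = v.1 := congrArg (fun v => v.1) hxv
      have hv2 : x.2.1 = v.2.1 := congrArg (fun v => v.2.1) hxv
      have hv3 : act hp x.1.2.1 * (act hp x.2.2.1)⁻¹ = v.2.2 := congrArg (fun v => v.2.2) hxv
      simp only [Finset.coe_filter, Set.mem_ofPred_eq]
      refine ⟨hv1 ▸ T_mem _ hx1, ?_⟩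
      intro hbad
      have he' := (F_mem _ _ (T_mem _ hx2)).2
      have hcls1 : (Even x.1.2.1.length ↔ Even x.2.2.1.length) := by
        have := congrArg Prod.fst hxc
        simpa [cls] using this
      have hcls2 : x.1.2.2 = x.2.2.2 := by
        have h' : (cls x.1).2 = (cls x.2).2 := by rw [hxc]
        exact h'
      rw [hv2] at he'
      obtain ⟨a, ha, a', ha', hne, s, hs, t, ht, hst⟩ := Λ.P1 hS0 hbad he' hcls1 hcls2 (by
        rintro ⟨h1, h2⟩
        apply hx3
        refine Sigma.ext (hv1.trans (h1.trans hv2.symm)) (heq_of_eq h2))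
      rw [hv3] at hst
      have := (Finset.mem_filter.mp ha).2 a' ha'
      apply this
      refine Finset.mem_filter.mpr ⟨Finset.mem_product.mpr ⟨hS0 ha, ha'⟩, hne, s, hs, t, ht, hst⟩
    · intro x hx x' hx' hxx
      obtain ⟨hxP, hxv⟩ := Finset.mem_filter.mp (Finset.mem_coe.mp hx)
      obtain ⟨hxo, hxc⟩ := Finset.mem_filter.mp hxP
      obtain ⟨hx1, hx2, hx3⟩ := Finset.mem_offDiag.mp hxo
      obtain ⟨hxP', hxv'⟩ := Finset.mem_filter.mp (Finset.mem_coe.mp hx')
      obtain ⟨hxo', hxc'⟩ := Finset.mem_filter.mp hxP'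
      obtain ⟨hx1', hx2', hx3'⟩ := Finset.mem_offDiag.mp hxo'
      simp only at hxx
      have hff : f x = f x' := hxv.trans hxv'.symm
      have f1 : x.1.1 = x'.1.1 := congrArg (fun v => v.1) hff
      have f2 : x.2.1 = x'.2.1 := congrArg (fun v => v.2.1) hff
      have f3 : act hp x.1.2.1 * (act hp x.2.2.1)⁻¹ = act hp x'.1.2.1 * (act hp x'.2.2.1)⁻¹ :=
        congrArg (fun v => v.2.2) hff
      rw [hxx, mul_right_inj, inv_inj] at f3
      have r1 := Λ.red_of_mem (Finset.Subset.refl _) (F_mem _ _ (T_mem _ hx2)).2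
      have r2 := Λ.red_of_mem (Finset.Subset.refl _) (F_mem _ _ (T_mem _ hx2')).2
      have g1 := red_inj hp _ _ r1 r2 f3
      have g2 : x.2.2.2 = x'.2.2.2 := by
        have a1 : x.1.2.2 = x.2.2.2 := by
          have h' : (cls x.1).2 = (cls x.2).2 := by rw [hxc]
          exact h'
        have a2 : x'.1.2.2 = x'.2.2.2 := by
          have h' : (cls x'.1).2 = (cls x'.2).2 := by rw [hxc']
          exact h'
        rw [← a1, ← a2, hxx]
      refine Prod.ext (Sigma.ext f1 (heq_of_eq hxx)) (Sigma.ext f2 (heq_of_eq (Prod.ext g1 g2)))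
  have step2 : P.card ≤ S.X.ncard := by
    rw [Finset.card_eq_sum_card_image f P]
    refine (Finset.sum_le_sum hfib).trans ?_
    rw [← Finset.card_sigma, Set.ncard_eq_toFinset_card _ hX]
    -- words of the translations
    have hword : ∀ v ∈ P.image f, ∃ n : List (Fin p), Even n.length ∧ act hp n = v.2.2 := by
      intro v hv
      obtain ⟨x, hx, rfl⟩ := Finset.mem_image.mp hv
      have hxc := (Finset.mem_filter.mp hx).2
      have hcls1 : (Even x.1.2.1.length ↔ Even x.2.2.1.length) := by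
        have := congrArg Prod.fst hxc
        simpa [cls] using this
      refine ⟨x.1.2.1 ++ x.2.2.1.reverse, ?_, by rw [act_append, act_reverse]⟩
      rw [List.length_append, List.length_reverse, Nat.even_add]; exact hcls1
    have hwit : ∀ x : (Σ _ : Y × Y × Equiv.Perm Dk, Fin p × Fin p), ∃ q : ℝ × ℝ,
        x ∈ (P.image f).sigma Xv → q.1 ∈ Ioo (0:ℝ) 1 ∧ q.2 ∈ Ioo (0:ℝ) 1 ∧
          Λ.w x.1.1 x.2.1 q.1 = x.1.2.2 (Λ.w x.1.2.1 x.2.2 q.2) := by
      intro x
      by_cases hx : x ∈ (P.image f).sigma Xv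
      · obtain ⟨h1, h2⟩ := Finset.mem_sigma.mp hx
        obtain ⟨-, -, s, hs, t, ht, hst⟩ := Finset.mem_filter.mp h2
        exact ⟨(s, t), fun _ => ⟨hs, ht, hst⟩⟩
      · exact ⟨(0, 0), fun h => absurd h hx⟩
    choose q hq using hwit
    have hmem : ∀ x ∈ (P.image f).sigma Xv, x.2.1 ∈ S.L x.1.1 ∧ x.2.2 ∈ S.L x.1.2.1 ∧
        ¬ (x.1.1 = x.1.2.1 ∧ x.2.1 = x.2.2) := by
      intro x hx
      obtain ⟨h1, h2⟩ := Finset.mem_sigma.mp hx
      obtain ⟨h3, h4, -⟩ := Finset.mem_filter.mp h2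
      obtain ⟨h5, h6⟩ := Finset.mem_product.mp h3
      exact ⟨h5, h6, h4⟩
    have hpt : ∀ x ∈ (P.image f).sigma Xv, S.γ x.1.1 x.2.1 (q x).1 = S.γ x.1.2.1 x.2.2 (q x).2 := by
      intro x hx
      obtain ⟨n, hn1, hn2⟩ := hword _ (Finset.mem_sigma.mp hx).1
      obtain ⟨h1, h2, -⟩ := hmem x hx
      obtain ⟨h3, h4, h5⟩ := hq x hx
      exact Λ.proj_eq h1 h2 hn1 h3 h4 (by rw [hn2]; exact h5)
    refine Finset.card_le_card_of_injOn
      (fun x => ((x.1.1, x.2.1), (x.1.2.1, x.2.2), S.γ x.1.1 x.2.1 (q x).1)) ?_ ?_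
    · intro x hx
      have hx' := Finset.mem_coe.mp hx
      obtain ⟨h1, h2, h3⟩ := hmem x hx'
      obtain ⟨h4, h5, -⟩ := hq x hx'
      rw [Finset.mem_coe, hX.mem_toFinset]
      refine ⟨h1, h2, ?_, ⟨_, h4, rfl⟩, ⟨_, h5, (hpt x hx').symm⟩⟩
      intro h
      exact h3 ⟨congrArg Prod.fst h, congrArg Prod.snd h⟩
    · intro x hx x' hx' hxx
      have hx := Finset.mem_coe.mp hx
      have hx' := Finset.mem_coe.mp hx'
      simp only [Prod.mk.injEq] at hxx
      obtain ⟨⟨e1, e2⟩, ⟨e3, e4⟩, e5⟩ := hxx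
      obtain ⟨h1, h2, h3⟩ := hmem x hx
      obtain ⟨h4, h5, h6⟩ := hq x hx
      obtain ⟨h4', h5', h6'⟩ := hq x' hx'
      have hp1 := hpt x hx
      have hp2 := hpt x' hx'
      rw [← e1, ← e2] at e5 hp2 h6'
      rw [← e3, ← e4] at hp2 h6'
      have hs : (q x).1 = (q x').1 := S.inj _ _ h1 (Ioo_subset_Icc_self h4) (Ioo_subset_Icc_self h4') e5
      have ht : (q x).2 = (q x').2 := by
        apply S.inj _ _ h2 (Ioo_subset_Icc_self h5) (Ioo_subset_Icc_self h5')
        rw [← hp1, ← hp2, hs]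
      obtain ⟨n, hn1, hn2⟩ := hword _ (Finset.mem_sigma.mp hx).1
      obtain ⟨n', hn1', hn2'⟩ := hword _ (Finset.mem_sigma.mp hx').1
      have hu : x.1.2.2 = x'.1.2.2 := by
        have hfree : act hp (n'.reverse ++ n) = 1 := by
          apply Λ.free h2 (n := n'.reverse ++ n) ?_ h5
          · rw [act_append, act_reverse, Equiv.Perm.mul_apply, hn2, hn2', ← h6, hs, h6', ht]
            simp
          · rw [List.length_append, List.length_reverse]; exact hn1'.add hn1
        rw [act_append, act_reverse, hn2, hn2', inv_mul_eq_one] at hfree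
        exact hfree.symm
      refine Sigma.ext (Prod.ext e1 (Prod.ext e3 hu)) (heq_of_eq (Prod.ext e2 e4))
  rw [← T_card]
  omega

end

end H571R3
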