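import Pool.Agent.H571R3.Plane
import Pool.Agent.H678R3.BipUpper
set_option autoImplicit false

namespace H571R3
open Pool.Agent.Helper770.Crossing Pool.Agent.Helper770.Exist

/-- The biplanar crossing number, in the form: the least value of `cr(G₁) + cr(G₂)` over all pairs
of spanning subgraphs `G₁`, `G₂` of `G` whose union is `G` (they may share edges). -/
noncomputable def cr2 {V : Type*} (G : SimpleGraph V) : ℕ :=
  sInf {n | ∃ G₁ G₂ : SimpleGraph V, G₁ ⊔ G₂ = G ∧ n = crossingNumber G₁ + crossingNumber G₂}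

theorem cr2_attained {V : Type*} (G : SimpleGraph V) :
    ∃ G₁ G₂ : SimpleGraph V, G₁ ⊔ G₂ = G ∧ cr2 G = crossingNumber G₁ + crossingNumber G₂ := by
  have hne : {n | ∃ G₁ G₂ : SimpleGraph V, G₁ ⊔ G₂ = G ∧
      n = crossingNumber G₁ + crossingNumber G₂}.Nonempty :=
    ⟨_, G, ⊥, by simp, rfl⟩
  exact Nat.sInf_mem hne

theorem cr2_le_biplanar {V : Type*} [Fintype V] (G : SimpleGraph V) :
    cr2 G ≤ biplanarCrossingNumber G := by
  obtain ⟨G₁, G₂, h, hd, he⟩ := biplanar_attained G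
  rw [he]
  exact Nat.sInf_le ⟨G₁, G₂, h, rfl⟩

/-- the lower bound for the covering form -/
theorem cr2_lower {p : ℕ} (hp : 3 ≤ p) (q k : ℕ) :
    k * ((p - 4) * q) ≤ cr2 (completeBipartiteGraph (Fin p) (Fin q)) +
      2 * (k * (k + 1) * (p - 2)) := by
  obtain ⟨G₁, G₂, h, he⟩ := cr2_attained (completeBipartiteGraph (Fin p) (Fin q))
  rw [he]
  exact two_planes hp q G₁ G₂ h k

theorem six_int (q : ℕ) :
    (cr2 (completeBipartiteGraph (Fin 6) (Fin q)) : ℤ) =
      2 * ((q / 8 : ℕ) : ℤ) * ((q : ℤ) - 4 * ((q / 8 : ℕ) : ℤ) - 4) := by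
  apply le_antisymm
  · have h1 := (cr2_le_biplanar (completeBipartiteGraph (Fin 6) (Fin q))).trans
      (Pool.Agent.H678R3.BipUpper.upper6 q)
    have hk : 4 * (q / 8) + 4 ≤ q ∨ q / 8 = 0 := by omega
    rcases hk with hk | hk
    · have h2 : q - 4 * (q / 8) - 4 = q - (4 * (q / 8) + 4) := by omega
      rw [h2] at h1
      zify [hk] at h1
      push_cast
      push_cast at h1
      linarith
    · rw [hk] at h1 ⊢
      simp at h1
      simp [h1]
  · have h1 := cr2_lower (p := 6) (by norm_num) q (q / 8)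
    norm_num at h1
    have h2 : (((q / 8 : ℕ) : ℤ)) * (2 * (q : ℤ)) ≤
        (cr2 (completeBipartiteGraph (Fin 6) (Fin q)) : ℤ) +
        2 * (((q / 8 : ℕ) : ℤ) * (((q / 8 : ℕ) : ℤ) + 1) * 4) := by exact_mod_cast h1
    linarith

theorem eight_int (q : ℕ) :
    (cr2 (completeBipartiteGraph (Fin 8) (Fin q)) : ℤ) =
      4 * ((q / 6 : ℕ) : ℤ) * ((q : ℤ) - 3 * ((q / 6 : ℕ) : ℤ) - 3) := by
  apply le_antisymm
  · have h1 := (cr2_le_biplanar (completeBipartiteGraph (Fin 8) (Fin q))).trans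
      (Pool.Agent.H678R3.BipUpper.upper8 q)
    have hk : 3 * (q / 6) + 3 ≤ q ∨ q / 6 = 0 := by omega
    rcases hk with hk | hk
    · have h2 : q - 3 * (q / 6) - 3 = q - (3 * (q / 6) + 3) := by omega
      rw [h2] at h1
      zify [hk] at h1
      push_cast
      push_cast at h1
      linarith
    · rw [hk] at h1 ⊢
      simp at h1
      simp [h1]
  · have h1 := cr2_lower (p := 8) (by norm_num) q (q / 6)
    norm_num at h1
    have h2 : (((q / 6 : ℕ) : ℤ)) * (4 * (q : ℤ)) ≤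
        (cr2 (completeBipartiteGraph (Fin 8) (Fin q)) : ℤ) +
        2 * (((q / 6 : ℕ) : ℤ) * (((q / 6 : ℕ) : ℤ) + 1) * 6) := by exact_mod_cast h1
    linarith

end H571R3
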