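import Pool.Agent.H571R3.Codes
import Pool.Agent.H650R3.Task571D
set_option autoImplicit false
set_option linter.unusedSectionVars false
set_option linter.unusedVariables false
namespace H571R3
open Complex Real Set

noncomputable section

/-- Cayley map sending `e^{ia}` to infinity -/
def HH (a : ℝ) (z : ℂ) : ℂ := I * ((Complex.exp (a * I) + z) / (Complex.exp (a * I) - z))

lemma HH_im (a : ℝ) {z : ℂ} (hz : Complex.exp (a * I) - z ≠ 0) :
    (HH a z).im = (1 - ‖z‖ ^ 2) / ‖Complex.exp (a * I) - z‖ ^ 2 := by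
  set κ := Complex.exp (a * I) with hκ
  have hκ1 : κ.re * κ.re + κ.im * κ.im = 1 := by
    have h1 : normSq κ = 1 := by
      rw [Complex.normSq_eq_norm_sq, hκ, Complex.norm_exp_ofReal_mul_I]; norm_num
    rw [← h1, Complex.normSq_apply]
  unfold HH
  rw [← hκ, Complex.mul_im, Complex.I_re, Complex.I_im, zero_mul, zero_add, one_mul, Complex.div_re,
    ← Complex.normSq_eq_norm_sq, ← Complex.normSq_eq_norm_sq, Complex.normSq_apply z]
  have hn : normSq (κ - z) ≠ 0 := by simpa [Complex.normSq_eq_zero] using hz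
  rw [← add_div]
  congr 1
  simp only [Complex.add_re, Complex.add_im, Complex.sub_re, Complex.sub_im]
  linear_combination hκ1

lemma HH_exp (a θ : ℝ) (h : Real.sin ((θ - a) / 2) ≠ 0) :
    HH a (Complex.exp (θ * I)) = ((-(Real.cos ((θ - a) / 2) / Real.sin ((θ - a) / 2)) : ℝ) : ℂ) := by
  set ψ := (θ - a) / 2 with hψ
  set m := Complex.exp (((θ + a) / 2 : ℝ) * I) with hm
  have hm0 : m ≠ 0 := Complex.exp_ne_zero _
  have e1 : Complex.exp (θ * I) = m * Complex.exp ((ψ : ℂ) * I) := by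
    rw [hm, ← Complex.exp_add]; congr 1; rw [hψ]; push_cast; ring
  have e2 : Complex.exp (a * I) = m * Complex.exp (((-ψ : ℝ) : ℂ) * I) := by
    rw [hm, ← Complex.exp_add]; congr 1; rw [hψ]; push_cast; ring
  have c1 : Complex.exp ((ψ : ℂ) * I) = (Real.cos ψ : ℂ) + (Real.sin ψ : ℂ) * I := by
    rw [Complex.exp_mul_I]; push_cast; ring
  have c2 : Complex.exp (((-ψ : ℝ) : ℂ) * I) = (Real.cos ψ : ℂ) - (Real.sin ψ : ℂ) * I := by
    rw [Complex.exp_mul_I, ← Complex.ofReal_cos, ← Complex.ofReal_sin, Real.cos_neg, Real.sin_neg]; push_cast; ring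
  unfold HH
  rw [e1, e2, c1, c2]
  have hs : (Real.sin ψ : ℂ) ≠ 0 := by exact_mod_cast h
  have hd : m * ((Real.cos ψ : ℂ) - (Real.sin ψ : ℂ) * I) - m * ((Real.cos ψ : ℂ) + (Real.sin ψ : ℂ) * I) ≠ 0 := by
    rw [show m * ((Real.cos ψ : ℂ) - (Real.sin ψ : ℂ) * I) - m * ((Real.cos ψ : ℂ) + (Real.sin ψ : ℂ) * I)
      = m * (-2 * ((Real.sin ψ : ℂ)) * I) by ring]
    exact mul_ne_zero hm0 (mul_ne_zero (mul_ne_zero (by norm_num) hs) Complex.I_ne_zero)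
  rw [← mul_div_assoc, div_eq_iff hd]
  push_cast at hs ⊢
  field_simp
  ring_nf

lemma cot_lt {u v : ℝ} (hu : 0 < u) (huv : u < v) (hv : v < π) :
    -(Real.cos u / Real.sin u) < -(Real.cos v / Real.sin v) := by
  have h1 : 0 < Real.sin u := Real.sin_pos_of_pos_of_lt_pi hu (huv.trans hv)
  have h2 : 0 < Real.sin v := Real.sin_pos_of_pos_of_lt_pi (hu.trans huv) hv
  have h3 : 0 < Real.sin (v - u) := Real.sin_pos_of_pos_of_lt_pi (by linarith) (by linarith)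
  rw [Real.sin_sub] at h3
  rw [neg_lt_neg_iff, div_lt_div_iff₀ h2 h1]
  linarith

lemma HH_continuousOn (a : ℝ) : ContinuousOn (HH a) {z | Complex.exp (a * I) - z ≠ 0} := by
  unfold HH
  refine continuousOn_const.mul (ContinuousOn.div ?_ ?_ (fun z hz => hz))
  · exact (continuous_const.add continuous_id).continuousOn
  · exact (continuous_const.sub continuous_id).continuousOn

lemma HH_inj (a : ℝ) {z w : ℂ} (hz : Complex.exp (a * I) - z ≠ 0) (hw : Complex.exp (a * I) - w ≠ 0)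
    (h : HH a z = HH a w) : z = w := by
  unfold HH at h
  have h1 := mul_left_cancel₀ Complex.I_ne_zero h
  rw [div_eq_div_iff hz hw] at h1
  have h2 : 2 * Complex.exp (a * I) * (z - w) = 0 := by linear_combination h1
  rcases mul_eq_zero.mp h2 with h3 | h3
  · exact absurd h3 (mul_ne_zero two_ne_zero (Complex.exp_ne_zero _))
  · exact sub_eq_zero.mp h3

variable {p : ℕ}

/-- angles of different arcs are ordered -/
lemma angle_lt (hp : 3 ≤ p) {b : Bool} {e f : Fin p} (hef : e < f) {θ φ : ℝ}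
    (h1 : if b then 2 * (e:ℕ) * al p < θ ∧ θ ≤ 2 * ((e:ℕ) + 1) * al p
      else 2 * (e:ℕ) * al p ≤ θ ∧ θ < 2 * ((e:ℕ) + 1) * al p)
    (h2 : if b then 2 * (f:ℕ) * al p < φ ∧ φ ≤ 2 * ((f:ℕ) + 1) * al p
      else 2 * (f:ℕ) * al p ≤ φ ∧ φ < 2 * ((f:ℕ) + 1) * al p) : θ < φ := by
  have h3 : ((e:ℕ):ℝ) + 1 ≤ (f:ℕ) := by exact_mod_cast hef
  have ha := al_pos hp
  have h4 : 2 * (((e:ℕ):ℝ) + 1) * al p ≤ 2 * ((f:ℕ):ℝ) * al p := by nlinarith
  cases b
  · simp only [Bool.false_eq_true, if_false] at h1 h2; linarith [h1.2, h2.1]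
  · simp only [if_true] at h1 h2; linarith [h1.2, h2.1]

/-- two tripods in the disc with the same median cell meet -/
theorem cross_disc (hp : 3 ≤ p) (b : Bool) (y y' : Dk) (w w' : Fin 3 → ℝ → Dk)
    (hw : ∀ i, ContinuousOn (w i) (Icc 0 1)) (hw' : ∀ i, ContinuousOn (w' i) (Icc 0 1))
    (h0 : ∀ i, w i 0 = y) (h0' : ∀ i, w' i 0 = y')
    (hin : ∀ i, ∀ t ∈ Ico (0:ℝ) 1, ‖(w i t).1‖ < 1) (hin' : ∀ i, ∀ t ∈ Ico (0:ℝ) 1, ‖(w' i t).1‖ < 1)
    (e e' : Fin 3 → Fin p) (he : ∀ i, Arc p b (e i) (w i 1).1) (he' : ∀ i, Arc p b (e' i) (w' i 1).1)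
    (hord : ∀ i j, i < j → e i < e j ∧ e i < e' j ∧ e' i < e j ∧ e' i < e' j) :
    ∃ i j, i ≠ j ∧ ∃ s ∈ Icc (0:ℝ) 1, ∃ t ∈ Icc (0:ℝ) 1, w i s = w' j t := by
  choose θ hθ1 hθ2 hθ3 using fun i => (he i).angle hp
  choose φ hφ1 hφ2 hφ3 using fun i => (he' i).angle hp
  have hpi := Real.pi_pos
  -- the cut
  obtain ⟨a, ha⟩ : ∃ a : ℝ, (∀ i, a < θ i ∧ θ i < a + 2 * π) ∧ (∀ i, a < φ i ∧ φ i < a + 2 * π) := by
    cases b
    · simp only [Bool.false_eq_true, if_false] at hθ3 hφ3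
      obtain ⟨M, hM1, hM2⟩ : ∃ M : ℝ, M < 2 * π ∧ (∀ i, θ i ≤ M) ∧ (∀ i, φ i ≤ M) := by
        refine ⟨max (max (θ 0) (max (θ 1) (θ 2))) (max (φ 0) (max (φ 1) (φ 2))), ?_, ?_, ?_⟩
        · simp only [max_lt_iff]
          exact ⟨⟨(hθ3 0).2, (hθ3 1).2, (hθ3 2).2⟩, (hφ3 0).2, (hφ3 1).2, (hφ3 2).2⟩
        · intro i; fin_cases i <;> simp
        · intro i; fin_cases i <;> simp
      refine ⟨(M - 2 * π) / 2, fun i => ⟨?_, ?_⟩, fun i => ⟨?_, ?_⟩⟩
      · linarith [(hθ3 i).1]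
      · linarith [hM2.1 i]
      · linarith [(hφ3 i).1]
      · linarith [hM2.2 i]
    · simp only [if_true] at hθ3 hφ3
      obtain ⟨M, hM1, hM2⟩ : ∃ M : ℝ, 0 < M ∧ (∀ i, M ≤ θ i) ∧ (∀ i, M ≤ φ i) := by
        refine ⟨min (min (θ 0) (min (θ 1) (θ 2))) (min (φ 0) (min (φ 1) (φ 2))), ?_, ?_, ?_⟩
        · simp only [lt_min_iff]
          exact ⟨⟨(hθ3 0).1, (hθ3 1).1, (hθ3 2).1⟩, (hφ3 0).1, (hφ3 1).1, (hφ3 2).1⟩
        · intro i; fin_cases i <;> simp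
        · intro i; fin_cases i <;> simp
      refine ⟨M / 2, fun i => ⟨?_, ?_⟩, fun i => ⟨?_, ?_⟩⟩
      · linarith [hM2.1 i]
      · linarith [(hθ3 i).2]
      · linarith [hM2.2 i]
      · linarith [(hφ3 i).2]
  obtain ⟨haθ, haφ⟩ := ha
  have hcirc : ∀ ψ : ℝ, a < ψ → ψ < a + 2 * π → Complex.exp (a * I) - Complex.exp (ψ * I) ≠ 0 := by
    intro ψ h1 h2 h3
    have := exp_inj_of_lt (sub_eq_zero.mp h3) (by linarith) (by linarith)
    linarith
  have hinside : ∀ z : ℂ, ‖z‖ < 1 → Complex.exp (a * I) - z ≠ 0 := by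
    intro z hz h3
    rw [← sub_eq_zero.mp h3, Complex.norm_exp_ofReal_mul_I] at hz
    exact lt_irrefl _ hz
  have hne : ∀ i, ∀ t ∈ Icc (0:ℝ) 1, Complex.exp (a * I) - (w i t).1 ≠ 0 := by
    intro i t ht
    rcases ht.2.lt_or_eq with h | h
    · exact hinside _ (hin i t ⟨ht.1, h⟩)
    · rw [h, hθ1 i]; exact hcirc _ (haθ i).1 (haθ i).2
  have hne' : ∀ i, ∀ t ∈ Icc (0:ℝ) 1, Complex.exp (a * I) - (w' i t).1 ≠ 0 := by
    intro i t ht
    rcases ht.2.lt_or_eq with h | h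
    · exact hinside _ (hin' i t ⟨ht.1, h⟩)
    · rw [h, hφ1 i]; exact hcirc _ (haφ i).1 (haφ i).2
  have him : ∀ z : ℂ, ‖z‖ < 1 → 0 < (HH a z).im := by
    intro z hz
    rw [HH_im a (hinside z hz)]
    have h1 : 0 < ‖Complex.exp (a * I) - z‖ := norm_pos_iff.mpr (hinside z hz)
    have h2 : 0 < 1 - ‖z‖ ^ 2 := by nlinarith [norm_nonneg z]
    positivity
  have hsin : ∀ ψ : ℝ, a < ψ → ψ < a + 2 * π → Real.sin ((ψ - a) / 2) ≠ 0 := by
    intro ψ h1 h2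
    exact (Real.sin_pos_of_pos_of_lt_pi (by linarith) (by linarith)).ne'
  have hre : ∀ ψ₁ ψ₂ : ℝ, a < ψ₁ → ψ₁ < a + 2 * π → a < ψ₂ → ψ₂ < a + 2 * π → ψ₁ < ψ₂ →
      (HH a (Complex.exp (ψ₁ * I))).re < (HH a (Complex.exp (ψ₂ * I))).re := by
    intro ψ₁ ψ₂ h1 h2 h3 h4 h5
    rw [HH_exp a ψ₁ (hsin _ h1 h2), HH_exp a ψ₂ (hsin _ h3 h4), Complex.ofReal_re, Complex.ofReal_re]
    exact cot_lt (by linarith) (by linarith) (by linarith)
  obtain ⟨i, j, hij, s, hs, t, ht, hst⟩ := Pool.Agent.H650R3.T571D.k33_halfplane (HH a y.1) (HH a y'.1)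
    (fun i t => HH a (w i t).1) (fun i t => HH a (w' i t).1)
    (fun i => (HH_continuousOn a).comp (continuous_subtype_val.comp_continuousOn (hw i)) (fun t ht => hne i t ht))
    (fun i => (HH_continuousOn a).comp (continuous_subtype_val.comp_continuousOn (hw' i)) (fun t ht => hne' i t ht))
    (fun i => by rw [h0 i]) (fun i => by rw [h0' i])
    (fun i t ht => him _ (hin i t ht)) (fun i t ht => him _ (hin' i t ht))
    (fun i => by rw [hθ1 i, HH_exp a _ (hsin _ (haθ i).1 (haθ i).2), Complex.ofReal_im])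
    (fun i => by rw [hφ1 i, HH_exp a _ (hsin _ (haφ i).1 (haφ i).2), Complex.ofReal_im])
    (fun i j hij => by
      obtain ⟨a1, a2, a3, a4⟩ := hord i j hij
      simp only [hθ1, hφ1]
      exact ⟨hre _ _ (haθ i).1 (haθ i).2 (haθ j).1 (haθ j).2 (angle_lt hp a1 (hθ2 i) (hθ2 j)),
        hre _ _ (haθ i).1 (haθ i).2 (haφ j).1 (haφ j).2 (angle_lt hp a2 (hθ2 i) (hφ2 j)),
        hre _ _ (haφ i).1 (haφ i).2 (haθ j).1 (haθ j).2 (angle_lt hp a3 (hφ2 i) (hθ2 j)),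
        hre _ _ (haφ i).1 (haφ i).2 (haφ j).1 (haφ j).2 (angle_lt hp a4 (hφ2 i) (hφ2 j))⟩)
  exact ⟨i, j, hij, s, hs, t, ht, Subtype.ext (HH_inj a (hne i s hs) (hne' j t ht) hst)⟩

end

end H571R3
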