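import Pool.Agent.H571R3.Geom
set_option autoImplicit false
set_option linter.unusedSectionVars false
set_option linter.unusedVariables false
namespace H571R3
open Complex Real

noncomputable section

/-- `Re (z * conj C_i)` -/
def bb (p : ℕ) (i : Fin p) (z : ℂ) : ℝ := (z * (starRingEnd ℂ) (C p (i:ℕ))).re

def MM (p : ℕ) [NeZero p] (z : ℂ) : ℝ := Finset.univ.sup' Finset.univ_nonempty (fun i => bb p i z)

def zet (p : ℕ) [NeZero p] (z : ℂ) : ℂ := ((min ‖z‖ ‖z‖⁻¹ / MM p z : ℝ) : ℂ) * z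

def kap (ζ : ℂ) : ℂ := ((1 / (1 + √(1 - ‖ζ‖ ^ 2)) : ℝ) : ℂ) * ζ

def Ps (p : ℕ) [NeZero p] (z : ℂ) : ℂ := kap (zet p z)

variable {p : ℕ}

lemma norm_sub_C_sq (i : Fin p) (z : ℂ) :
    ‖z - C p (i:ℕ)‖ ^ 2 = ‖z‖ ^ 2 + 1 + tau p ^ 2 - 2 * bb p i z := by
  have h := norm_C_sq (p := p) (i:ℕ)
  rw [← Complex.normSq_eq_norm_sq] at h ⊢
  rw [Complex.normSq_sub, h, ← Complex.normSq_eq_norm_sq]; unfold bb; ring

lemma bb_smul (i : Fin p) (t : ℝ) (z : ℂ) : bb p i ((t : ℂ) * z) = t * bb p i z := by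
  unfold bb; rw [mul_assoc, Complex.re_ofReal_mul]

lemma continuous_bb (i : Fin p) : Continuous (bb p i) :=
  Complex.continuous_re.comp (continuous_id.mul continuous_const)

variable [NeZero p]

lemma bb_le_MM (i : Fin p) (z : ℂ) : bb p i z ≤ MM p z :=
  Finset.le_sup' (fun i => bb p i z) (Finset.mem_univ i)

lemma continuous_MM : Continuous (MM p) := by
  unfold MM
  exact Continuous.finset_sup'_apply _ (fun i _ => continuous_bb i)

lemma MM_smul {t : ℝ} (ht : 0 ≤ t) (z : ℂ) : MM p ((t : ℂ) * z) = t * MM p z := by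
  unfold MM
  apply le_antisymm
  · apply Finset.sup'_le
    intro i _
    rw [bb_smul]
    exact mul_le_mul_of_nonneg_left (bb_le_MM i z) ht
  · obtain ⟨i, -, hi⟩ := Finset.exists_mem_eq_sup' Finset.univ_nonempty (fun i => bb p i z)
    rw [hi, ← bb_smul]
    exact Finset.le_sup' (fun i => bb p i ((t : ℂ) * z)) (Finset.mem_univ i)

lemma one_le_MM (hp : 3 ≤ p) {x : ℂ} (hx : ‖x‖ = 1) : 1 ≤ MM p x := by
  obtain ⟨i, hi⟩ := exists_Arc hp false hx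
  have h1 := hi.le hp
  have h2 := norm_sub_C_sq i x
  have h3 : ‖x - C p (i:ℕ)‖ ^ 2 ≤ tau p ^ 2 := pow_le_pow_left₀ (norm_nonneg _) h1 2
  rw [hx] at h2
  have := bb_le_MM i x
  linarith

lemma norm_le_MM (hp : 3 ≤ p) (z : ℂ) : ‖z‖ ≤ MM p z := by
  rcases eq_or_ne z 0 with rfl | hz
  · have := bb_le_MM (⟨0, by omega⟩ : Fin p) (0:ℂ)
    unfold bb at this; simpa using this
  · have hn : 0 < ‖z‖ := norm_pos_iff.mpr hz
    have h1 : ‖((‖z‖⁻¹ : ℝ) : ℂ) * z‖ = 1 := by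
      rw [norm_mul, Complex.norm_real, Real.norm_of_nonneg (by positivity)]; field_simp
    have h2 := one_le_MM hp h1
    rw [MM_smul (by positivity)] at h2
    have h3 : ‖z‖ * (‖z‖⁻¹ * MM p z) = MM p z := by field_simp
    nlinarith

lemma norm_zet (hp : 3 ≤ p) (z : ℂ) : ‖zet p z‖ = min ‖z‖ ‖z‖⁻¹ * (‖z‖ / MM p z) := by
  unfold zet
  rw [norm_mul, Complex.norm_real, Real.norm_of_nonneg]
  · ring
  · exact div_nonneg (le_min (norm_nonneg _) (inv_nonneg.mpr (norm_nonneg _)))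
      ((norm_nonneg z).trans (norm_le_MM hp z))

lemma div_MM_le (hp : 3 ≤ p) (z : ℂ) : ‖z‖ / MM p z ≤ 1 :=
  div_le_one_of_le₀ (norm_le_MM hp z) ((norm_nonneg z).trans (norm_le_MM hp z))

lemma div_MM_nonneg (hp : 3 ≤ p) (z : ℂ) : 0 ≤ ‖z‖ / MM p z :=
  div_nonneg (norm_nonneg _) ((norm_nonneg z).trans (norm_le_MM hp z))

lemma min_le_one (z : ℂ) : min ‖z‖ ‖z‖⁻¹ ≤ 1 := by
  rcases le_total ‖z‖ 1 with h | h
  · exact (min_le_left _ _).trans h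
  · exact (min_le_right _ _).trans (inv_le_one_of_one_le₀ h)

lemma min_nonneg' (z : ℂ) : 0 ≤ min ‖z‖ ‖z‖⁻¹ :=
  le_min (norm_nonneg _) (inv_nonneg.mpr (norm_nonneg _))

lemma norm_zet_le_min (hp : 3 ≤ p) (z : ℂ) : ‖zet p z‖ ≤ min ‖z‖ ‖z‖⁻¹ := by
  rw [norm_zet hp]
  exact mul_le_of_le_one_right (min_nonneg' z) (div_MM_le hp z)

lemma norm_zet_le (hp : 3 ≤ p) (z : ℂ) : ‖zet p z‖ ≤ 1 :=
  (norm_zet_le_min hp z).trans (min_le_one z)

lemma MM_pos (hp : 3 ≤ p) {z : ℂ} (hz : z ≠ 0) : 0 < MM p z :=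
  (norm_pos_iff.mpr hz).trans_le (norm_le_MM hp z)

lemma bb_zet_le (hp : 3 ≤ p) (i : Fin p) (z : ℂ) : bb p i (zet p z) ≤ 1 := by
  rcases eq_or_ne z 0 with rfl | hz
  · unfold zet bb; simp
  · unfold zet
    rw [bb_smul]
    have hM := MM_pos hp hz
    have h1 : bb p i z / MM p z ≤ 1 := (div_le_one hM).mpr (bb_le_MM i z)
    have h2 := min_le_one z
    have h3 := min_nonneg' z
    calc min ‖z‖ ‖z‖⁻¹ / MM p z * bb p i z = min ‖z‖ ‖z‖⁻¹ * (bb p i z / MM p z) := by ring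
      _ ≤ min ‖z‖ ‖z‖⁻¹ * 1 := mul_le_mul_of_nonneg_left h1 h3
      _ ≤ 1 := by linarith

lemma continuous_zet (hp : 3 ≤ p) : Continuous (zet p) := by
  rw [continuous_iff_continuousAt]
  intro z
  rcases eq_or_ne z 0 with rfl | hz
  · have h0 : zet p 0 = 0 := by unfold zet; simp
    rw [ContinuousAt, h0]
    apply squeeze_zero_norm (a := fun z : ℂ => ‖z‖)
    · intro z; exact (norm_zet_le_min hp z).trans (min_le_left _ _)
    · have : Filter.Tendsto (fun z : ℂ => ‖z‖) (nhds 0) (nhds ‖(0:ℂ)‖) := continuous_norm.tendsto 0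
      simpa using this
  · unfold zet
    refine ContinuousAt.mul ?_ continuousAt_id
    refine Complex.continuous_ofReal.continuousAt.comp ?_
    refine ContinuousAt.div ?_ continuous_MM.continuousAt (MM_pos hp hz).ne'
    exact continuous_norm.continuousAt.min (continuous_norm.continuousAt.inv₀ (norm_ne_zero_iff.mpr hz))

section kappa
variable {ζ : ℂ}

lemma kap_aux (hζ : ‖ζ‖ ≤ 1) : √(1 - ‖ζ‖ ^ 2) ^ 2 = 1 - ‖ζ‖ ^ 2 :=
  Real.sq_sqrt (by nlinarith [norm_nonneg ζ])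

lemma norm_kap_sq (hζ : ‖ζ‖ ≤ 1) :
    ‖kap ζ‖ ^ 2 * (1 + √(1 - ‖ζ‖ ^ 2)) = 1 - √(1 - ‖ζ‖ ^ 2) := by
  have h1 := kap_aux hζ
  have h2 := Real.sqrt_nonneg (1 - ‖ζ‖ ^ 2)
  set s := √(1 - ‖ζ‖ ^ 2) with hs
  unfold kap
  rw [norm_mul, Complex.norm_real, ← hs, Real.norm_of_nonneg (by positivity), mul_pow]
  have h3 : ‖ζ‖ ^ 2 = (1 - s) * (1 + s) := by nlinarith
  rw [h3]
  field_simp

lemma norm_kap_le (hζ : ‖ζ‖ ≤ 1) : ‖kap ζ‖ ≤ 1 := by
  have h1 := norm_kap_sq hζ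
  have h2 := Real.sqrt_nonneg (1 - ‖ζ‖ ^ 2)
  nlinarith [norm_nonneg (kap ζ), sq_nonneg ‖kap ζ‖]

/-- `(1+‖w‖²) ζ = 2 w` -/
lemma kap_inv (hζ : ‖ζ‖ ≤ 1) : ((1 + ‖kap ζ‖ ^ 2 : ℝ) : ℂ) * ζ = 2 * kap ζ := by
  have h1 := norm_kap_sq hζ
  have h2 := Real.sqrt_nonneg (1 - ‖ζ‖ ^ 2)
  set s := √(1 - ‖ζ‖ ^ 2) with hs
  have h3 : 1 + ‖kap ζ‖ ^ 2 = 2 * (1 / (1 + s)) := by
    field_simp
    nlinarith
  rw [h3]
  unfold kap
  rw [← hs]; push_cast; ring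

lemma kap_one_sub (hζ : ‖ζ‖ ≤ 1) : 1 - ‖kap ζ‖ ^ 2 = (1 + ‖kap ζ‖ ^ 2) * √(1 - ‖ζ‖ ^ 2) := by
  have h1 := norm_kap_sq hζ
  linarith

lemma kap_bb (hζ : ‖ζ‖ ≤ 1) (i : Fin p) :
    ‖kap ζ - C p (i:ℕ)‖ ^ 2 - tau p ^ 2 = (1 + ‖kap ζ‖ ^ 2) * (1 - bb p i ζ) := by
  rw [norm_sub_C_sq]
  have h := congrArg (bb p i) (kap_inv hζ)
  rw [bb_smul] at h
  have h2 : bb p i (2 * kap ζ) = 2 * bb p i (kap ζ) := by
    have := bb_smul i 2 (kap ζ); push_cast at this; exact this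
  rw [h2] at h
  linarith

lemma kap_inj {ζ' : ℂ} (hζ : ‖ζ‖ ≤ 1) (hζ' : ‖ζ'‖ ≤ 1) (h : kap ζ = kap ζ') : ζ = ζ' := by
  have h1 := kap_inv hζ
  have h2 := kap_inv hζ'
  rw [← h] at h2
  have h3 : (((1 + ‖kap ζ‖ ^ 2 : ℝ)) : ℂ) ≠ 0 := by
    have : (0:ℝ) < 1 + ‖kap ζ‖ ^ 2 := by positivity
    exact_mod_cast this.ne'
  exact mul_left_cancel₀ h3 (h1.trans h2.symm)

lemma norm_kap_lt_iff (hζ : ‖ζ‖ ≤ 1) : ‖kap ζ‖ < 1 ↔ ‖ζ‖ < 1 := by
  have h1 := kap_one_sub hζ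
  have h2 := Real.sqrt_nonneg (1 - ‖ζ‖ ^ 2)
  have h3 := kap_aux hζ
  constructor
  · intro h
    by_contra hn
    have : ‖ζ‖ = 1 := le_antisymm hζ (not_lt.mp hn)
    rw [this] at h1
    norm_num at h1
    nlinarith [norm_nonneg (kap ζ)]
  · intro h
    have h4 : 0 < √(1 - ‖ζ‖ ^ 2) := Real.sqrt_pos.mpr (by nlinarith [norm_nonneg ζ])
    have h5 : 0 < 1 - ‖kap ζ‖ ^ 2 := by rw [h1]; positivity
    nlinarith [norm_nonneg (kap ζ)]

lemma continuous_kap : Continuous kap := by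
  unfold kap
  refine Continuous.mul ?_ continuous_id
  refine Complex.continuous_ofReal.comp ?_
  refine continuous_const.div ?_ ?_
  · exact continuous_const.add (Real.continuous_sqrt.comp (continuous_const.sub (continuous_norm.pow 2)))
  · intro z
    have := Real.sqrt_nonneg (1 - ‖z‖ ^ 2)
    positivity

end kappa

lemma continuous_Ps (hp : 3 ≤ p) : Continuous (Ps p) := continuous_kap.comp (continuous_zet hp)

lemma norm_Ps_le (hp : 3 ≤ p) (z : ℂ) : ‖Ps p z‖ ≤ 1 := norm_kap_le (norm_zet_le hp z)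

/-- the fold map takes values in the ideal polygon -/
lemma Ps_out (hp : 3 ≤ p) (i : Fin p) (z : ℂ) : tau p ≤ ‖Ps p z - C p (i:ℕ)‖ := by
  have h1 := kap_bb (p := p) (norm_zet_le hp z) i
  have h2 := bb_zet_le hp i z
  have h3 : 0 ≤ (1 + ‖kap (zet p z)‖ ^ 2) * (1 - bb p i (zet p z)) :=
    mul_nonneg (by positivity) (by linarith)
  have h4 : tau p ^ 2 ≤ ‖Ps p z - C p (i:ℕ)‖ ^ 2 := by unfold Ps; linarith
  exact le_of_sq_le_sq h4 (norm_nonneg _)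

/-- the fold map hits a side only on the unit circle -/
lemma Ps_on (hp : 3 ≤ p) {i : Fin p} {z : ℂ} (h : ‖Ps p z - C p (i:ℕ)‖ = tau p) :
    ‖z‖ = 1 ∧ bb p i z = MM p z := by
  have h1 := kap_bb (p := p) (norm_zet_le hp z) i
  unfold Ps at h
  rw [h, sub_self] at h1
  have h2 : bb p i (zet p z) = 1 := by
    rcases mul_eq_zero.mp h1.symm with h | h
    · exact absurd h (by positivity)
    · linarith
  rcases eq_or_ne z 0 with rfl | hz
  · unfold zet bb at h2; simp at h2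
  unfold zet at h2
  rw [bb_smul] at h2
  have hM := MM_pos hp hz
  have h3 : bb p i z / MM p z ≤ 1 := (div_le_one hM).mpr (bb_le_MM i z)
  have h4 := min_le_one z
  have h5 := min_nonneg' z
  have h6 : min ‖z‖ ‖z‖⁻¹ * (bb p i z / MM p z) = 1 := by rw [← h2]; ring
  have h7 : min ‖z‖ ‖z‖⁻¹ = 1 := by
    by_contra hne
    have : min ‖z‖ ‖z‖⁻¹ < 1 := lt_of_le_of_ne h4 hne
    nlinarith
  rw [h7, one_mul] at h6
  refine ⟨?_, by rwa [div_eq_one_iff_eq hM.ne'] at h6⟩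
  have hn : 0 < ‖z‖ := norm_pos_iff.mpr hz
  have h8 : 1 ≤ ‖z‖ := h7 ▸ min_le_left _ _
  have h9 : 1 ≤ ‖z‖⁻¹ := h7 ▸ min_le_right _ _
  exact le_antisymm ((one_le_inv₀ hn).mp h9) h8

lemma zet_circle {z : ℂ} (hz : ‖z‖ = 1) : zet p z = ((1 / MM p z : ℝ) : ℂ) * z := by
  unfold zet; rw [hz]; simp

lemma Ps_on' (hp : 3 ≤ p) {i : Fin p} {z : ℂ} (hz : ‖z‖ = 1) (h : bb p i z = MM p z) :
    ‖Ps p z - C p (i:ℕ)‖ = tau p := by
  have h1 := kap_bb (p := p) (norm_zet_le hp z) i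
  have hM : 0 < MM p z := lt_of_lt_of_le one_pos (one_le_MM hp hz)
  have hb : bb p i (zet p z) = 1 := by rw [zet_circle hz, bb_smul, h, one_div, inv_mul_cancel₀ hM.ne']
  rw [hb, sub_self, mul_zero] at h1
  have h2 : ‖Ps p z - C p (i:ℕ)‖ ^ 2 = tau p ^ 2 := by unfold Ps; linarith
  exact (pow_left_inj₀ (norm_nonneg _) (tau_pos hp).le two_ne_zero).mp h2

lemma Ps_inj (hp : 3 ≤ p) {z z' : ℂ} (h : Ps p z = Ps p z')
    (hd : (‖z‖ ≤ 1 ∧ ‖z'‖ ≤ 1) ∨ (1 ≤ ‖z‖ ∧ 1 ≤ ‖z'‖)) : z = z' := by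
  have h1 : zet p z = zet p z' := kap_inj (norm_zet_le hp z) (norm_zet_le hp z') h
  have hz0 : ∀ z : ℂ, zet p z = 0 → z = 0 := by
    intro z h
    by_contra hz
    have h2 := norm_zet hp z
    rw [h, norm_zero] at h2
    have hn : 0 < ‖z‖ := norm_pos_iff.mpr hz
    have : 0 < min ‖z‖ ‖z‖⁻¹ * (‖z‖ / MM p z) := by
      have := MM_pos hp hz
      have : 0 < min ‖z‖ ‖z‖⁻¹ := lt_min hn (by positivity)
      positivity
    linarith
  rcases eq_or_ne z 0 with rfl | hz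
  · have : zet p z' = 0 := by rw [← h1]; unfold zet; simp
    exact (hz0 z' this).symm
  have hz' : z' ≠ 0 := by
    rintro rfl
    exact hz (hz0 z (by rw [h1]; unfold zet; simp))
  have hn : 0 < ‖z‖ := norm_pos_iff.mpr hz
  have hn' : 0 < ‖z'‖ := norm_pos_iff.mpr hz'
  -- z' is a positive multiple of z
  obtain ⟨t, ht, hzt⟩ : ∃ t : ℝ, 0 < t ∧ z' = (t : ℂ) * z := by
    have a : 0 < min ‖z‖ ‖z‖⁻¹ / MM p z := div_pos (lt_min hn (by positivity)) (MM_pos hp hz)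
    have b : 0 < min ‖z'‖ ‖z'‖⁻¹ / MM p z' := div_pos (lt_min hn' (by positivity)) (MM_pos hp hz')
    unfold zet at h1
    refine ⟨(min ‖z‖ ‖z‖⁻¹ / MM p z) / (min ‖z'‖ ‖z'‖⁻¹ / MM p z'), by positivity, ?_⟩
    have b' : (((min ‖z'‖ ‖z'‖⁻¹ / MM p z' : ℝ)) : ℂ) ≠ 0 := by exact_mod_cast b.ne'
    apply mul_left_cancel₀ b'
    rw [← h1, Complex.ofReal_div (min ‖z‖ ‖z‖⁻¹ / MM p z), ← mul_assoc, mul_div_cancel₀ _ b']
  have hnt : ‖z'‖ = t * ‖z‖ := by rw [hzt, norm_mul, Complex.norm_real, Real.norm_of_nonneg ht.le]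
  have h2 := congrArg norm h1
  rw [norm_zet hp, norm_zet hp] at h2
  have h3 : ‖z'‖ / MM p z' = ‖z‖ / MM p z := by
    rw [hnt, hzt, MM_smul ht.le, mul_div_mul_left _ _ ht.ne']
  rw [h3] at h2
  have h4 : min ‖z‖ ‖z‖⁻¹ = min ‖z'‖ ‖z'‖⁻¹ :=
    mul_right_cancel₀ (div_pos hn (MM_pos hp hz)).ne' h2
  have h5 : ‖z‖ = ‖z'‖ := by
    rcases hd with ⟨a, b⟩ | ⟨a, b⟩
    · rwa [min_eq_left (a.trans ((one_le_inv₀ hn).mpr a)), min_eq_left (b.trans ((one_le_inv₀ hn').mpr b))] at h4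
    · rw [min_eq_right ((inv_le_one_of_one_le₀ a).trans a), min_eq_right ((inv_le_one_of_one_le₀ b).trans b)] at h4
      exact inv_injective h4
  have h6 : t = 1 := by
    rw [← h5] at hnt
    have : 1 * ‖z‖ = t * ‖z‖ := by rw [one_mul]; exact hnt
    exact (mul_right_cancel₀ hn.ne' this).symm
  rw [hzt, h6]; simp

lemma zet_V (hp : 3 ≤ p) (k : Fin p) : zet p (V p (k:ℕ)) = V p (k:ℕ) := by
  have hV := norm_V (p := p) (k:ℕ)
  rw [zet_circle hV]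
  have h1 : MM p (V p (k:ℕ)) = 1 := by
    apply le_antisymm
    · unfold MM
      apply Finset.sup'_le
      intro j _
      have h2 := norm_sub_C_sq j (V p (k:ℕ))
      rw [hV] at h2
      have h3 : tau p ≤ ‖V p (k:ℕ) - C p (j:ℕ)‖ := by
        rcases eq_or_ne k j with rfl | hne
        · rw [V_sub_C, abs_of_pos (tau_pos hp)]
        · exact out_of_le hp hne (by rw [V_sub_C, abs_of_pos (tau_pos hp)])
      have h4 : tau p ^ 2 ≤ ‖V p (k:ℕ) - C p (j:ℕ)‖ ^ 2 := pow_le_pow_left₀ (tau_pos hp).le h3 2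
      linarith
    · exact one_le_MM hp hV
  rw [h1]; simp

lemma Ps_V (hp : 3 ≤ p) (k : Fin p) : Ps p (V p (k:ℕ)) = V p (k:ℕ) := by
  unfold Ps; rw [zet_V hp]; unfold kap; rw [norm_V]; simp

lemma hub_of_MM (hp : 3 ≤ p) {z : ℂ} (hz : ‖z‖ = 1) (h : MM p z ≤ 1) : ∃ k : Fin p, z = V p (k:ℕ) := by
  obtain ⟨i, θ, h1, h2⟩ := exists_Arc hp false hz
  simp only [Bool.false_eq_true, if_false] at h2
  refine ⟨i, ?_⟩
  rcases h2.1.eq_or_lt with h3 | h3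
  · rw [h1, ← h3, V_eq_exp]
  · exfalso
    have h4 := open_of_angle hp i h3 h2.2
    rw [← h1] at h4
    have h5 := norm_sub_C_sq i z
    rw [hz] at h5
    have h6 : ‖z - C p (i:ℕ)‖ ^ 2 < tau p ^ 2 := pow_lt_pow_left₀ h4 (norm_nonneg _) two_ne_zero
    have := bb_le_MM i z
    linarith

/-- the fold map reaches the circle only at hubs -/
lemma norm_Ps_lt (hp : 3 ≤ p) {z : ℂ} (h : ∀ k : Fin p, z ≠ V p (k:ℕ)) : ‖Ps p z‖ < 1 := by
  unfold Ps
  rw [norm_kap_lt_iff (norm_zet_le hp z)]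
  by_contra hn
  have h1 : ‖zet p z‖ = 1 := le_antisymm (norm_zet_le hp z) (not_lt.mp hn)
  rw [norm_zet hp] at h1
  have h2 := div_MM_le hp z
  have h3 := div_MM_nonneg hp z
  have h4 := min_le_one z
  have h5 := min_nonneg' z
  have h6 : min ‖z‖ ‖z‖⁻¹ = 1 := by
    by_contra hne
    have : min ‖z‖ ‖z‖⁻¹ < 1 := lt_of_le_of_ne h4 hne
    nlinarith
  rw [h6, one_mul] at h1
  have hz : z ≠ 0 := by rintro rfl; simp at h1
  have hnz : 0 < ‖z‖ := norm_pos_iff.mpr hz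
  have h8 : 1 ≤ ‖z‖ := h6 ▸ min_le_left _ _
  have h9 : 1 ≤ ‖z‖⁻¹ := h6 ▸ min_le_right _ _
  have h10 : ‖z‖ = 1 := le_antisymm ((one_le_inv₀ hnz).mp h9) h8
  rw [div_eq_one_iff_eq (MM_pos hp hz).ne', h10] at h1
  obtain ⟨k, hk⟩ := hub_of_MM hp h10 h1.ge
  exact h k hk

/-- open sets on which only the side number `i` is crossed -/
def OO (p : ℕ) (i : Fin p) : Set ℂ := {z | ‖z‖ ≠ 1} ∪ ⋂ j : {j : Fin p // j ≠ i}, {z | bb p j z < bb p i z}

lemma isOpen_OO (i : Fin p) : IsOpen (OO p i) := by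
  unfold OO
  refine IsOpen.union (isOpen_ne_fun continuous_norm continuous_const) ?_
  exact isOpen_iInter_of_finite (fun j => isOpen_lt (continuous_bb _) (continuous_bb _))

lemma r_Ps_of_OO (hp : 3 ≤ p) {i : Fin p} {z : ℂ} (hz : z ∈ OO p i) (h1 : ‖z‖ = 1) :
    r p (i:ℕ) (Ps p z) = Ps p z := by
  apply r_fix hp
  apply Ps_on' hp h1
  rcases hz with hz | hz
  · exact absurd h1 hz
  · apply le_antisymm (bb_le_MM i z)
    unfold MM
    apply Finset.sup'_le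
    intro j _
    rcases eq_or_ne j i with rfl | hne
    · exact le_rfl
    · exact (Set.mem_iInter.mp hz ⟨j, hne⟩ : bb p j z < bb p i z).le

lemma mem_OO_of_in (hp : 3 ≤ p) {i : Fin p} {z : ℂ} (h1 : ‖z‖ = 1) (h : ‖z - C p (i:ℕ)‖ < tau p) :
    z ∈ OO p i := by
  right
  rw [Set.mem_iInter]
  rintro ⟨j, hj⟩
  have h2 := out_of_in hp (Ne.symm hj) h
  have h3 := norm_sub_C_sq i z
  have h4 := norm_sub_C_sq j z
  have h5 : ‖z - C p (i:ℕ)‖ ^ 2 < tau p ^ 2 := pow_lt_pow_left₀ h (norm_nonneg _) two_ne_zero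
  have h6 : tau p ^ 2 < ‖z - C p (j:ℕ)‖ ^ 2 := pow_lt_pow_left₀ h2 (tau_pos hp).le two_ne_zero
  show bb p j z < bb p i z
  linarith

lemma in_of_not_hub (hp : 3 ≤ p) {z : ℂ} (h1 : ‖z‖ = 1) (h : ∀ k : Fin p, z ≠ V p (k:ℕ)) :
    ∃ i : Fin p, ‖z - C p (i:ℕ)‖ < tau p := by
  obtain ⟨i, θ, e1, e2⟩ := exists_Arc hp false h1
  simp only [Bool.false_eq_true, if_false] at e2
  refine ⟨i, ?_⟩
  rw [e1]
  apply open_of_angle hp i _ e2.2
  apply lt_of_le_of_ne e2.1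
  intro h3
  apply h i
  rw [e1, ← h3, V_eq_exp]

lemma exists_OO (hp : 3 ≤ p) {z : ℂ} (h : ∀ k : Fin p, z ≠ V p (k:ℕ)) : ∃ i, z ∈ OO p i := by
  by_cases h1 : ‖z‖ = 1
  · obtain ⟨i, hi⟩ := in_of_not_hub hp h1 h
    exact ⟨i, mem_OO_of_in hp h1 hi⟩
  · exact ⟨0, Or.inl h1⟩

/-- the previous index -/
def prev (p : ℕ) [NeZero p] (k : Fin p) : Fin p := if h : (k:ℕ) = 0 then ⟨p - 1, Nat.sub_lt (Nat.pos_of_ne_zero (NeZero.ne p)) one_pos⟩ else ⟨k - 1, by omega⟩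

lemma V_prev (hp : 3 ≤ p) (k : Fin p) : V p ((prev p k : ℕ) + 1) = V p (k:ℕ) := by
  unfold prev
  split_ifs with h
  · simp only
    rw [show (((p - 1 : ℕ) : ℤ) + 1) = (0:ℤ) + p by push_cast [Nat.cast_sub (show 1 ≤ p by omega)]; ring, V_add_p hp, h]
    simp
  · simp only
    congr 1
    omega

lemma prev_ne (hp : 3 ≤ p) (k : Fin p) : prev p k ≠ k := by
  intro h
  have := congrArg Fin.val h
  unfold prev at this
  split_ifs at this with h0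
  · simp only at this; omega
  · simp only at this; omega

lemma C_prev (hp : 3 ≤ p) (k : Fin p) : C p (prev p k : ℕ) = V p (k:ℕ) * (1 - tau p * I) := by
  rw [C_eq' hp, V_prev hp]

lemma V_sub_C_prev (hp : 3 ≤ p) (k : Fin p) : ‖V p (k:ℕ) - C p (prev p k : ℕ)‖ = tau p := by
  rw [← V_prev hp, V_sub_C' hp, abs_of_pos (tau_pos hp)]

lemma Arc_V_prev (hp : 3 ≤ p) (k : Fin p) : Arc p true (prev p k) (V p (k:ℕ)) := by
  rw [← V_prev hp]; exact Arc_V' hp _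

/-- near a hub only two sides can be crossed -/
lemma near_hub (hp : 3 ≤ p) (k : Fin p) : ∃ ε > 0, ∀ z : ℂ, ‖z - V p (k:ℕ)‖ < ε → z ≠ V p (k:ℕ) →
    (z ∈ OO p k ∨ z ∈ OO p (prev p k)) ∧ ∀ j : Fin p, z ≠ V p (j:ℕ) := by
  -- strict inequality for the other indices
  have hs : ∀ j : Fin p, j ≠ k → j ≠ prev p k → tau p < ‖V p (k:ℕ) - C p (j:ℕ)‖ := by
    intro j h1 h2
    by_contra hn
    obtain ⟨θ, e1, e2, e3⟩ := angle_of_closed hp j (norm_V _) (not_lt.mp hn)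
    rcases e3.lt_or_eq with h3 | h3
    · apply h1
      exact Arc.unique hp (b := false) ⟨θ, e1, by simp only [Bool.false_eq_true, if_false]; exact ⟨e2, h3⟩⟩ (Arc_V hp k)
    · apply h2
      refine Arc.unique hp (b := true) ⟨θ, e1, ?_⟩ (Arc_V_prev hp k)
      simp only [if_true]
      exact ⟨by rw [h3]; nlinarith [al_pos hp], e3⟩
  have hev : ∀ᶠ z in nhds (V p (k:ℕ)), (∀ j : Fin p, j ≠ k → j ≠ prev p k → tau p < ‖z - C p (j:ℕ)‖) ∧
      (∀ j : Fin p, j ≠ k → z ≠ V p (j:ℕ)) := by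
    refine Filter.Eventually.and ?_ ?_
    · rw [Filter.eventually_all]
      intro j
      by_cases h1 : j = k
      · exact Filter.Eventually.of_forall (fun z h => absurd h1 h)
      by_cases h2 : j = prev p k
      · exact Filter.Eventually.of_forall (fun z _ h => absurd h2 h)
      · have hc : ContinuousAt (fun z : ℂ => ‖z - C p (j:ℕ)‖) (V p (k:ℕ)) := by fun_prop
        exact (hc.eventually (lt_mem_nhds (hs j h1 h2))).mono (fun z hz _ _ => hz)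
    · rw [Filter.eventually_all]
      intro j
      by_cases h1 : j = k
      · exact Filter.Eventually.of_forall (fun z h => absurd h1 h)
      · have hne : V p (k:ℕ) ≠ V p (j:ℕ) := by
          intro h
          exact h1 (Arc.unique hp (h ▸ Arc_V hp j) (Arc_V hp k))
        exact (isOpen_ne.mem_nhds hne : {z : ℂ | z ≠ V p (j:ℕ)} ∈ nhds (V p (k:ℕ))) |> fun h =>
          Filter.mem_of_superset h (fun z hz _ => hz)
  obtain ⟨ε, hε, hball⟩ := Metric.eventually_nhds_iff.mp hev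
  refine ⟨ε, hε, fun z hz hzk => ?_⟩
  obtain ⟨h1, h2⟩ := hball (by rwa [dist_eq_norm])
  have hh : ∀ j : Fin p, z ≠ V p (j:ℕ) := by
    intro j
    by_cases h : j = k
    · rw [h]; exact hzk
    · exact h2 j h
  refine ⟨?_, hh⟩
  by_cases hn : ‖z‖ = 1
  · obtain ⟨i, hi⟩ := in_of_not_hub hp hn hh
    by_cases hik : i = k
    · left; rw [← hik]; exact mem_OO_of_in hp hn hi
    · by_cases hip : i = prev p k
      · right; rw [← hip]; exact mem_OO_of_in hp hn hi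
      · exact absurd hi (not_lt.mpr (h1 i hik hip).le)
  · left; exact Or.inl hn

/-- horoball estimate near a hub -/
lemma near_horo (hp : 3 ≤ p) (k : Fin p) {δ : ℝ} (hδ : 0 < δ) :
    ∃ ε > 0, ∀ z : ℂ, ‖z - V p (k:ℕ)‖ < ε → ‖Ps p z - V p (k:ℕ)‖ ^ 2 ≤ δ * (1 - ‖Ps p z‖ ^ 2) := by
  set v := V p (k:ℕ) with hv
  have hv1 : ‖v‖ = 1 := norm_V _
  have hvv : v * (starRingEnd ℂ) v = 1 := by
    rw [Complex.mul_conj, Complex.normSq_eq_norm_sq, hv1]; norm_num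
  have ht := tau_pos hp
  -- a(z) = 1 - Re (ζ conj v)
  let a : ℂ → ℝ := fun z => 1 - (zet p z * (starRingEnd ℂ) v).re
  have ha0 : a v = 0 := by
    simp only [a]; rw [hv, zet_V hp, ← hv, hvv]; simp
  have hac : Continuous a := by
    simp only [a]
    exact continuous_const.sub (Complex.continuous_re.comp ((continuous_zet hp).mul continuous_const))
  have hη : 0 < min (δ ^ 2) (1 / (1 + 1 / tau p ^ 2)) := lt_min (by positivity) (by positivity)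
  have hev : ∀ᶠ z in nhds v, a z < min (δ ^ 2) (1 / (1 + 1 / tau p ^ 2)) := by
    have := hac.continuousAt (x := v)
    rw [ContinuousAt, ha0] at this
    exact this.eventually (gt_mem_nhds hη)
  obtain ⟨ε, hε, hball⟩ := Metric.eventually_nhds_iff.mp hev
  refine ⟨ε, hε, fun z hz => ?_⟩
  have h1 := hball (by rwa [dist_eq_norm] : dist z v < ε)
  have h1a : a z < δ ^ 2 := h1.trans_le (min_le_left _ _)
  have h1b : a z < 1 / (1 + 1 / tau p ^ 2) := h1.trans_le (min_le_right _ _)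
  set ζ := zet p z with hζ
  have hζ1 : ‖ζ‖ ≤ 1 := norm_zet_le hp z
  set w := kap ζ with hw
  have hPs : Ps p z = w := rfl
  -- coordinates
  set u := ζ * (starRingEnd ℂ) v with hu
  have hua : u.re = 1 - a z := by simp only [a]; ring
  have hb1 : bb p k ζ = u.re + tau p * u.im := by
    unfold bb C
    rw [← hv, map_mul, ← mul_assoc, ← hu]
    simp [Complex.mul_re]
    ring
  have hb2 : bb p (prev p k) ζ = u.re - tau p * u.im := by
    unfold bb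
    rw [C_prev hp, ← hv, map_mul, ← mul_assoc, ← hu]
    simp [Complex.mul_re]
    ring
  have hb1' := bb_zet_le hp k z
  have hb2' := bb_zet_le hp (prev p k) z
  rw [← hζ, hb1] at hb1'
  rw [← hζ, hb2] at hb2'
  have hnu : ‖ζ‖ ^ 2 = u.re ^ 2 + u.im ^ 2 := by
    have : ‖u‖ = ‖ζ‖ := by rw [hu, norm_mul, RCLike.norm_conj, hv1, mul_one]
    rw [← this, ← Complex.normSq_eq_norm_sq, Complex.normSq_apply]; ring
  have ha_nn : 0 ≤ a z := by
    have : u.re ≤ ‖u‖ := Complex.re_le_norm u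
    have h2 : ‖u‖ = ‖ζ‖ := by rw [hu, norm_mul, RCLike.norm_conj, hv1, mul_one]
    linarith
  have hlow : a z ≤ 1 - ‖ζ‖ ^ 2 := by
    rw [hnu, hua]
    have h2 : (tau p * u.im) ^ 2 ≤ (a z) ^ 2 := by
      apply sq_le_sq'
      · linarith
      · linarith
    have h3 : u.im ^ 2 ≤ a z ^ 2 / tau p ^ 2 := by
      rw [le_div_iff₀ (by positivity)]; nlinarith
    have h4 : a z * (1 + 1 / tau p ^ 2) < 1 := by
      rwa [lt_div_iff₀ (by positivity)] at h1b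
    have h5 : a z ^ 2 / tau p ^ 2 = a z * (a z * (1 / tau p ^ 2)) := by ring
    nlinarith
  have hs : a z ≤ δ * √(1 - ‖ζ‖ ^ 2) := by
    have h2 : √(a z) ≤ √(1 - ‖ζ‖ ^ 2) := Real.sqrt_le_sqrt hlow
    have h3 : √(a z) ≤ δ := by
      rw [Real.sqrt_le_left hδ.le]; exact h1a.le
    calc a z = √(a z) * √(a z) := (Real.mul_self_sqrt ha_nn).symm
      _ ≤ δ * √(1 - ‖ζ‖ ^ 2) := mul_le_mul h3 h2 (Real.sqrt_nonneg _) hδ.le
  rw [hPs, kap_one_sub hζ1]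
  have h6 : ‖w - v‖ ^ 2 = (1 + ‖w‖ ^ 2) * a z := by
    have e1 : ‖w - v‖ ^ 2 = ‖w‖ ^ 2 + 1 - 2 * (w * (starRingEnd ℂ) v).re := by
      rw [← Complex.normSq_eq_norm_sq, Complex.normSq_sub, Complex.normSq_eq_norm_sq, Complex.normSq_eq_norm_sq, hv1]
      ring
    have e2 := kap_inv hζ1
    have e3 : (1 + ‖w‖ ^ 2) * u.re = 2 * (w * (starRingEnd ℂ) v).re := by
      have e4 : (((1 + ‖w‖ ^ 2 : ℝ) : ℂ) * ζ * (starRingEnd ℂ) v).re = (2 * w * (starRingEnd ℂ) v).re := by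
        rw [hw, e2]
      rw [mul_assoc, Complex.re_ofReal_mul, mul_assoc, show (2:ℂ) = ((2:ℝ):ℂ) by norm_num,
        Complex.re_ofReal_mul] at e4
      exact e4
    rw [e1, ← e3, hua]; ring
  rw [h6]
  have : 0 ≤ 1 + ‖w‖ ^ 2 := by positivity
  nlinarith

end

end H571R3
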