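import Mathlib
set_option autoImplicit false
namespace H571R3
open Complex Real

noncomputable section

variable (p : ℕ)

/-- half of the angle of an arc -/
def al : ℝ := π / p
/-- radius of the circles -/
def tau : ℝ := Real.tan (al p)
/-- the ideal vertex number `k` -/
def V (k : ℤ) : ℂ := Complex.exp ((2 * k * al p : ℝ) * I)
/-- centre of the circle carrying the side number `k` -/
def C (k : ℤ) : ℂ := V p k * (1 + tau p * I)
/-- inversion in the circle number `k` -/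
def r (k : ℤ) (z : ℂ) : ℂ := C p k + (tau p : ℂ) ^ 2 / (starRingEnd ℂ) (z - C p k)

variable {p}

lemma al_pos (hp : 3 ≤ p) : 0 < al p := by
  unfold al; have : (0:ℝ) < p := by positivity
  positivity

lemma al_lt (hp : 3 ≤ p) : al p < π / 2 := by
  unfold al
  have : (3:ℝ) ≤ p := by exact_mod_cast hp
  rw [div_lt_div_iff₀ (by linarith) (by norm_num)]
  nlinarith [Real.pi_pos]

lemma al_mul (hp : 3 ≤ p) : p * al p = π := by
  unfold al
  have : (0:ℝ) < p := by positivity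
  field_simp

lemma tau_pos (hp : 3 ≤ p) : 0 < tau p :=
  Real.tan_pos_of_pos_of_lt_pi_div_two (al_pos hp) (al_lt hp)

lemma cos_pos' (hp : 3 ≤ p) : 0 < Real.cos (al p) :=
  Real.cos_pos_of_mem_Ioo ⟨by linarith [al_pos hp, Real.pi_pos], al_lt hp⟩

lemma norm_V (k : ℤ) : ‖V p k‖ = 1 := by
  unfold V; rw [Complex.norm_exp_ofReal_mul_I]

/-- `C k = e^{i(2k+1)α}/cos α` -/
lemma C_eq (hp : 3 ≤ p) (k : ℤ) :
    C p k = Complex.exp (((2 * k + 1) * al p : ℝ) * I) / (Real.cos (al p) : ℂ) := by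
  have hc : (Real.cos (al p) : ℂ) ≠ 0 := by exact_mod_cast (cos_pos' hp).ne'
  unfold C V tau
  rw [show (((2 * k + 1) * al p : ℝ) : ℂ) * I = ((2 * k * al p : ℝ) : ℂ) * I + (al p : ℂ) * I by
    push_cast; ring, Complex.exp_add, Real.tan_eq_sin_div_cos]
  rw [show Complex.exp ((al p : ℂ) * I) = (Real.cos (al p) : ℂ) + (Real.sin (al p) : ℂ) * I by
    rw [Complex.exp_mul_I]; push_cast; ring]
  push_cast at hc ⊢
  field_simp

lemma C_eq' (hp : 3 ≤ p) (k : ℤ) : C p k = V p (k + 1) * (1 - tau p * I) := by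
  have hc : (Real.cos (al p) : ℂ) ≠ 0 := by exact_mod_cast (cos_pos' hp).ne'
  have h1 : Complex.exp ((al p : ℂ) * I) * ((Real.cos (al p) : ℂ) - (Real.sin (al p) : ℂ) * I) = 1 := by
    rw [show ((Real.cos (al p) : ℂ) - (Real.sin (al p) : ℂ) * I) = Complex.exp (-((al p : ℂ)) * I) by
      rw [Complex.exp_mul_I, Complex.cos_neg, Complex.sin_neg]; push_cast; ring, ← Complex.exp_add]
    simp
  rw [C_eq hp]
  unfold V tau
  rw [show (((2 * ((k + 1 : ℤ) : ℝ)) * al p : ℝ) : ℂ) * I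
      = (((2 * k + 1) * al p : ℝ) : ℂ) * I + (al p : ℂ) * I by push_cast; ring, Complex.exp_add,
    Real.tan_eq_sin_div_cos]
  rw [div_eq_iff hc]
  push_cast at h1 hc ⊢
  rw [show (Complex.exp ((2 * (k:ℂ) + 1) * (al p : ℂ) * I) * Complex.exp ((al p : ℂ) * I) *
    (1 - Complex.sin (al p) / Complex.cos (al p) * I) * Complex.cos (al p))
    = Complex.exp ((2 * (k:ℂ) + 1) * (al p : ℂ) * I) * (Complex.exp ((al p : ℂ) * I) *
     (Complex.cos (al p) - Complex.sin (al p) * I)) by field_simp, h1, mul_one]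

lemma normSq_one_add : ‖(1 + tau p * I : ℂ)‖ ^ 2 = 1 + tau p ^ 2 := by
  rw [← Complex.normSq_eq_norm_sq, Complex.normSq_apply]; simp; ring

lemma norm_C_sq (k : ℤ) : ‖C p k‖ ^ 2 = 1 + tau p ^ 2 := by
  unfold C; rw [norm_mul, norm_V, one_mul, normSq_one_add]

lemma V_sub_C (k : ℤ) : ‖V p k - C p k‖ = |tau p| := by
  unfold C
  rw [show V p k - V p k * (1 + tau p * I) = V p k * (-(tau p * I)) by ring, norm_mul, norm_V,
    norm_neg, norm_mul, Complex.norm_I, Complex.norm_real]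
  simp

lemma V_sub_C' (hp : 3 ≤ p) (k : ℤ) : ‖V p (k + 1) - C p k‖ = |tau p| := by
  rw [C_eq' hp]
  rw [show V p (k+1) - V p (k+1) * (1 - tau p * I) = V p (k+1) * (tau p * I) by ring, norm_mul, norm_V,
    norm_mul, Complex.norm_I, Complex.norm_real]
  simp

lemma conj_ne {z : ℂ} (h : z ≠ 0) : (starRingEnd ℂ) z ≠ 0 := (map_ne_zero _).mpr h

/-- a point of the closed disc is not a centre -/
lemma sub_C_ne (hp : 3 ≤ p) {z : ℂ} (hz : ‖z‖ ≤ 1) (k : ℤ) : z - C p k ≠ 0 := by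
  intro h
  have h1 := norm_C_sq (p := p) k
  rw [← sub_eq_zero.mp h] at h1
  nlinarith [tau_pos hp, norm_nonneg z]

lemma r_sub_C (k : ℤ) (z : ℂ) :
    r p k z - C p k = (tau p : ℂ) ^ 2 / (starRingEnd ℂ) (z - C p k) := by
  unfold r; ring

lemma norm_r_sub_C (k : ℤ) (z : ℂ) : ‖r p k z - C p k‖ = tau p ^ 2 / ‖z - C p k‖ := by
  rw [r_sub_C, norm_div, norm_pow, Complex.norm_real, RCLike.norm_conj]
  simp

lemma r_r (hp : 3 ≤ p) {z : ℂ} (hz : ‖z‖ ≤ 1) (k : ℤ) : r p k (r p k z) = z := by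
  have h := sub_C_ne hp hz k
  have ht : (tau p : ℂ) ≠ 0 := by exact_mod_cast (tau_pos hp).ne'
  conv_lhs => unfold r
  rw [show (C p k + (tau p : ℂ)^2 / (starRingEnd ℂ) (z - C p k) - C p k)
    = (tau p : ℂ)^2 / (starRingEnd ℂ) (z - C p k) by ring, map_div₀, map_pow, Complex.conj_ofReal,
    Complex.conj_conj]
  field_simp
  ring

/-- conformal factor on the norm -/
lemma one_sub_norm_r (hp : 3 ≤ p) {z : ℂ} (hz : ‖z‖ ≤ 1) (k : ℤ) :
    (1 - ‖r p k z‖ ^ 2) * ‖z - C p k‖ ^ 2 = tau p ^ 2 * (1 - ‖z‖ ^ 2) := by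
  have h := sub_C_ne hp hz k
  set w := z - C p k with hw
  have hwn : (0:ℝ) < normSq w := Complex.normSq_pos.mpr h
  have hC := norm_C_sq (p := p) k
  rw [← Complex.normSq_eq_norm_sq] at hC
  have hz' : z = C p k + w := by rw [hw]; ring
  have hr : r p k z = C p k + ((tau p ^ 2 / normSq w : ℝ) : ℂ) * w := by
    unfold r
    rw [← hw]
    have : (starRingEnd ℂ) w ≠ 0 := conj_ne h
    have h2 : w * (starRingEnd ℂ) w = (normSq w : ℂ) := Complex.mul_conj w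
    have h3 : (normSq w : ℂ) ≠ 0 := by exact_mod_cast hwn.ne'
    push_cast
    rw [add_right_inj, div_eq_iff this, div_mul_eq_mul_div, div_mul_eq_mul_div, eq_div_iff h3,
      mul_assoc, h2]
  simp only [← Complex.normSq_eq_norm_sq]
  rw [hr, hz', Complex.normSq_add, Complex.normSq_add, Complex.normSq_mul, Complex.normSq_ofReal,
    map_mul, Complex.conj_ofReal]
  have h4 : (C p k * (((tau p ^ 2 / normSq w : ℝ) : ℂ) * (starRingEnd ℂ) w)).re
      = (tau p ^ 2 / normSq w) * (C p k * (starRingEnd ℂ) w).re := by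
    rw [show C p k * (((tau p ^ 2 / normSq w : ℝ) : ℂ) * (starRingEnd ℂ) w)
      = ((tau p ^ 2 / normSq w : ℝ) : ℂ) * (C p k * (starRingEnd ℂ) w) by ring, Complex.re_ofReal_mul]
  rw [h4, hC]
  field_simp
  ring

lemma norm_r_le (hp : 3 ≤ p) {z : ℂ} (hz : ‖z‖ ≤ 1) (k : ℤ) : ‖r p k z‖ ≤ 1 := by
  have h := one_sub_norm_r hp hz k
  have h2 : 0 < ‖z - C p k‖ := norm_pos_iff.mpr (sub_C_ne hp hz k)
  have h3 : 0 ≤ tau p ^ 2 * (1 - ‖z‖ ^ 2) := by
    have : ‖z‖ ^ 2 ≤ 1 := by nlinarith [norm_nonneg z]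
    have := sq_nonneg (tau p); nlinarith
  rw [← h] at h3
  have h4 : 0 ≤ 1 - ‖r p k z‖ ^ 2 := nonneg_of_mul_nonneg_left h3 (by positivity)
  nlinarith [norm_nonneg (r p k z)]

lemma norm_r_lt (hp : 3 ≤ p) {z : ℂ} (hz : ‖z‖ < 1) (k : ℤ) : ‖r p k z‖ < 1 := by
  have h := one_sub_norm_r hp hz.le k
  have h2 : 0 < ‖z - C p k‖ := norm_pos_iff.mpr (sub_C_ne hp hz.le k)
  have h3 : 0 < tau p ^ 2 * (1 - ‖z‖ ^ 2) := by
    have : ‖z‖ ^ 2 < 1 := by nlinarith [norm_nonneg z]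
    have := pow_pos (tau_pos hp) 2; nlinarith
  rw [← h] at h3
  have h4 : 0 < 1 - ‖r p k z‖ ^ 2 := by
    by_contra hn
    push Not at hn
    have := mul_nonpos_of_nonpos_of_nonneg hn (by positivity : (0:ℝ) ≤ ‖z - C p k‖ ^ 2)
    linarith
  nlinarith [norm_nonneg (r p k z)]

lemma norm_r_eq (hp : 3 ≤ p) {z : ℂ} (hz : ‖z‖ = 1) (k : ℤ) : ‖r p k z‖ = 1 := by
  have h := one_sub_norm_r hp hz.le k
  have h2 : 0 < ‖z - C p k‖ := norm_pos_iff.mpr (sub_C_ne hp hz.le k)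
  rw [hz] at h
  have h4 : 1 - ‖r p k z‖ ^ 2 = 0 := by
    have : (1 - ‖r p k z‖ ^ 2) * ‖z - C p k‖ ^ 2 = 0 := by rw [h]; ring
    rcases mul_eq_zero.mp this with h | h
    · exact h
    · exact absurd h (by positivity)
  nlinarith [norm_nonneg (r p k z)]

lemma r_fix (hp : 3 ≤ p) {z : ℂ} (k : ℤ) (h : ‖z - C p k‖ = tau p) : r p k z = z := by
  have hne : z - C p k ≠ 0 := by
    intro h0; rw [h0, norm_zero] at h; exact (tau_pos hp).ne h
  have h1 : (starRingEnd ℂ) (z - C p k) ≠ 0 := conj_ne hne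
  have h2 : (z - C p k) * (starRingEnd ℂ) (z - C p k) = (tau p : ℂ) ^ 2 := by
    rw [Complex.mul_conj, Complex.normSq_eq_norm_sq, h]; push_cast; ring
  unfold r
  rw [← h2, mul_div_assoc, div_self h1]; ring

lemma r_V (hp : 3 ≤ p) (k : ℤ) : r p k (V p k) = V p k :=
  r_fix hp k (by rw [V_sub_C, abs_of_pos (tau_pos hp)])

lemma r_V' (hp : 3 ≤ p) (k : ℤ) : r p k (V p (k + 1)) = V p (k + 1) :=
  r_fix hp k (by rw [V_sub_C' hp, abs_of_pos (tau_pos hp)])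

lemma dist_r (hp : 3 ≤ p) {z w : ℂ} (hz : ‖z‖ ≤ 1) (hw : ‖w‖ ≤ 1) (k : ℤ) :
    ‖r p k z - r p k w‖ * (‖z - C p k‖ * ‖w - C p k‖) = tau p ^ 2 * ‖z - w‖ := by
  have h1 := sub_C_ne hp hz k
  have h2 := sub_C_ne hp hw k
  have h1' : (starRingEnd ℂ) (z - C p k) ≠ 0 := conj_ne h1
  have h2' : (starRingEnd ℂ) (w - C p k) ≠ 0 := conj_ne h2
  have : r p k z - r p k w = (tau p : ℂ) ^ 2 * (starRingEnd ℂ) (w - z) /
      ((starRingEnd ℂ) (z - C p k) * (starRingEnd ℂ) (w - C p k)) := by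
    unfold r
    rw [eq_div_iff (mul_ne_zero h1' h2')]
    have : (starRingEnd ℂ) (w - z) = (starRingEnd ℂ) (w - C p k) - (starRingEnd ℂ) (z - C p k) := by
      rw [← map_sub]; congr 1; ring
    rw [this]
    field_simp
    ring
  rw [this, norm_div, norm_mul, norm_mul, norm_pow, Complex.norm_real, RCLike.norm_conj,
    RCLike.norm_conj, RCLike.norm_conj, norm_sub_rev w z]
  have : 0 < ‖z - C p k‖ := norm_pos_iff.mpr h1
  have : 0 < ‖w - C p k‖ := norm_pos_iff.mpr h2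
  field_simp
  simp
  ring

/-- horoballs at `v` are preserved by reflections fixing `v` -/
lemma horo (hp : 3 ≤ p) {z v : ℂ} (hz : ‖z‖ ≤ 1) (hv : ‖v‖ = 1) (k : ℤ)
    (hvk : ‖v - C p k‖ = tau p) {δ : ℝ} (h : ‖z - v‖ ^ 2 ≤ δ * (1 - ‖z‖ ^ 2)) :
    ‖r p k z - v‖ ^ 2 ≤ δ * (1 - ‖r p k z‖ ^ 2) := by
  have h1 := dist_r hp hz hv.le k
  rw [r_fix hp k hvk, hvk] at h1
  have h2 := one_sub_norm_r hp hz k
  have h3 : 0 < ‖z - C p k‖ := norm_pos_iff.mpr (sub_C_ne hp hz k)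
  have ht := tau_pos hp
  have h1' : ‖r p k z - v‖ * ‖z - C p k‖ = tau p * ‖z - v‖ := by
    have : (‖r p k z - v‖ * ‖z - C p k‖) * tau p = (tau p * ‖z - v‖) * tau p := by
      rw [show (‖r p k z - v‖ * ‖z - C p k‖) * tau p = ‖r p k z - v‖ * (‖z - C p k‖ * tau p) by ring, h1]; ring
    exact mul_right_cancel₀ ht.ne' this
  have h4 : ‖r p k z - v‖ ^ 2 * ‖z - C p k‖ ^ 2 ≤ δ * (1 - ‖r p k z‖ ^ 2) * ‖z - C p k‖ ^ 2 := by
    rw [← mul_pow, h1', mul_assoc, h2, mul_pow]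
    have := mul_le_mul_of_nonneg_left h (sq_nonneg (tau p))
    linarith
  exact le_of_mul_le_mul_right h4 (by positivity)

lemma r_continuousOn (hp : 3 ≤ p) (k : ℤ) : ContinuousOn (r p k) {z | ‖z‖ ≤ 1} := by
  unfold r
  refine continuousOn_const.add (continuousOn_const.div ?_ ?_)
  · exact (Complex.continuous_conj.comp (continuous_id.sub continuous_const)).continuousOn
  · intro z hz
    exact conj_ne (sub_C_ne hp hz k)

lemma V_add_p (hp : 3 ≤ p) (k : ℤ) : V p (k + p) = V p k := by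
  unfold V
  rw [Complex.exp_eq_exp_iff_exists_int]
  refine ⟨1, ?_⟩
  have h := al_mul hp
  have : ((2 * ((k + (p:ℤ) : ℤ) : ℝ) * al p : ℝ) : ℂ) = ((2 * k * al p : ℝ) : ℂ) + 2 * (π : ℂ) := by
    rw [← h]; push_cast; ring
  rw [this]; push_cast; ring

lemma C_add_p (hp : 3 ≤ p) (k : ℤ) : C p (k + p) = C p k := by
  unfold C; rw [V_add_p hp]

/-- centres of different circles are at least two radii apart -/
lemma C_dist (hp : 3 ≤ p) {j k : ℤ} (hj : 0 < j - k) (hjp : j - k < p) :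
    2 * tau p ≤ ‖C p j - C p k‖ := by
  have hc := cos_pos' hp
  have ha := al_pos hp
  have hC : C p j - C p k = (Complex.exp (((2 * j + 1) * al p : ℝ) * I) -
     Complex.exp (((2 * k + 1) * al p : ℝ) * I)) / (Real.cos (al p) : ℂ) := by
    rw [C_eq hp, C_eq hp]; ring
  have hn : ‖Complex.exp (((2 * j + 1) * al p : ℝ) * I) - Complex.exp (((2 * k + 1) * al p : ℝ) * I)‖
      = 2 * |Real.sin ((j - k) * al p)| := by
    have e1 : (((2 * j + 1) * al p : ℝ) : ℂ) * I = ((j + k + 1) * al p : ℝ) * I + ((j - k) * al p : ℝ) * I := by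
      push_cast; ring
    have e2 : (((2 * k + 1) * al p : ℝ) : ℂ) * I = ((j + k + 1) * al p : ℝ) * I + -(((j - k) * al p : ℝ) * I) := by
      push_cast; ring
    rw [e1, e2, Complex.exp_add, Complex.exp_add, ← mul_sub, norm_mul, Complex.norm_exp_ofReal_mul_I, one_mul]
    have : Complex.exp (((j - k) * al p : ℝ) * I) - Complex.exp (-(((j - k) * al p : ℝ) * I))
        = ((2 * Real.sin ((j - k) * al p) : ℝ) : ℂ) * I := by
      rw [Complex.exp_mul_I, show -((((j - k) * al p : ℝ) : ℂ) * I) = (-(((j - k) * al p : ℝ) : ℂ)) * I by ring,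
        Complex.exp_mul_I, Complex.cos_neg, Complex.sin_neg]
      push_cast; ring
    rw [this, norm_mul, Complex.norm_I, Complex.norm_real, mul_one, Real.norm_eq_abs, abs_mul]
    norm_num
  rw [hC, norm_div, hn, Complex.norm_real, Real.norm_eq_abs, abs_of_pos hc]
  have hpr : (0:ℝ) < p := by positivity
  have h1 : (1:ℝ) ≤ (j - k : ℝ) := by exact_mod_cast hj
  have h2 : (j - k : ℝ) ≤ p - 1 := by
    have : j - k ≤ p - 1 := by omega
    exact_mod_cast this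
  have hpa := al_mul hp
  -- sin monotonicity
  have hs : Real.sin (al p) ≤ Real.sin ((j - k) * al p) := by
    rcases le_total ((j - k) * al p) (π / 2) with h | h
    · exact Real.sin_le_sin_of_le_of_le_pi_div_two (by linarith [Real.pi_pos]) h (by nlinarith)
    · rw [← Real.sin_pi_sub ((j - k) * al p)]
      exact Real.sin_le_sin_of_le_of_le_pi_div_two (by linarith [Real.pi_pos]) (by linarith) (by nlinarith)
  unfold tau
  rw [Real.tan_eq_sin_div_cos, ← mul_div_assoc, div_le_div_iff_of_pos_right hc]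
  have := le_abs_self (Real.sin ((j - k) * al p))
  linarith

/-- same for elements of `Fin p` -/
lemma C_dist' (hp : 3 ≤ p) {i j : Fin p} (h : i ≠ j) :
    2 * tau p ≤ ‖C p (i:ℕ) - C p (j:ℕ)‖ := by
  rcases lt_or_gt_of_ne h with h | h
  · rw [norm_sub_rev]; exact C_dist hp (by omega) (by omega)
  · exact C_dist hp (by omega) (by omega)

lemma out_of_in (hp : 3 ≤ p) {i j : Fin p} (h : i ≠ j) {z : ℂ} (hz : ‖z - C p (i:ℕ)‖ < tau p) :
    tau p < ‖z - C p (j:ℕ)‖ := by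
  have h1 := C_dist' hp h
  have h2 : ‖C p (i:ℕ) - C p (j:ℕ)‖ ≤ ‖z - C p (j:ℕ)‖ + ‖z - C p (i:ℕ)‖ := by
    have := norm_sub_le (z - C p (j:ℕ)) (z - C p (i:ℕ))
    rwa [show z - C p (j:ℕ) - (z - C p (i:ℕ)) = C p (i:ℕ) - C p (j:ℕ) by ring] at this
  linarith

lemma out_of_le (hp : 3 ≤ p) {i j : Fin p} (h : i ≠ j) {z : ℂ} (hz : ‖z - C p (i:ℕ)‖ ≤ tau p) :
    tau p ≤ ‖z - C p (j:ℕ)‖ := by
  have h1 := C_dist' hp h
  have h2 : ‖C p (i:ℕ) - C p (j:ℕ)‖ ≤ ‖z - C p (j:ℕ)‖ + ‖z - C p (i:ℕ)‖ := by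
    have := norm_sub_le (z - C p (j:ℕ)) (z - C p (i:ℕ))
    rwa [show z - C p (j:ℕ) - (z - C p (i:ℕ)) = C p (i:ℕ) - C p (j:ℕ) by ring] at this
  linarith

/-- inside the open disc two sides do not meet -/
lemma out_of_on (hp : 3 ≤ p) {i j : Fin p} (h : i ≠ j) {z : ℂ} (hz1 : ‖z‖ < 1)
    (hz : ‖z - C p (i:ℕ)‖ ≤ tau p) : tau p < ‖z - C p (j:ℕ)‖ := by
  rcases (out_of_le hp h hz).lt_or_eq with h0 | h0
  · exact h0
  exfalso
  have h1 := C_dist' hp h
  have ht := tau_pos hp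
  have a := norm_C_sq (p := p) (i:ℕ)
  have b := norm_C_sq (p := p) (j:ℕ)
  set A := C p (i:ℕ)
  set B := C p (j:ℕ)
  -- parallelogram law
  have e1 := parallelogram_law_with_norm ℝ (z - A) (z - B)
  have e2 := parallelogram_law_with_norm ℝ A B
  have e3 : ‖z - A - (z - B)‖ = ‖A - B‖ := by rw [← norm_neg]; congr 1; ring
  have e4 : ‖z - A + (z - B)‖ = ‖2 * z - (A + B)‖ := by congr 1; ring
  rw [e3, e4, ← h0] at e1
  have hA : ‖z - A‖ * ‖z - A‖ ≤ tau p * tau p := mul_self_le_mul_self (norm_nonneg _) hz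
  have hAB : (2 * tau p) * (2 * tau p) ≤ ‖A - B‖ * ‖A - B‖ := mul_self_le_mul_self (by positivity) h1
  have h5 : ‖2 * z - (A + B)‖ * ‖2 * z - (A + B)‖ ≤ 0 := by nlinarith
  have h6 : ‖2 * z - (A + B)‖ = 0 := by nlinarith [norm_nonneg (2 * z - (A + B))]
  have h7 : A + B = 2 * z := (sub_eq_zero.mp (norm_eq_zero.mp h6)).symm
  rw [h6] at e1
  rw [h7, norm_mul] at e2
  have h8 : ‖(2:ℂ)‖ = 2 := by simp
  rw [h8] at e2
  rw [a, b] at e2
  have h11 : ‖z‖ * ‖z‖ < 1 := by nlinarith [norm_nonneg z]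
  nlinarith

/-- real part pairing on the unit circle -/
lemma sub_C_sq_circle (hp : 3 ≤ p) (θ : ℝ) (k : ℤ) :
    ‖Complex.exp (θ * I) - C p k‖ ^ 2 = tau p ^ 2 + 2 -
      2 * (Real.cos (θ - (2 * k + 1) * al p) / Real.cos (al p)) := by
  have hc := cos_pos' hp
  have h := norm_C_sq (p := p) k
  rw [← Complex.normSq_eq_norm_sq] at h ⊢
  rw [Complex.normSq_sub, h]
  have h1 : normSq (Complex.exp (θ * I)) = 1 := by
    rw [Complex.normSq_eq_norm_sq, Complex.norm_exp_ofReal_mul_I]; norm_num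
  have h2 : (Complex.exp (θ * I) * (starRingEnd ℂ) (C p k)).re = Real.cos (θ - (2 * k + 1) * al p) / Real.cos (al p) := by
    rw [C_eq hp, map_div₀, Complex.conj_ofReal, ← mul_div_assoc, ← Complex.exp_conj, map_mul,
      Complex.conj_ofReal, Complex.conj_I, ← Complex.exp_add,
      show (θ : ℂ) * I + (((2 * k + 1) * al p : ℝ) : ℂ) * -I = ((θ - (2 * k + 1) * al p : ℝ) : ℂ) * I by
        push_cast; ring, Complex.div_ofReal_re, Complex.exp_ofReal_mul_I_re]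
  rw [h1, h2]; ring

/-- arcs of the unit circle; `b = false`: half open on the right, `b = true`: half open on the left -/
def Arc (p : ℕ) (b : Bool) (i : Fin p) (x : ℂ) : Prop :=
  ∃ θ : ℝ, x = Complex.exp (θ * I) ∧
    if b then 2 * (i:ℕ) * al p < θ ∧ θ ≤ 2 * ((i:ℕ) + 1) * al p
    else 2 * (i:ℕ) * al p ≤ θ ∧ θ < 2 * ((i:ℕ) + 1) * al p

lemma closed_of_angle (hp : 3 ≤ p) (i : Fin p) {θ : ℝ} (h1 : 2 * (i:ℕ) * al p ≤ θ)
    (h2 : θ ≤ 2 * ((i:ℕ) + 1) * al p) : ‖Complex.exp (θ * I) - C p (i:ℕ)‖ ≤ tau p := by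
  have hc := cos_pos' hp
  have h := sub_C_sq_circle hp θ (i:ℕ)
  have : Real.cos (al p) ≤ Real.cos (θ - (2 * ((i:ℕ):ℤ) + 1) * al p) := by
    rw [← Real.cos_abs (θ - _)]
    refine Real.cos_le_cos_of_nonneg_of_le_pi (abs_nonneg _) (by linarith [al_lt hp, Real.pi_pos]) ?_
    rw [abs_le]; push_cast; constructor <;> nlinarith
  have h3 : 1 ≤ Real.cos (θ - (2 * ((i:ℕ):ℤ) + 1) * al p) / Real.cos (al p) := by
    rw [le_div_iff₀ hc]; simpa using this
  have h4 : ‖Complex.exp (θ * I) - C p (i:ℕ)‖ ^ 2 ≤ tau p ^ 2 := by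
    push_cast at h h3 ⊢; linarith
  exact le_of_sq_le_sq h4 (tau_pos hp).le

lemma open_of_angle (hp : 3 ≤ p) (i : Fin p) {θ : ℝ} (h1 : 2 * (i:ℕ) * al p < θ)
    (h2 : θ < 2 * ((i:ℕ) + 1) * al p) : ‖Complex.exp (θ * I) - C p (i:ℕ)‖ < tau p := by
  have hc := cos_pos' hp
  have h := sub_C_sq_circle hp θ (i:ℕ)
  have : Real.cos (al p) < Real.cos (θ - (2 * ((i:ℕ):ℤ) + 1) * al p) := by
    rw [← Real.cos_abs (θ - _)]
    refine Real.cos_lt_cos_of_nonneg_of_le_pi (abs_nonneg _) (by linarith [al_lt hp, Real.pi_pos]) ?_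
    rw [abs_lt]; push_cast; constructor <;> nlinarith
  have h3 : 1 < Real.cos (θ - (2 * ((i:ℕ):ℤ) + 1) * al p) / Real.cos (al p) := by
    rw [lt_div_iff₀ hc]; simpa using this
  have h4 : ‖Complex.exp (θ * I) - C p (i:ℕ)‖ ^ 2 < tau p ^ 2 := by
    push_cast at h h3 ⊢; linarith
  exact lt_of_pow_lt_pow_left₀ 2 (tau_pos hp).le h4

lemma Arc.norm {b : Bool} {i : Fin p} {x : ℂ} (h : Arc p b i x) : ‖x‖ = 1 := by
  obtain ⟨θ, rfl, -⟩ := h
  exact Complex.norm_exp_ofReal_mul_I θ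

lemma Arc.le (hp : 3 ≤ p) {b : Bool} {i : Fin p} {x : ℂ} (h : Arc p b i x) :
    ‖x - C p (i:ℕ)‖ ≤ tau p := by
  obtain ⟨θ, rfl, h⟩ := h
  cases b
  · simp only [Bool.false_eq_true, if_false] at h; exact closed_of_angle hp i h.1 h.2.le
  · simp only [if_true] at h; exact closed_of_angle hp i h.1.le h.2

lemma exists_angle {x : ℂ} (hx : ‖x‖ = 1) (a : ℝ) :
    (∃ θ : ℝ, x = Complex.exp (θ * I) ∧ a ≤ θ ∧ θ < a + 2 * π) ∧
    (∃ θ : ℝ, x = Complex.exp (θ * I) ∧ a < θ ∧ θ ≤ a + 2 * π) := by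
  have h0 : x = Complex.exp ((arg x : ℝ) * I) := by
    have := Complex.norm_mul_exp_arg_mul_I x
    rw [hx] at this; simpa using this.symm
  have key : ∀ n : ℤ, Complex.exp (((arg x - n • (2 * π) : ℝ) : ℂ) * I) = Complex.exp ((arg x : ℝ) * I) := by
    intro n
    rw [Complex.exp_eq_exp_iff_exists_int]
    refine ⟨-n, ?_⟩
    push_cast; simp; ring
  refine ⟨⟨toIcoMod Real.two_pi_pos a (arg x), ?_, ?_, ?_⟩, ⟨toIocMod Real.two_pi_pos a (arg x), ?_, ?_, ?_⟩⟩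
  · rw [toIcoMod, key]; exact h0
  · exact (toIcoMod_mem_Ico Real.two_pi_pos a _).1
  · exact (toIcoMod_mem_Ico Real.two_pi_pos a _).2
  · rw [toIocMod, key]; exact h0
  · exact (toIocMod_mem_Ioc Real.two_pi_pos a _).1
  · exact (toIocMod_mem_Ioc Real.two_pi_pos a _).2

lemma exists_Arc (hp : 3 ≤ p) (b : Bool) {x : ℂ} (hx : ‖x‖ = 1) : ∃ i, Arc p b i x := by
  have ha := al_pos hp
  have hpa := al_mul hp
  have hpr : (0:ℝ) < p := by positivity
  cases b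
  · obtain ⟨θ, h1, h2, h3⟩ := (exists_angle hx 0).1
    rw [zero_add] at h3
    have hf : ⌊θ / (2 * al p)⌋₊ < p := by
      rw [Nat.floor_lt (by positivity), div_lt_iff₀ (by positivity)]; nlinarith
    refine ⟨⟨⌊θ / (2 * al p)⌋₊, hf⟩, θ, h1, ?_⟩
    simp only [Bool.false_eq_true, if_false]
    have h4 := Nat.floor_le (show 0 ≤ θ / (2 * al p) by positivity)
    have h5 := Nat.lt_floor_add_one (θ / (2 * al p))
    rw [le_div_iff₀ (by positivity)] at h4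
    rw [div_lt_iff₀ (by positivity)] at h5
    constructor <;> nlinarith
  · obtain ⟨θ, h1, h2, h3⟩ := (exists_angle hx 0).2
    rw [zero_add] at h3
    have hc1 : 0 < ⌈θ / (2 * al p)⌉₊ := Nat.ceil_pos.mpr (by positivity)
    have hc2 : ⌈θ / (2 * al p)⌉₊ ≤ p := by
      rw [Nat.ceil_le, div_le_iff₀ (by positivity)]; nlinarith
    refine ⟨⟨⌈θ / (2 * al p)⌉₊ - 1, by omega⟩, θ, h1, ?_⟩
    simp only [if_true]
    have h4 := Nat.le_ceil (θ / (2 * al p))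
    have h5 := Nat.ceil_lt_add_one (show 0 ≤ θ / (2 * al p) by positivity)
    rw [div_le_iff₀ (by positivity)] at h4
    have h6 : (((⌈θ / (2 * al p)⌉₊ - 1 : ℕ)) : ℝ) = ⌈θ / (2 * al p)⌉₊ - 1 := by
      rw [Nat.cast_sub hc1]; simp
    simp only [h6]
    have h7 : (⌈θ / (2 * al p)⌉₊ : ℝ) - 1 < θ / (2 * al p) := by linarith
    rw [lt_div_iff₀ (by positivity)] at h7
    constructor <;> nlinarith

lemma exp_inj_of_lt {θ φ : ℝ} (h : Complex.exp (θ * I) = Complex.exp (φ * I)) (h1 : θ - φ < 2 * π)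
    (h2 : φ - θ < 2 * π) : θ = φ := by
  rw [Complex.exp_eq_exp_iff_exists_int] at h
  obtain ⟨n, hn⟩ := h
  have h3 : θ = φ + n * (2 * π) := by
    have := congrArg Complex.im hn
    simp at this
    linarith
  have h4 : n < 1 := by
    by_contra hc
    have : (1:ℝ) ≤ n := by exact_mod_cast (not_lt.mp hc)
    nlinarith [Real.pi_pos]
  have h5 : -1 < n := by
    by_contra hc
    have : (n:ℝ) ≤ -1 := by exact_mod_cast (not_lt.mp hc)
    nlinarith [Real.pi_pos]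
  have : n = 0 := by omega
  rw [h3, this]; simp

/-- angles of an arc lie in a window of length `2π` -/
lemma Arc.angle (hp : 3 ≤ p) {b : Bool} {i : Fin p} {x : ℂ} (h : Arc p b i x) :
    ∃ θ : ℝ, x = Complex.exp (θ * I) ∧ (if b then 2 * (i:ℕ) * al p < θ ∧ θ ≤ 2 * ((i:ℕ) + 1) * al p
    else 2 * (i:ℕ) * al p ≤ θ ∧ θ < 2 * ((i:ℕ) + 1) * al p) ∧
      (if b then 0 < θ ∧ θ ≤ 2 * π else 0 ≤ θ ∧ θ < 2 * π) := by
  have ha := al_pos hp
  have hpa := al_mul hp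
  have hi : ((i:ℕ):ℝ) + 1 ≤ p := by exact_mod_cast i.2
  have hi0 : (0:ℝ) ≤ (i:ℕ) := by positivity
  obtain ⟨θ, h1, h2⟩ := h
  refine ⟨θ, h1, h2, ?_⟩
  cases b
  · simp only [Bool.false_eq_true, if_false] at h2 ⊢
    constructor
    · have : 0 ≤ 2 * ((i:ℕ):ℝ) * al p := by positivity
      linarith [h2.1]
    · nlinarith [h2.2]
  · simp only [if_true] at h2 ⊢
    constructor
    · have : 0 ≤ 2 * ((i:ℕ):ℝ) * al p := by positivity
      linarith [h2.1]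
    · nlinarith [h2.2]

lemma Arc.unique (hp : 3 ≤ p) {b : Bool} {i j : Fin p} {x : ℂ} (h : Arc p b i x)
    (h' : Arc p b j x) : i = j := by
  have ha := al_pos hp
  obtain ⟨θ, h1, h2, h3⟩ := h.angle hp
  obtain ⟨φ, g1, g2, g3⟩ := h'.angle hp
  have he : θ = φ := by
    apply exp_inj_of_lt (h1.symm.trans g1)
    · cases b <;> simp only [Bool.false_eq_true, if_false, if_true] at h3 g3 <;> linarith [h3.1, h3.2, g3.1, g3.2]
    · cases b <;> simp only [Bool.false_eq_true, if_false, if_true] at h3 g3 <;> linarith [h3.1, h3.2, g3.1, g3.2]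
  subst he
  have key : ∀ a b : ℕ, 2 * (a:ℝ) * al p ≤ θ → θ ≤ 2 * ((a:ℝ) + 1) * al p → 2 * (b:ℝ) * al p ≤ θ →
      θ ≤ 2 * ((b:ℝ) + 1) * al p → (2 * (a:ℝ) * al p < θ ∧ 2 * (b:ℝ) * al p < θ ∨
        θ < 2 * ((a:ℝ) + 1) * al p ∧ θ < 2 * ((b:ℝ) + 1) * al p) → a = b := by
    intro a b h1 h2 h3 h4 h5
    by_contra hne
    rcases lt_or_gt_of_ne hne with hl | hl
    · have : (a:ℝ) + 1 ≤ b := by exact_mod_cast hl
      rcases h5 with h5 | h5 <;> nlinarith [h5.1, h5.2]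
    · have : (b:ℝ) + 1 ≤ a := by exact_mod_cast hl
      rcases h5 with h5 | h5 <;> nlinarith [h5.1, h5.2]
  apply Fin.ext
  cases b
  · simp only [Bool.false_eq_true, if_false] at h2 g2
    exact key _ _ h2.1 h2.2.le g2.1 g2.2.le (Or.inr ⟨h2.2, g2.2⟩)
  · simp only [if_true] at h2 g2
    exact key _ _ h2.1.le h2.2 g2.1.le g2.2 (Or.inl ⟨h2.1, g2.1⟩)

/-- a point of the circle in the closed disc number `i` has an angle in the closed interval -/
lemma angle_of_closed (hp : 3 ≤ p) (i : Fin p) {x : ℂ} (hx : ‖x‖ = 1)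
    (h : ‖x - C p (i:ℕ)‖ ≤ tau p) :
    ∃ θ : ℝ, x = Complex.exp (θ * I) ∧ 2 * (i:ℕ) * al p ≤ θ ∧ θ ≤ 2 * ((i:ℕ) + 1) * al p := by
  have ha := al_pos hp
  have hpa := al_mul hp
  have hc := cos_pos' hp
  obtain ⟨θ, h1, h2, h3⟩ := (exists_angle hx ((2 * (i:ℕ) + 1) * al p - π)).1
  refine ⟨θ, h1, ?_⟩
  have h4 := sub_C_sq_circle hp θ (i:ℕ)
  rw [← h1] at h4
  have h5 : ‖x - C p (i:ℕ)‖ ^ 2 ≤ tau p ^ 2 := pow_le_pow_left₀ (norm_nonneg _) h 2
  have h6 : 1 ≤ Real.cos (θ - (2 * ((i:ℕ):ℤ) + 1) * al p) / Real.cos (al p) := by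
    push_cast at h4 h5 ⊢; linarith
  rw [le_div_iff₀ hc, one_mul] at h6
  push_cast at h6
  set φ := θ - (2 * ((i:ℕ):ℝ) + 1) * al p with hφ
  have h7 : |φ| ≤ al p := by
    by_contra hn
    push Not at hn
    have h8 : |φ| ≤ π := by rw [abs_le]; constructor <;> linarith
    have := Real.cos_lt_cos_of_nonneg_of_le_pi ha.le h8 hn
    rw [Real.cos_abs] at this
    linarith
  rw [abs_le] at h7
  constructor <;> nlinarith [h7.1, h7.2]

lemma V_eq_exp (i : ℕ) : V p (i:ℕ) = Complex.exp ((2 * (i:ℝ) * al p : ℝ) * I) := by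
  unfold V; push_cast; rfl

lemma V_eq_exp' (i : ℕ) : V p ((i:ℤ) + 1) = Complex.exp ((2 * ((i:ℝ) + 1) * al p : ℝ) * I) := by
  unfold V; push_cast; rfl

lemma Arc_V (hp : 3 ≤ p) (i : Fin p) : Arc p false i (V p (i:ℕ)) :=
  ⟨_, V_eq_exp _, by simp only [Bool.false_eq_true, if_false]; constructor <;> nlinarith [al_pos hp]⟩

lemma Arc_V' (hp : 3 ≤ p) (i : Fin p) : Arc p true i (V p ((i:ℕ) + 1)) :=
  ⟨_, V_eq_exp' _, by simp only [if_true]; constructor <;> nlinarith [al_pos hp]⟩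

/-- crossing a side -/
lemma Arc_r_of_ne (hp : 3 ≤ p) {b : Bool} {i l : Fin p} (hl : l ≠ i) {x : ℂ} (h : Arc p b l x) :
    Arc p (!b) i (r p (i:ℕ) x) := by
  have hx := h.norm
  have h1 := out_of_le hp hl (h.le hp)
  have ht := tau_pos hp
  have h2 : ‖r p (i:ℕ) x - C p (i:ℕ)‖ ≤ tau p := by
    rw [norm_r_sub_C, div_le_iff₀ (by linarith)]; nlinarith
  obtain ⟨θ, e1, e2, e3⟩ := angle_of_closed hp i (norm_r_eq hp hx _) h2
  refine ⟨θ, e1, ?_⟩
  cases b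
  · simp only [Bool.not_false, if_true]
    refine ⟨lt_of_le_of_ne e2 ?_, e3⟩
    intro h3
    apply hl
    have h4 : r p (i:ℕ) x = V p (i:ℕ) := by rw [e1, ← h3, V_eq_exp]
    have h5 : x = V p (i:ℕ) := by rw [← r_r hp hx.le (i:ℕ), h4, r_V hp]
    exact (h.unique hp (h5 ▸ Arc_V hp i))
  · simp only [Bool.not_true, Bool.false_eq_true, if_false]
    refine ⟨e2, lt_of_le_of_ne e3 ?_⟩
    intro h3
    apply hl
    have h4 : r p (i:ℕ) x = V p ((i:ℕ) + 1) := by rw [e1, h3, V_eq_exp']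
    have h5 : x = V p ((i:ℕ) + 1) := by rw [← r_r hp hx.le (i:ℕ), h4, r_V' hp]
    exact (h.unique hp (h5 ▸ Arc_V' hp i))

lemma Arc_r_ne (hp : 3 ≤ p) {b : Bool} {i l : Fin p} {x : ℂ} (h : Arc p b i x)
    (h' : Arc p (!b) l (r p (i:ℕ) x)) : l ≠ i := by
  rintro rfl
  have hx := h.norm
  have ht := tau_pos hp
  have ha := al_pos hp
  have h1 := h.le hp
  have h2 := h'.le hp
  have hne : 0 < ‖x - C p (l:ℕ)‖ := norm_pos_iff.mpr (sub_C_ne hp hx.le _)
  rw [norm_r_sub_C, div_le_iff₀ hne] at h2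
  have h3 : ‖x - C p (l:ℕ)‖ = tau p := le_antisymm h1 (by nlinarith)
  rw [r_fix hp _ h3] at h'
  obtain ⟨θ, a1, a2, a3⟩ := h.angle hp
  obtain ⟨φ, b1, b2, b3⟩ := h'.angle hp
  have hpi := Real.pi_pos
  have hlp : ((l:ℕ):ℝ) + 1 ≤ p := by exact_mod_cast l.2
  have hpa := al_mul hp
  have hth : (3:ℝ) ≤ p := by exact_mod_cast hp
  have he : θ = φ := by
    apply exp_inj_of_lt (a1.symm.trans b1) <;>
      cases b <;> simp only [Bool.not_false, Bool.not_true, Bool.false_eq_true, if_false, if_true] at a2 a3 b2 b3 <;>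
      nlinarith [a2.1, a2.2, b2.1, b2.2]
  subst he
  have : 2 * (l:ℕ) * al p < θ ∧ θ < 2 * ((l:ℕ) + 1) * al p := by
    cases b <;> simp only [Bool.not_false, Bool.not_true, Bool.false_eq_true, if_false, if_true] at a2 b2
    · exact ⟨b2.1, a2.2⟩
    · exact ⟨a2.1, b2.2⟩
  have := open_of_angle hp l this.1 this.2
  rw [← a1, h3] at this
  exact lt_irrefl _ this

end

end H571R3
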