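import Pool.Agent.H571R3.Count
import Pool.Agent.H650R3.Task571C
import Pool.Agent.Helper770.Exist
set_option autoImplicit false
set_option linter.unusedSectionVars false
set_option linter.unusedVariables false
namespace H571R3
open Complex Real Set
open Pool.Agent.Helper770.Crossing Pool.Agent.Helper770.Exist

noncomputable section

/-- a leg parametrised from the centre to the hub -/
lemma exists_leg {V : Type*} {G : SimpleGraph V} (D : Drawing G) {u v : V} (h : G.Adj u v) :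
    ∃ δ : ℝ → ℂ, ContinuousOn δ (Icc 0 1) ∧ InjOn δ (Icc 0 1) ∧ δ 0 = D.pos v ∧ δ 1 = D.pos u ∧
      δ '' Ioo 0 1 = D.arc s(u, v) '' Ioo 0 1 := by
  have he : s(u, v) ∈ G.edgeSet := h
  rcases D.arc_ends u v h with ⟨h0, h1⟩ | ⟨h0, h1⟩
  · refine ⟨fun t => D.arc s(u, v) (1 - t), ?_, ?_, ?_, ?_, ?_⟩
    · refine (D.arc_continuousOn _ he).comp (by fun_prop) ?_
      intro t ht; exact ⟨by linarith [ht.2], by linarith [ht.1]⟩
    · intro s hs t ht hst
      have := D.arc_injOn _ he (show 1 - s ∈ Icc (0:ℝ) 1 from ⟨by linarith [hs.2], by linarith [hs.1]⟩)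
        (show 1 - t ∈ Icc (0:ℝ) 1 from ⟨by linarith [ht.2], by linarith [ht.1]⟩) hst
      linarith
    · simp [h1]
    · simp [h0]
    · ext x
      constructor
      · rintro ⟨t, ht, rfl⟩
        exact ⟨1 - t, ⟨by linarith [ht.2], by linarith [ht.1]⟩, rfl⟩
      · rintro ⟨t, ht, rfl⟩
        exact ⟨1 - t, ⟨by linarith [ht.2], by linarith [ht.1]⟩, by simp⟩
  · exact ⟨D.arc s(u, v), D.arc_continuousOn _ he, D.arc_injOn _ he, h0, h1, rfl⟩

lemma V_inj {p : ℕ} (hp : 3 ≤ p) : Function.Injective (fun k : Fin p => V p (k:ℕ)) := by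
  intro i j h
  have h' : V p (i:ℕ) = V p (j:ℕ) := h
  exact Arc.unique hp (Arc_V hp i) (h' ▸ Arc_V hp j)

/-- the plane inequality -/
theorem plane {p : ℕ} (hp : 3 ≤ p) {Y : Type} [Fintype Y] [DecidableEq Y] (G : SimpleGraph (Fin p ⊕ Y)) [DecidableRel G.Adj]
    (hG : ∀ y y' : Y, ¬ G.Adj (Sum.inr y) (Sum.inr y')) (k : ℕ) :
    k * (∑ y : Y, ((Finset.univ.filter (fun a : Fin p => G.Adj (Sum.inl a) (Sum.inr y))).card - 2)) ≤
      crossingNumber G + k * (k + 1) * (p - 2) := by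
  classical
  have : NeZero p := ⟨by omega⟩
  obtain ⟨D, hDf, hDc⟩ := crossingNumber_attained G
  obtain ⟨f, hf⟩ := Pool.Agent.H650R3.T571C.exists_homeo (fun a : Fin p => D.pos (Sum.inl a))
    (fun a : Fin p => V p (a:ℕ)) (fun a b h => Sum.inl_injective (D.pos_injective h)) (V_inj hp)
  have hleg : ∀ (y : Y) (a : Fin p), ∃ δ : ℝ → ℂ, G.Adj (Sum.inl a) (Sum.inr y) →
      ContinuousOn δ (Icc 0 1) ∧ InjOn δ (Icc 0 1) ∧ δ 0 = D.pos (Sum.inr y) ∧ δ 1 = D.pos (Sum.inl a) ∧
      δ '' Ioo 0 1 = D.arc s(Sum.inl a, Sum.inr y) '' Ioo 0 1 := by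
    intro y a
    by_cases h : G.Adj (Sum.inl a) (Sum.inr y)
    · obtain ⟨δ, hδ⟩ := exists_leg D h
      exact ⟨δ, fun _ => hδ⟩
    · exact ⟨fun _ => 0, fun h' => absurd h' h⟩
  choose δ hδ using hleg
  have hav : ∀ y a, G.Adj (Sum.inl a) (Sum.inr y) → ∀ t ∈ Ioo (0:ℝ) 1, ∀ w, δ y a t ≠ D.pos w := by
    intro y a h t ht w hw
    have h1 : δ y a t ∈ D.arc s(Sum.inl a, Sum.inr y) '' Ioo 0 1 := by
      rw [← (hδ y a h).2.2.2.2]; exact ⟨t, ht, rfl⟩
    obtain ⟨s, hs, hs'⟩ := h1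
    exact D.arc_avoids _ h s hs w (hs'.trans hw)
  let S : Sys p Y :=
    { z := fun y => f (D.pos (Sum.inr y))
      L := fun y => Finset.univ.filter (fun a : Fin p => G.Adj (Sum.inl a) (Sum.inr y))
      γ := fun y a t => f (δ y a t)
      z_inj := fun y y' h => Sum.inr_injective (D.pos_injective (f.injective h))
      z_hub := by
        rintro y ⟨k, hk⟩
        rw [← hf k] at hk
        exact Sum.inr_ne_inl (D.pos_injective (f.injective hk))
      cont := fun y a ha => f.continuous.comp_continuousOn (hδ y a (Finset.mem_filter.mp ha).2).1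
      inj := fun y a ha s hs t ht hst => (hδ y a (Finset.mem_filter.mp ha).2).2.1 hs ht (f.injective hst)
      at0 := fun y a ha => by rw [(hδ y a (Finset.mem_filter.mp ha).2).2.2.1]
      at1 := fun y a ha => by rw [(hδ y a (Finset.mem_filter.mp ha).2).2.2.2.1]; exact hf a
      nohub := by
        rintro y a ha t ht ⟨k, hk⟩
        rw [← hf k] at hk
        have h1 := f.injective hk
        have ha' := (Finset.mem_filter.mp ha).2
        rcases ht.1.eq_or_lt with h0 | h0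
        · rw [← h0, (hδ y a ha').2.2.1] at h1
          exact Sum.inr_ne_inl (D.pos_injective h1)
        · exact hav y a ha' t ⟨h0, ht.2⟩ _ h1
      nocen := by
        intro y a ha t ht y' h
        exact hav y a (Finset.mem_filter.mp ha).2 t ht _ (f.injective h) }
  -- edges
  let E : Y × Fin p → Sym2 (Fin p ⊕ Y) := fun x => s(Sum.inl x.2, Sum.inr x.1)
  have E_inj : Function.Injective E := by
    rintro ⟨y, a⟩ ⟨y', a'⟩ h
    simp only [E, Sym2.eq_iff, Sum.inl.injEq, Sum.inr.injEq, reduceCtorEq, false_and, or_false] at h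
    rw [h.1, h.2]
  let φ : (Y × Fin p) × (Y × Fin p) × ℂ → Sym2 (Sym2 (Fin p ⊕ Y)) × ℂ := fun x => (s(E x.1, E x.2.1), f.symm x.2.2)
  have hφ : ∀ x ∈ S.X, φ x ∈ D.crossings := by
    rintro ⟨⟨y, a⟩, ⟨y', a'⟩, q⟩ ⟨h1, h2, h3, ⟨s, hs, hsq⟩, ⟨t, ht, htq⟩⟩
    have h1' : G.Adj (Sum.inl a) (Sum.inr y) := (Finset.mem_filter.mp h1).2
    have h2' : G.Adj (Sum.inl a') (Sum.inr y') := (Finset.mem_filter.mp h2).2
    refine ⟨E (y, a), h1', E (y', a'), h2', fun h => h3 (E_inj h), rfl, ?_, ?_⟩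
    · rw [← (hδ y a h1').2.2.2.2]
      have hsq' : f (δ y a s) = q := hsq
      refine ⟨s, hs, ?_⟩
      show δ y a s = f.symm q
      rw [← hsq', f.symm_apply_apply]
    · rw [← (hδ y' a' h2').2.2.2.2]
      have htq' : f (δ y' a' t) = q := htq
      refine ⟨t, ht, ?_⟩
      show δ y' a' t = f.symm q
      rw [← htq', f.symm_apply_apply]
  have hXf : S.X.Finite := by
    have h1 : (f '' (Prod.snd '' D.crossings)).Finite := (hDf.image _).image _
    have h2 : S.X ⊆ (univ : Set (Y × Fin p)) ×ˢ ((univ : Set (Y × Fin p)) ×ˢ (f '' (Prod.snd '' D.crossings))) := by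
      intro x hx
      refine ⟨mem_univ _, mem_univ _, f.symm x.2.2, ⟨φ x, hφ x hx, rfl⟩, f.apply_symm_apply _⟩
    exact ((Set.finite_univ).prod ((Set.finite_univ).prod h1)).subset h2
  have hX2 : S.X.ncard ≤ 2 * D.crossings.ncard := by
    rw [Set.ncard_eq_toFinset_card _ hXf, Set.ncard_eq_toFinset_card _ hDf]
    refine (Finset.card_le_mul_card_image (f := φ) hXf.toFinset 2 ?_).trans ?_
    · intro b hb
      obtain ⟨x0, hx0, rfl⟩ := Finset.mem_image.mp hb
      have hsub : hXf.toFinset.filter (fun a => φ a = φ x0) ⊆ {x0, (x0.2.1, x0.1, x0.2.2)} := by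
        intro x hx
        obtain ⟨-, hx'⟩ := Finset.mem_filter.mp hx
        simp only [φ, Prod.mk.injEq, EmbeddingLike.apply_eq_iff_eq] at hx'
        obtain ⟨h1, h2⟩ := hx'
        rw [Finset.mem_insert, Finset.mem_singleton]
        rcases Sym2.eq_iff.mp h1 with ⟨h3, h4⟩ | ⟨h3, h4⟩
        · left; exact Prod.ext (E_inj h3) (Prod.ext (E_inj h4) h2)
        · right; exact Prod.ext (E_inj h3) (Prod.ext (E_inj h4) h2)
      exact (Finset.card_le_card hsub).trans Finset.card_le_two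
    · apply Nat.mul_le_mul_left
      apply Finset.card_le_card
      intro c hc
      obtain ⟨x, hx, rfl⟩ := Finset.mem_image.mp hc
      rw [hDf.mem_toFinset]
      exact hφ x (hXf.mem_toFinset.mp hx)
  have hcore := S.core hp hXf k
  rw [← hDc]
  have hk : k * (k + 1) * (2 * (p - 2)) = 2 * (k * (k + 1) * (p - 2)) := by ring
  rw [hk, mul_assoc 2 k] at hcore
  have : 2 * (k * ∑ y, ((S.L y).card - 2)) ≤ 2 * (D.crossings.ncard + k * (k + 1) * (p - 2)) := by
    rw [Nat.mul_add]; omega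
  exact Nat.le_of_mul_le_mul_left this two_pos

/-- lower bound for two subgraphs covering `K_{p,q}` -/
theorem two_planes {p : ℕ} (hp : 3 ≤ p) (q : ℕ) (G₁ G₂ : SimpleGraph (Fin p ⊕ Fin q))
    (h : G₁ ⊔ G₂ = completeBipartiteGraph (Fin p) (Fin q)) (k : ℕ) :
    k * ((p - 4) * q) ≤ crossingNumber G₁ + crossingNumber G₂ + 2 * (k * (k + 1) * (p - 2)) := by
  classical
  have hb : ∀ G : SimpleGraph (Fin p ⊕ Fin q), G ≤ completeBipartiteGraph (Fin p) (Fin q) →
      ∀ y y' : Fin q, ¬ G.Adj (Sum.inr y) (Sum.inr y') := by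
    intro G hG y y' hadj
    have := hG hadj
    simp at this
  have h1 := plane hp G₁ (hb G₁ (h ▸ le_sup_left)) k
  have h2 := plane hp G₂ (hb G₂ (h ▸ le_sup_right)) k
  have hdeg : ∀ y : Fin q, p - 4 ≤ ((Finset.univ.filter (fun a : Fin p => G₁.Adj (Sum.inl a) (Sum.inr y))).card - 2)
      + ((Finset.univ.filter (fun a : Fin p => G₂.Adj (Sum.inl a) (Sum.inr y))).card - 2) := by
    intro y
    have hu : (Finset.univ : Finset (Fin p)) ⊆ (Finset.univ.filter (fun a : Fin p => G₁.Adj (Sum.inl a) (Sum.inr y))) ∪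
        (Finset.univ.filter (fun a : Fin p => G₂.Adj (Sum.inl a) (Sum.inr y))) := by
      intro a _
      have : (G₁ ⊔ G₂).Adj (Sum.inl a) (Sum.inr y) := by rw [h]; simp
      rcases this with h' | h'
      · exact Finset.mem_union_left _ (Finset.mem_filter.mpr ⟨Finset.mem_univ _, h'⟩)
      · exact Finset.mem_union_right _ (Finset.mem_filter.mpr ⟨Finset.mem_univ _, h'⟩)
    have hc := (Finset.card_le_card hu).trans (Finset.card_union_le _ _)
    rw [Finset.card_univ, Fintype.card_fin] at hc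
    omega
  have hsum : (p - 4) * q ≤ (∑ y : Fin q, ((Finset.univ.filter (fun a : Fin p => G₁.Adj (Sum.inl a) (Sum.inr y))).card - 2))
      + (∑ y : Fin q, ((Finset.univ.filter (fun a : Fin p => G₂.Adj (Sum.inl a) (Sum.inr y))).card - 2)) := by
    rw [← Finset.sum_add_distrib]
    calc (p - 4) * q = ∑ _y : Fin q, (p - 4) := by simp [mul_comm]
      _ ≤ _ := Finset.sum_le_sum (fun y _ => hdeg y)
  have := Nat.mul_le_mul_left k hsum
  rw [Nat.mul_add] at this
  omega

end

end H571R3
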