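import Pool.Agent.H571R3.Axis
import Pool.Agent.H571R3.Plane
set_option autoImplicit false

/-! The ladder graph: a bipartite graph with large biplanar crossing number compared to its
crossing number. -/

namespace H571R3.Ladder

open Pool.Agent.Helper770.Crossing Pool.Agent.Helper770.Exist H571R3.Axis

/-- lower bound for two subgraphs covering a bipartite graph with all degrees at least `D` -/
theorem two_planes' {p : ℕ} (hp : 3 ≤ p) {Y : Type} [Fintype Y] (G G₁ G₂ : SimpleGraph (Fin p ⊕ Y))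
    (hG : G ≤ completeBipartiteGraph (Fin p) Y) (h : G₁ ⊔ G₂ = G) (D : ℕ)
    (hD : ∀ y : Y, ∃ S : Finset (Fin p), D ≤ S.card ∧ ∀ a ∈ S, G.Adj (Sum.inl a) (Sum.inr y)) (k : ℕ) :
    k * ((D - 4) * Fintype.card Y) ≤
      crossingNumber G₁ + crossingNumber G₂ + 2 * (k * (k + 1) * (p - 2)) := by
  classical
  have hb : ∀ G' : SimpleGraph (Fin p ⊕ Y), G' ≤ G →
      ∀ y y' : Y, ¬ G'.Adj (Sum.inr y) (Sum.inr y') := by
    intro G' hG' y y' hadj
    have := hG (hG' hadj)
    simp at this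
  have h1 := plane hp G₁ (hb G₁ (h ▸ le_sup_left)) k
  have h2 := plane hp G₂ (hb G₂ (h ▸ le_sup_right)) k
  have hdeg : ∀ y : Y, D - 4 ≤ ((Finset.univ.filter (fun a : Fin p => G₁.Adj (Sum.inl a) (Sum.inr y))).card - 2)
      + ((Finset.univ.filter (fun a : Fin p => G₂.Adj (Sum.inl a) (Sum.inr y))).card - 2) := by
    intro y
    obtain ⟨S, hS, hS'⟩ := hD y
    have hu : S ⊆ (Finset.univ.filter (fun a : Fin p => G₁.Adj (Sum.inl a) (Sum.inr y))) ∪
        (Finset.univ.filter (fun a : Fin p => G₂.Adj (Sum.inl a) (Sum.inr y))) := by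
      intro a ha
      have : (G₁ ⊔ G₂).Adj (Sum.inl a) (Sum.inr y) := by rw [h]; exact hS' a ha
      rcases this with h' | h'
      · exact Finset.mem_union_left _ (Finset.mem_filter.mpr ⟨Finset.mem_univ _, h'⟩)
      · exact Finset.mem_union_right _ (Finset.mem_filter.mpr ⟨Finset.mem_univ _, h'⟩)
    have hc := (Finset.card_le_card hu).trans (Finset.card_union_le _ _)
    omega
  have hsum : (D - 4) * Fintype.card Y ≤ (∑ y : Y, ((Finset.univ.filter (fun a : Fin p => G₁.Adj (Sum.inl a) (Sum.inr y))).card - 2))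
      + (∑ y : Y, ((Finset.univ.filter (fun a : Fin p => G₂.Adj (Sum.inl a) (Sum.inr y))).card - 2)) := by
    rw [← Finset.sum_add_distrib]
    calc (D - 4) * Fintype.card Y = ∑ _y : Y, (D - 4) := by simp [mul_comm]
      _ ≤ _ := Finset.sum_le_sum (fun y _ => hdeg y)
  have := Nat.mul_le_mul_left k hsum
  rw [Nat.mul_add] at this
  omega

/-- a star of the ladder: top or bottom, class, index -/
abbrev St (J M : ℕ) := Bool × Fin J × Fin M

/-- the ladder graph -/
def L (J M : ℕ) : SimpleGraph (Fin (2 * (J + 4)) ⊕ St J M) where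
  Adj x y := (∃ a s, x = Sum.inl a ∧ y = Sum.inr s ∧ s.2.1.val ≤ a.val / 2 ∧ a.val / 2 ≤ s.2.1.val + 4) ∨
    (∃ a s, y = Sum.inl a ∧ x = Sum.inr s ∧ s.2.1.val ≤ a.val / 2 ∧ a.val / 2 ≤ s.2.1.val + 4)
  symm := ⟨fun _ _ h => h.symm⟩
  loopless := ⟨fun x h => by
    rcases h with ⟨h, k, h1, h2, -⟩ | ⟨h, k, h1, h2, -⟩ <;> rw [h1] at h2 <;>
      exact Sum.inl_ne_inr h2⟩

lemma L_adj {J M : ℕ} (a : Fin (2 * (J + 4))) (s : St J M) :
    (L J M).Adj (Sum.inl a) (Sum.inr s) ↔ s.2.1.val ≤ a.val / 2 ∧ a.val / 2 ≤ s.2.1.val + 4 := by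
  constructor
  · rintro (⟨a', s', h1, h2, h3⟩ | ⟨a', s', h1, -⟩)
    · rw [Sum.inl.inj h1, Sum.inr.inj h2]; exact h3
    · exact absurd h1 Sum.inr_ne_inl
  · intro h
    exact Or.inl ⟨a, s, rfl, rfl, h⟩

lemma L_le (J M : ℕ) : L J M ≤ completeBipartiteGraph (Fin (2 * (J + 4))) (St J M) := by
  intro x y h
  rcases h with ⟨a, s, rfl, rfl, -⟩ | ⟨a, s, rfl, rfl, -⟩ <;> simp

/-- abscissa of a hub -/
noncomputable def X (J : ℕ) (a : Fin (2 * (J + 4))) : ℝ :=
  (if a.val % 2 = 0 then 1 else -1) * ((a.val / 2 + 1 : ℕ) : ℝ)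

/-- ordinate of a star -/
noncomputable def Y (J M : ℕ) (s : St J M) : ℝ :=
  (if s.1 then 1 else -1) * ((s.2.1.val * M + s.2.2.val + 1 : ℕ) : ℝ)

lemma absX {J : ℕ} (a : Fin (2 * (J + 4))) : |X J a| = ((a.val / 2 + 1 : ℕ) : ℝ) := by
  unfold X
  rw [abs_mul, Nat.abs_cast]
  split_ifs <;> simp

lemma absY {J M : ℕ} (s : St J M) : |Y J M s| = ((s.2.1.val * M + s.2.2.val + 1 : ℕ) : ℝ) := by
  unfold Y
  rw [abs_mul, Nat.abs_cast]
  split_ifs <;> simp

lemma signX {J : ℕ} (a a' : Fin (2 * (J + 4))) (h : 0 < X J a * X J a') : a.val % 2 = a'.val % 2 := by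
  have h1 : (0 : ℝ) < ((a.val / 2 + 1 : ℕ) : ℝ) * ((a'.val / 2 + 1 : ℕ) : ℝ) := by positivity
  unfold X at h
  by_contra hne
  rcases Nat.mod_two_eq_zero_or_one a.val with h2 | h2 <;>
  rcases Nat.mod_two_eq_zero_or_one a'.val with h3 | h3
  · exact hne (h2.trans h3.symm)
  · rw [if_pos h2, if_neg (by omega)] at h
    nlinarith
  · rw [if_neg (by omega), if_pos h3] at h
    nlinarith
  · exact hne (h2.trans h3.symm)

lemma signY {J M : ℕ} (s s' : St J M) (h : 0 < Y J M s * Y J M s') : s.1 = s'.1 := by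
  have h1 : (0 : ℝ) < ((s.2.1.val * M + s.2.2.val + 1 : ℕ) : ℝ) *
    ((s'.2.1.val * M + s'.2.2.val + 1 : ℕ) : ℝ) := by positivity
  unfold Y at h
  cases h2 : s.1 <;> cases h3 : s'.1 <;> rw [h2, h3] at h <;> simp only [Bool.false_eq_true, if_false, if_true] at h
  · exfalso; nlinarith
  · exfalso; nlinarith

lemma idx_lt {M j m j' m' : ℕ} (hm : m < M) (h : j' * M + m' < j * M + m) :
    j' < j ∨ (j' = j ∧ m' < m) := by
  rcases Nat.lt_trichotomy j' j with h1 | h1 | h1
  · exact Or.inl h1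
  · subst h1; right; exact ⟨rfl, by omega⟩
  · exfalso
    have := Nat.mul_le_mul_right M (show j + 1 ≤ j' from h1)
    rw [Nat.add_mul] at this
    omega

lemma idx_eq {M j m j' m' : ℕ} (hm : m < M) (hm' : m' < M) (h : j' * M + m' = j * M + m) :
    j' = j ∧ m' = m := by
  rcases Nat.lt_trichotomy j' j with h1 | h1 | h1
  · exfalso
    have := Nat.mul_le_mul_right M (show j' + 1 ≤ j from h1)
    rw [Nat.add_mul] at this
    omega
  · subst h1; exact ⟨rfl, by omega⟩
  · exfalso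
    have := Nat.mul_le_mul_right M (show j + 1 ≤ j' from h1)
    rw [Nat.add_mul] at this
    omega

lemma ok (J M : ℕ) : Ok (X J) (Y J M) where
  hX a h := by
    have := absX a
    rw [h, abs_zero] at this
    have h2 : (0 : ℝ) < ((a.val / 2 + 1 : ℕ) : ℝ) := by positivity
    linarith
  hY s h := by
    have := absY s
    rw [h, abs_zero] at this
    have h2 : (0 : ℝ) < ((s.2.1.val * M + s.2.2.val + 1 : ℕ) : ℝ) := by positivity
    linarith
  iX a a' h := by
    have h1 := absX a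
    rw [h, absX a'] at h1
    have h2 : a'.val / 2 + 1 = a.val / 2 + 1 := by exact_mod_cast h1
    have h3 : 0 < X J a * X J a' := by
      rw [h]
      have h4 := absX a'
      have h5 : (0 : ℝ) < ((a'.val / 2 + 1 : ℕ) : ℝ) := by positivity
      rw [← h4] at h5
      exact mul_self_pos.mpr (abs_pos.mp h5)
    have h6 := signX a a' h3
    apply Fin.ext
    omega
  iY s s' h := by
    have h1 := absY s
    rw [h, absY s'] at h1
    have h2 : s'.2.1.val * M + s'.2.2.val + 1 = s.2.1.val * M + s.2.2.val + 1 := by exact_mod_cast h1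
    have h3 : 0 < Y J M s * Y J M s' := by
      rw [h]
      have h4 := absY s'
      have h5 : (0 : ℝ) < ((s'.2.1.val * M + s'.2.2.val + 1 : ℕ) : ℝ) := by positivity
      rw [← h4] at h5
      exact mul_self_pos.mpr (abs_pos.mp h5)
    have h6 := signY s s' h3
    obtain ⟨h7, h8⟩ := idx_eq s.2.2.2 s'.2.2.2 (show s'.2.1.val * M + s'.2.2.val = s.2.1.val * M + s.2.2.val by omega)
    rcases s with ⟨b, j, m⟩
    rcases s' with ⟨b', j', m'⟩
    simp only at h6 h7 h8 ⊢
    rw [h6, Fin.ext h7, Fin.ext h8]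

/-- hub number -/
def hb (J : ℕ) (σ x : ℕ) : Fin (2 * (J + 4)) := ⟨(2 * x + σ) % (2 * (J + 4)), Nat.mod_lt _ (by omega)⟩

lemma hb_eq {J : ℕ} (a : Fin (2 * (J + 4))) (σ x : ℕ) (h1 : a.val % 2 = σ) (h2 : a.val / 2 = x) :
    hb J σ x = a := by
  apply Fin.ext
  simp only [hb]
  have := a.2
  rw [Nat.mod_eq_of_lt] <;> omega

/-- inner offsets -/
def T0 : Finset (Fin 5 × Fin 5) := Finset.univ.filter (fun t => t.1 < t.2)

/-- outer offsets -/
def T1 : Finset (Fin 5 × Fin 5 × Fin 5) :=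
  Finset.univ.filter (fun t => 0 < t.1.val ∧ t.1.val + t.2.1.val < t.2.2.val)

lemma card_T0 : T0.card = 10 := by decide +kernel
lemma card_T1 : T1.card = 10 := by decide +kernel

/-- ordered pairs -/
def PM (M : ℕ) : Finset (Fin M × Fin M) := Finset.univ.filter (fun t => t.1 < t.2)

lemma card_PM (M : ℕ) : 2 * (PM M).card ≤ M * M := by
  have h1 : ((PM M).image Prod.swap).card = (PM M).card :=
    Finset.card_image_of_injective _ Prod.swap_injective
  have hd : Disjoint (PM M) ((PM M).image Prod.swap) := by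
    rw [Finset.disjoint_left]
    rintro ⟨a, b⟩ h h'
    simp only [PM, Finset.mem_filter, Finset.mem_univ, true_and, Finset.mem_image, Prod.exists,
      Prod.swap_prod_mk, Prod.mk.injEq] at h h'
    obtain ⟨c, d, h2, h3, h4⟩ := h'
    rw [h3, h4] at h2
    exact absurd h (not_lt.mpr h2.le)
  have h2 := Finset.card_le_univ (PM M ∪ (PM M).image Prod.swap)
  rw [Finset.card_union_of_disjoint hd, h1, Fintype.card_prod, Fintype.card_fin] at h2
  omega

/-- crossings inside a class -/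
def Z0 (J M : ℕ) : Finset (Sym2 (Sym2 (Fin (2 * (J + 4)) ⊕ St J M))) :=
  (((Finset.univ : Finset (Fin 2 × Bool × Fin J)) ×ˢ T0) ×ˢ PM M).image (fun x =>
    s(s(Sum.inl (hb J x.1.1.1.val (x.1.1.2.2.val + x.1.2.1.val)), Sum.inr (x.1.1.2.1, x.1.1.2.2, x.2.2)),
      s(Sum.inl (hb J x.1.1.1.val (x.1.1.2.2.val + x.1.2.2.val)), Sum.inr (x.1.1.2.1, x.1.1.2.2, x.2.1))))

/-- crossings between classes -/
def Z1 (J M : ℕ) (hJ : 0 < J) : Finset (Sym2 (Sym2 (Fin (2 * (J + 4)) ⊕ St J M))) :=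
  (((Finset.univ : Finset (Fin 2 × Bool × Fin J)) ×ˢ T1) ×ˢ
    (Finset.univ : Finset (Fin M × Fin M))).image (fun x =>
    s(s(Sum.inl (hb J x.1.1.1.val (x.1.1.2.2.val + x.1.2.1.val + x.1.2.2.1.val)),
        Sum.inr (x.1.1.2.1, ⟨(x.1.1.2.2.val + x.1.2.1.val) % J, Nat.mod_lt _ hJ⟩, x.2.1)),
      s(Sum.inl (hb J x.1.1.1.val (x.1.1.2.2.val + x.1.2.2.2.val)),
        Sum.inr (x.1.1.2.1, x.1.1.2.2, x.2.2))))

lemma card_Z0 (J M : ℕ) : (Z0 J M).card ≤ 4 * J * 10 * (PM M).card := by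
  refine Finset.card_image_le.trans ?_
  rw [Finset.card_product, Finset.card_product, card_T0, Finset.card_univ, Fintype.card_prod,
    Fintype.card_prod, Fintype.card_fin, Fintype.card_fin, Fintype.card_bool]
  apply le_of_eq; ring

lemma card_Z1 (J M : ℕ) (hJ : 0 < J) : (Z1 J M hJ).card ≤ 4 * J * 10 * (M * M) := by
  refine Finset.card_image_le.trans ?_
  rw [Finset.card_product, Finset.card_product, card_T1, Finset.card_univ, Finset.card_univ,
    Fintype.card_prod, Fintype.card_prod, Fintype.card_prod, Fintype.card_fin, Fintype.card_fin,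
    Fintype.card_fin, Fintype.card_bool]
  apply le_of_eq; ring

theorem upper (J M : ℕ) (hJ : 0 < J) : crossingNumber (L J M) ≤ 60 * J * (M * M) := by
  classical
  have h := axis_le (ok J M) (L_le J M) (Z0 J M ∪ Z1 J M hJ) (by
    rintro a ⟨b, j, m⟩ a' ⟨b', j', m'⟩ g g' hx hy hax hay
    rw [L_adj] at g g'
    have e1 := signX a a' hx
    have e2 := signY _ _ hy
    rw [absX, absX] at hax
    rw [absY, absY] at hay
    have e3 : a.val / 2 + 1 < a'.val / 2 + 1 := by exact_mod_cast hax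
    have e4 : j'.val * M + m'.val + 1 < j.val * M + m.val + 1 := by exact_mod_cast hay
    simp only at e2 g g'
    subst e2
    have hja := a.2
    rcases idx_lt m.2 (show j'.val * M + m'.val < j.val * M + m.val by omega) with h1 | ⟨h1, h2⟩
    · refine Finset.mem_union_right _ (Finset.mem_image.mpr
        ⟨(((⟨a.val % 2, Nat.mod_lt _ (by norm_num)⟩, b, j'),
          (⟨j.val - j'.val, by omega⟩, ⟨a.val / 2 - j.val, by omega⟩, ⟨a'.val / 2 - j'.val, by omega⟩)),
          (m, m')), ?_, ?_⟩)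
      · simp only [Finset.mem_product, Finset.mem_univ, true_and, and_true, T1, Finset.mem_filter]
        omega
      · simp only
        rw [hb_eq a (a.val % 2) _ rfl (by omega), hb_eq a' (a.val % 2) _ e1.symm (by omega)]
        have : (⟨(j'.val + (j.val - j'.val)) % J, Nat.mod_lt _ hJ⟩ : Fin J) = j := by
          apply Fin.ext
          simp only
          rw [Nat.mod_eq_of_lt] <;> omega
        rw [this]
    · have h3 : j' = j := Fin.ext h1
      subst h3
      refine Finset.mem_union_left _ (Finset.mem_image.mpr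
        ⟨(((⟨a.val % 2, Nat.mod_lt _ (by norm_num)⟩, b, j'),
          (⟨a.val / 2 - j'.val, by omega⟩, ⟨a'.val / 2 - j'.val, by omega⟩)),
          (m', m)), ?_, ?_⟩)
      · simp only [Finset.mem_product, Finset.mem_univ, true_and, T0, PM, Finset.mem_filter, Fin.mk_lt_mk]
        exact ⟨by omega, h2⟩
      · simp only
        rw [hb_eq a (a.val % 2) _ rfl (by omega), hb_eq a' (a.val % 2) _ e1.symm (by omega)])
  have h2 := (Finset.card_union_le (Z0 J M) (Z1 J M hJ)).trans
    (add_le_add (card_Z0 J M) (card_Z1 J M hJ))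
  have h3 := card_PM M
  have h4 : 4 * J * 10 * (PM M).card = 20 * J * (2 * (PM M).card) := by ring
  have h5 : 20 * J * (2 * (PM M).card) ≤ 20 * J * (M * M) := Nat.mul_le_mul_left _ h3
  calc crossingNumber (L J M) ≤ _ := h
    _ ≤ _ := h2
    _ ≤ 20 * J * (M * M) + 4 * J * 10 * (M * M) := by omega
    _ = 60 * J * (M * M) := by ring

theorem lower (J M : ℕ) (k : ℕ) (G₁ G₂ : SimpleGraph (Fin (2 * (J + 4)) ⊕ St J M))
    (h : G₁ ⊔ G₂ = L J M) :
    k * (6 * (2 * (J * M))) ≤ crossingNumber G₁ + crossingNumber G₂ + 2 * (k * (k + 1) * (2 * J + 6)) := by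
  have := two_planes' (p := 2 * (J + 4)) (by omega) (L J M) G₁ G₂ (L_le J M) h 10 (by
    intro s
    refine ⟨(Finset.univ : Finset (Fin 10)).map ⟨fun i => (⟨2 * s.2.1.val + i.val, by
      have := s.2.1.2; omega⟩ : Fin (2 * (J + 4))), fun i i' hii => by
        simp only [Fin.mk.injEq] at hii
        exact Fin.ext (by omega)⟩, by simp, ?_⟩
    intro a ha
    simp only [Finset.mem_map, Finset.mem_univ, true_and] at ha
    obtain ⟨i, rfl⟩ := ha
    rw [L_adj]
    change s.2.1.val ≤ (2 * s.2.1.val + i.val) / 2 ∧ (2 * s.2.1.val + i.val) / 2 ≤ s.2.1.val + 4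
    have := i.2
    constructor <;> omega) k
  rw [Fintype.card_prod, Fintype.card_prod, Fintype.card_fin, Fintype.card_fin, Fintype.card_bool] at this
  have e : 2 * (J + 4) - 2 = 2 * J + 6 := by omega
  rw [e] at this
  exact this

/-- every constant comparing the biplanar crossing number with the crossing number is at least
`3/20` -/
theorem three_twentieths (c : ℝ)
    (hc : ∀ (V : Type) [Fintype V] (G : SimpleGraph V),
      (biplanarCrossingNumber G : ℝ) ≤ c * crossingNumber G) : 3 / 20 ≤ c := by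
  by_contra hlt
  push Not at hlt
  -- `c` is nonnegative
  have hmain : ∀ J N : ℕ, 0 < J → 0 < N →
      (18 * (J : ℝ) - 6 / N) / (120 * ((J : ℝ) + 3)) ≤ max c 0 := by
    intro J N hJ hN
    obtain ⟨G₁, G₂, h, -, he⟩ := biplanar_attained (L J ((2 * J + 6) * N))
    have h1 := lower J ((2 * J + 6) * N) (3 * N * J) G₁ G₂ h
    rw [← he] at h1
    have h2 := upper J ((2 * J + 6) * N) hJ
    have h3 := hc _ (L J ((2 * J + 6) * N))
    have hJ' : (0 : ℝ) < J := by exact_mod_cast hJ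
    have hN' : (0 : ℝ) < N := by exact_mod_cast hN
    have h1' : ((3 * N * J : ℕ) : ℝ) * (6 * (2 * ((J : ℝ) * (((2 * J + 6) * N : ℕ) : ℝ)))) ≤
        (biplanarCrossingNumber (L J ((2 * J + 6) * N)) : ℝ) +
          2 * (((3 * N * J : ℕ) : ℝ) * (((3 * N * J : ℕ) : ℝ) + 1) * (2 * (J : ℝ) + 6)) := by
      exact_mod_cast h1
    have h2' : (crossingNumber (L J ((2 * J + 6) * N)) : ℝ) ≤
        60 * (J : ℝ) * ((((2 * J + 6) * N : ℕ) : ℝ) * (((2 * J + 6) * N : ℕ) : ℝ)) := by
      exact_mod_cast h2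
    have h4 : (crossingNumber (L J ((2 * J + 6) * N)) : ℝ) * c ≤
        60 * (J : ℝ) * ((((2 * J + 6) * N : ℕ) : ℝ) * (((2 * J + 6) * N : ℕ) : ℝ)) * max c 0 := by
      calc (crossingNumber (L J ((2 * J + 6) * N)) : ℝ) * c
          ≤ (crossingNumber (L J ((2 * J + 6) * N)) : ℝ) * max c 0 :=
            mul_le_mul_of_nonneg_left (le_max_left _ _) (Nat.cast_nonneg _)
        _ ≤ _ := mul_le_mul_of_nonneg_right h2' (le_max_right _ _)
    push_cast at h1' h4
    rw [div_le_iff₀ (by positivity)]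
    have h5 : (0 : ℝ) < (J : ℝ) * (2 * J + 6) * N * N := by positivity
    have e6 : 6 / (N : ℝ) * N = 6 := by field_simp
    have h7 : ((18 * (J : ℝ) - 6 / N)) * ((J : ℝ) * (2 * J + 6) * N * N) ≤
        (max c 0 * (120 * ((J : ℝ) + 3))) * ((J : ℝ) * (2 * J + 6) * N * N) := by
      have e8 : ((18 * (J : ℝ) - 6 / N)) * ((J : ℝ) * (2 * J + 6) * N * N) =
          18 * J * J * (2 * J + 6) * N * N - 6 * (J * (2 * J + 6) * N) := by
        linear_combination (-(J : ℝ) * (2 * J + 6) * N) * e6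
      rw [e8]
      nlinarith [h1', h3, h4]
    exact le_of_mul_le_mul_right h7 h5
  have hlim : ∀ J : ℕ, 0 < J → 18 * (J : ℝ) / (120 * ((J : ℝ) + 3)) ≤ max c 0 := by
    intro J hJ
    have hJ' : (0 : ℝ) < J := by exact_mod_cast hJ
    refine le_of_tendsto (f := fun N : ℕ => (18 * (J : ℝ) - 6 * (1 / (N : ℝ))) / (120 * ((J : ℝ) + 3)))
      (x := Filter.atTop) ?_ ?_
    · have h0 := tendsto_one_div_atTop_nhds_zero_nat (𝕜 := ℝ)
      have := ((tendsto_const_nhds (x := 18 * (J : ℝ))).sub (h0.const_mul 6)).div_const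
        (120 * ((J : ℝ) + 3))
      simpa using this
    · filter_upwards [Filter.eventually_ge_atTop 1] with N hN
      have := hmain J N hJ hN
      rw [mul_one_div]
      exact this
  have hfin : (3 : ℝ) / 20 ≤ max c 0 := by
    by_contra hcon
    push Not at hcon
    obtain ⟨J, hJ⟩ := exists_nat_gt (54 / (120 * (3 / 20 - max c 0)))
    have hpos : 0 < 120 * (3 / 20 - max c 0) := by linarith
    have h1 : 54 < (J : ℝ) * (120 * (3 / 20 - max c 0)) := by
      rwa [div_lt_iff₀ hpos] at hJ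
    have hJ0 : 0 < J := by
      rcases Nat.eq_zero_or_pos J with h | h
      · rw [h] at h1; norm_num at h1
      · exact h
    have h2 := hlim J hJ0
    have hJ' : (0 : ℝ) < J := by exact_mod_cast hJ0
    rw [div_le_iff₀ (by positivity)] at h2
    have h3 : 0 ≤ max c 0 := le_max_right _ _
    nlinarith
  rcases max_choice c 0 with h | h <;> rw [h] at hfin
  · linarith
  · norm_num at hfin

end H571R3.Ladder
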