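import Pool.Agent.H571R3.Act
set_option autoImplicit false
set_option linter.unusedSectionVars false
set_option linter.unusedVariables false
namespace H571R3
open Complex Real Set Filter Topology

noncomputable section

lemma glue {X : Type*} [TopologicalSpace X] {a b c : ℝ} (hab : a ≤ b) (hbc : b ≤ c) {f g : ℝ → X}
    (hf : ContinuousOn f (Icc a b)) (hg : ContinuousOn g (Icc b c)) (h : f b = g b) :
    ContinuousOn (fun t => if t ≤ b then f t else g t) (Icc a c) := by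
  have h1 : ContinuousOn (fun t => if t ≤ b then f t else g t) (Icc a b) :=
    hf.congr (fun t ht => if_pos ht.2)
  have h2 : ContinuousOn (fun t => if t ≤ b then f t else g t) (Icc b c) := by
    refine hg.congr (fun t ht => ?_)
    rcases ht.1.eq_or_lt with h3 | h3
    · simp only [← h3, le_refl, if_true]; exact h
    · exact if_neg (not_le.mpr h3)
  rw [← Icc_union_Icc_eq_Icc hab hbc]
  exact h1.union_of_isClosed h2 isClosed_Icc isClosed_Icc

variable {p : ℕ} [NeZero p]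

/-- local lift -/
lemma lift_local (hp : 3 ≤ p) {i : Fin p} {a b : ℝ} (hab : a ≤ b) {γ : ℝ → ℂ}
    (hγ : ContinuousOn γ (Icc a b)) (hO : ∀ t ∈ Icc a b, γ t ∈ OO p i) {g : List (Fin p)}
    (hg : Par g (γ a)) :
    ∃ w : ℝ → Dk, ContinuousOn w (Icc a b) ∧ w a = act hp g (PsD hp (γ a)) ∧
      ∀ t ∈ Icc a b, ∃ m : List (Fin p), (m = [] ∨ m = [i]) ∧ Par (g ++ m) (γ t) ∧
        w t = act hp (g ++ m) (PsD hp (γ t)) := by
  classical
  -- word used inside / outside the unit disc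
  let A : List (Fin p) := if Even g.length then [] else [i]
  let B : List (Fin p) := if Even g.length then [i] else []
  have hside : ∀ t ∈ Icc a b, ‖γ t‖ = 1 → act hp (g ++ A) (PsD hp (γ t)) = act hp (g ++ B) (PsD hp (γ t)) := by
    intro t ht h1
    have h2 : act hp [i] (PsD hp (γ t)) = PsD hp (γ t) := by
      rw [act_singleton]; exact Subtype.ext (r_Ps_of_OO hp (hO t ht) h1)
    rw [act_append, act_append, Equiv.Perm.mul_apply, Equiv.Perm.mul_apply]
    simp only [A, B]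
    split_ifs
    · rw [h2]; rfl
    · rw [h2]; rfl
  have hA : Even (g ++ A).length := by
    simp only [A]; split_ifs with h
    · simpa using h
    · rw [List.length_append, Nat.even_add]; simp [h]
  have hB : ¬ Even (g ++ B).length := by
    simp only [B]; split_ifs with h
    · rw [List.length_append, Nat.even_add]; simp [h]
    · simpa using h
  refine ⟨fun t => if ‖γ t‖ ≤ 1 then act hp (g ++ A) (PsD hp (γ t)) else act hp (g ++ B) (PsD hp (γ t)), ?_, ?_, ?_⟩
  · rw [continuousOn_iff_continuous_domRestrict] at hγ ⊢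
    have hPs : Continuous (fun t : Icc a b => PsD hp (γ t)) := (continuous_PsD hp).comp hγ
    refine Continuous.if_le ((continuous_act hp _).comp hPs) ((continuous_act hp _).comp hPs)
      (continuous_norm.comp hγ) continuous_const ?_
    intro t ht
    exact hside t.1 t.2 ht
  · have haa : a ∈ Icc a b := left_mem_Icc.mpr hab
    by_cases h1 : ‖γ a‖ ≤ 1
    · simp only [h1, if_true]
      by_cases he : Even g.length
      · simp [A, he]
      · have h2 : ‖γ a‖ = 1 := le_antisymm h1 (not_lt.mp (fun h => he (hg.1 h)))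
        rw [hside a haa h2]; simp [B, he]
    · simp only [h1, if_false]
      have he := hg.2 (not_le.mp h1)
      simp [B, he]
  · intro t ht
    by_cases h1 : ‖γ t‖ ≤ 1
    · refine ⟨A, ?_, ⟨fun _ => hA, fun h => absurd h (not_lt.mpr h1)⟩, by simp only [h1, if_true]⟩
      simp only [A]; split_ifs
      · left; rfl
      · right; rfl
    · refine ⟨B, ?_, ⟨fun h => absurd h.le h1, fun _ => hB⟩, by simp only [h1, if_false]⟩
      simp only [B]; split_ifs
      · right; rfl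
      · left; rfl

/-- the statement that a path has a lift on a set of times -/
def IsLift (hp : 3 ≤ p) (J : Set (Fin p)) (g : List (Fin p)) (γ : ℝ → ℂ) (w : ℝ → Dk) (t : ℝ) : Prop :=
  ∃ m : List (Fin p), (∀ i ∈ m, i ∈ J) ∧ Par (g ++ m) (γ t) ∧ w t = act hp (g ++ m) (PsD hp (γ t))

lemma lift_extend (hp : 3 ≤ p) {J : Set (Fin p)} {i : Fin p} (hi : i ∈ J) {a b c : ℝ} (hab : a ≤ b) (hbc : b ≤ c)
    {γ : ℝ → ℂ} (hγ : ContinuousOn γ (Icc b c)) (hO : ∀ t ∈ Icc b c, γ t ∈ OO p i) {g : List (Fin p)}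
    {w : ℝ → Dk} (hw : ContinuousOn w (Icc a b)) (hL : ∀ t ∈ Icc a b, IsLift hp J g γ w t) :
    ∃ w' : ℝ → Dk, ContinuousOn w' (Icc a c) ∧ (∀ t ≤ b, w' t = w t) ∧
      ∀ t ∈ Icc a c, IsLift hp J g γ w' t := by
  obtain ⟨m, hm1, hm2, hm3⟩ := hL b (right_mem_Icc.mpr hab)
  obtain ⟨w2, h1, h2, h3⟩ := lift_local hp hbc hγ hO hm2
  refine ⟨fun t => if t ≤ b then w t else w2 t, glue hab hbc hw h1 (by rw [hm3, h2]), fun t ht => if_pos ht, ?_⟩
  intro t ht
  by_cases htb : t ≤ b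
  · obtain ⟨m', a1, a2, a3⟩ := hL t ⟨ht.1, htb⟩
    exact ⟨m', a1, a2, by simp only [htb, if_true]; exact a3⟩
  · obtain ⟨m', a1, a2, a3⟩ := h3 t ⟨(not_le.mp htb).le, ht.2⟩
    refine ⟨m ++ m', ?_, by rwa [← List.append_assoc], by simp only [htb, if_false]; rw [a3, List.append_assoc]⟩
    intro j hj
    rcases List.mem_append.mp hj with hj | hj
    · exact hm1 j hj
    · rcases a1 with rfl | rfl
      · simp at hj
      · rw [List.mem_singleton.mp hj]; exact hi

lemma lift_compact (hp : 3 ≤ p) {J : Set (Fin p)} {a b c : ℝ} (hab : a ≤ b) (hbc : b ≤ c)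
    {γ : ℝ → ℂ} (hγ : ContinuousOn γ (Icc b c)) (hO : ∀ t ∈ Icc b c, ∃ i ∈ J, γ t ∈ OO p i) {g : List (Fin p)}
    {w : ℝ → Dk} (hw : ContinuousOn w (Icc a b)) (hL : ∀ t ∈ Icc a b, IsLift hp J g γ w t) :
    ∃ w' : ℝ → Dk, ContinuousOn w' (Icc a c) ∧ (∀ t ≤ b, w' t = w t) ∧
      ∀ t ∈ Icc a c, IsLift hp J g γ w' t := by
  have hγ' : Continuous (fun t : Icc b c => γ t) := continuousOn_iff_continuous_domRestrict.mp hγ
  obtain ⟨t, t0, tm, ⟨N, hN⟩, hc⟩ := exists_monotone_Icc_subset_open_cover_Icc hbc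
    (c := fun i : J => {t : Icc b c | γ t ∈ OO p i.1})
    (fun i => (isOpen_OO i.1).preimage hγ') (by
      intro t _
      obtain ⟨i, hi, h⟩ := hO t t.2
      exact mem_iUnion.mpr ⟨⟨i, hi⟩, h⟩)
  have key : ∀ n : ℕ, ∃ w' : ℝ → Dk, ContinuousOn w' (Icc a (t n)) ∧ (∀ s ≤ b, w' s = w s) ∧
      ∀ s ∈ Icc a (t n : ℝ), IsLift hp J g γ w' s := by
    intro n
    induction n with
    | zero => rw [t0]; exact ⟨w, hw, fun _ _ => rfl, hL⟩
    | succ n ih =>
      obtain ⟨w1, h1, h2, h3⟩ := ih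
      obtain ⟨i, hi⟩ := hc n
      have hle : (t n : ℝ) ≤ t (n + 1) := tm (Nat.le_succ n)
      have hbt : b ≤ (t n : ℝ) := (t n).2.1
      obtain ⟨w2, k1, k2, k3⟩ := lift_extend hp i.2 (hab.trans hbt) hle
        (hγ.mono (Icc_subset_Icc (t n).2.1 (t (n+1)).2.2))
        (fun s hs => hi (show (⟨s, ⟨hbt.trans hs.1, hs.2.trans (t (n+1)).2.2⟩⟩ : Icc b c) ∈ Icc (t n) (t (n+1)) from ⟨hs.1, hs.2⟩))
        h1 h3
      exact ⟨w2, k1, fun s hs => (k2 s (hs.trans hbt)).trans (h2 s hs), k3⟩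
  obtain ⟨w', h1, h2, h3⟩ := key N
  rw [hN N le_rfl] at h1 h3
  exact ⟨w', h1, h2, h3⟩

/-- lifting on a half open interval -/
lemma lift_halfopen (hp : 3 ≤ p) {J : Set (Fin p)} {a b : ℝ} (hab : a < b) {γ : ℝ → ℂ}
    (hγ : ContinuousOn γ (Ico a b)) (hO : ∀ t ∈ Ico a b, ∃ i ∈ J, γ t ∈ OO p i) {g : List (Fin p)}
    (hg : Par g (γ a)) :
    ∃ w : ℝ → Dk, ContinuousOn w (Ico a b) ∧ w a = act hp g (PsD hp (γ a)) ∧
      ∀ t ∈ Ico a b, IsLift hp J g γ w t := by
  classical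
  let c : ℕ → ℝ := fun n => b - (b - a) / (n + 1)
  have hba : 0 < b - a := by linarith
  have c0 : c 0 = a := by simp [c]
  have cmono : Monotone c := by
    intro m n hmn
    simp only [c]
    have h1 : (0:ℝ) < m + 1 := by positivity
    have h2 : (m:ℝ) + 1 ≤ n + 1 := by exact_mod_cast Nat.succ_le_succ hmn
    have := div_le_div_of_nonneg_left hba.le h1 h2
    linarith
  have clt : ∀ n, c n < b := by
    intro n; simp only [c]
    have : 0 < (b - a) / (n + 1) := by positivity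
    linarith
  have cex : ∀ t < b, ∃ n, t < c n := by
    intro t ht
    obtain ⟨n, hn⟩ := exists_nat_gt ((b - a) / (b - t))
    refine ⟨n, ?_⟩
    have h1 : 0 < b - t := by linarith
    simp only [c]
    rw [div_lt_iff₀ h1] at hn
    have h2 : (b - a) / (n + 1) < b - t := by
      rw [div_lt_iff₀ (by positivity)]; nlinarith
    linarith
  let St (n : ℕ) := {w : ℝ → Dk // ContinuousOn w (Icc a (c n)) ∧ ∀ t ∈ Icc a (c n), IsLift hp J g γ w t}
  have step : ∀ n (w : St n), ∃ w' : St (n + 1), ∀ t ≤ c n, w'.1 t = w.1 t := by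
    intro n w
    have h1 : a ≤ c n := by rw [← c0]; exact cmono (Nat.zero_le n)
    obtain ⟨w', k1, k2, k3⟩ := lift_compact hp h1 (cmono (Nat.le_succ n))
      (hγ.mono (fun t ht => ⟨h1.trans ht.1, ht.2.trans_lt (clt _)⟩))
      (fun t ht => hO t ⟨h1.trans ht.1, ht.2.trans_lt (clt _)⟩) w.2.1 w.2.2
    exact ⟨⟨w', k1, k3⟩, k2⟩
  choose nx hnx using step
  let w0' : St 0 := ⟨fun _ => act hp g (PsD hp (γ a)), continuousOn_const, by
    intro t ht
    rw [c0] at ht
    have : t = a := le_antisymm ht.2 ht.1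
    subst this
    exact ⟨[], by simp, by simpa using hg, by simp⟩⟩
  let W : (n : ℕ) → St n := fun n => Nat.rec w0' (fun n w => nx n w) n
  have hW : ∀ n, ∀ t ≤ c n, (W (n+1)).1 t = (W n).1 t := fun n t ht => hnx n (W n) t ht
  have hW' : ∀ n k, ∀ t ≤ c n, (W (n + k)).1 t = (W n).1 t := by
    intro n k t ht
    induction k with
    | zero => rfl
    | succ k ih => rw [← ih]; exact hW (n + k) t (ht.trans (cmono (Nat.le_add_right n k)))
  have hW2 : ∀ n m, ∀ t ≤ c n, t ≤ c m → (W n).1 t = (W m).1 t := by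
    intro n m t h1 h2
    rcases le_total n m with h | h
    · obtain ⟨k, rfl⟩ := Nat.exists_eq_add_of_le h
      exact (hW' n k t h1).symm
    · obtain ⟨k, rfl⟩ := Nat.exists_eq_add_of_le h
      exact hW' m k t h2
  let N : ℝ → ℕ := fun t => if h : ∃ n, t < c n then Nat.find h else 0
  have hN : ∀ t < b, t < c (N t) := by
    intro t ht
    have h := cex t ht
    simp only [N, h, dif_pos]
    exact Nat.find_spec h
  let w : ℝ → Dk := fun t => (W (N t)).1 t
  have hw : ∀ n, ∀ t < c n, w t = (W n).1 t := by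
    intro n t ht
    exact hW2 _ _ t (hN t (ht.trans (clt n))).le ht.le
  refine ⟨w, ?_, ?_, ?_⟩
  · intro t ht
    obtain ⟨n, hn⟩ := cex t ht.2
    have h1 : ContinuousWithinAt (W n).1 (Icc a (c n)) t := (W n).2.1 t ⟨ht.1, hn.le⟩
    have h2 : ContinuousWithinAt w (Icc a (c n) ∩ Iio (c n)) t := by
      refine (h1.mono inter_subset_left).congr (fun s hs => hw n s hs.2) (hw n t hn)
    have h3 : (Ico a b) ∩ Iio (c n) ⊆ Icc a (c n) ∩ Iio (c n) := by
      intro s hs; exact ⟨⟨hs.1.1, hs.2.le⟩, hs.2⟩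
    have h4 := h2.mono h3
    exact (continuousWithinAt_inter (Iio_mem_nhds hn)).mp h4
  · have h1 : w a = (W 0).1 a := hW2 _ _ a (hN a hab).le (by rw [c0])
    rw [h1]; rfl
  · intro t ht
    obtain ⟨n, hn⟩ := cex t ht.2
    obtain ⟨m, h1, h2, h3⟩ := (W n).2.2 t ⟨ht.1, hn.le⟩
    exact ⟨m, h1, h2, by rw [hw n t hn, h3]⟩

/-- horoballs, for words fixing the hub -/
lemma horo_act (hp : 3 ≤ p) (k : Fin p) {δ : ℝ} {z : Dk}
    (h : ‖z.1 - V p (k:ℕ)‖ ^ 2 ≤ δ * (1 - ‖z.1‖ ^ 2)) :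
    ∀ m : List (Fin p), (∀ i ∈ m, i ∈ ({k, prev p k} : Set (Fin p))) →
      ‖(act hp m z).1 - V p (k:ℕ)‖ ^ 2 ≤ δ * (1 - ‖(act hp m z).1‖ ^ 2) := by
  intro m
  induction m with
  | nil => intro _; exact h
  | cons i m ih =>
    intro hm
    have h1 := ih (fun j hj => hm j (List.mem_cons_of_mem _ hj))
    rw [act_cons, Equiv.Perm.mul_apply, R_coe]
    apply horo hp (act hp m z).2 (norm_V _) _ _ h1
    rcases hm i List.mem_cons_self with h2 | h2
    · rw [h2, V_sub_C, abs_of_pos (tau_pos hp)]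
    · rw [h2]; exact V_sub_C_prev hp k

def VD (k : Fin p) : Dk := ⟨V p (k:ℕ), (norm_V _).le⟩

/-- lifting of a leg -/
theorem lift_leg (hp : 3 ≤ p) {γ : ℝ → ℂ} (hγ : ContinuousOn γ (Icc 0 1)) (k : Fin p)
    (h1 : γ 1 = V p (k:ℕ)) (hh : ∀ t ∈ Ico (0:ℝ) 1, ¬ Hub p (γ t)) {g : List (Fin p)} (hg : Par g (γ 0)) :
    ∃ w : ℝ → Dk, ContinuousOn w (Icc 0 1) ∧ w 0 = act hp g (PsD hp (γ 0)) ∧
      (∀ t ∈ Ico (0:ℝ) 1, ∃ m, Par m (γ t) ∧ w t = act hp m (PsD hp (γ t))) ∧
      ∃ m, w 1 = act hp m (VD k) := by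
  obtain ⟨ε, hε, hnear⟩ := near_hub hp k
  -- choose a time after which the path is close to the hub
  have hev : ∀ᶠ t in 𝓝[Icc 0 1] (1:ℝ), ‖γ t - V p (k:ℕ)‖ < ε := by
    have h2 : ContinuousWithinAt (fun t => ‖γ t - V p (k:ℕ)‖) (Icc 0 1) 1 :=
      ((hγ 1 (by simp)).sub continuousWithinAt_const).norm
    rw [ContinuousWithinAt, h1, sub_self, norm_zero] at h2
    exact h2.eventually (gt_mem_nhds hε)
  rw [eventually_nhdsWithin_iff, Metric.eventually_nhds_iff] at hev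
  obtain ⟨η, hη, hball⟩ := hev
  set s : ℝ := max 0 (1 - η / 2) with hs
  have hs0 : 0 ≤ s := le_max_left _ _
  have hs1 : s < 1 := max_lt one_pos (by linarith)
  have hclose : ∀ t ∈ Ico s 1, ‖γ t - V p (k:ℕ)‖ < ε := by
    intro t ht
    have h3 : 1 - η / 2 ≤ t := (le_max_right _ _).trans ht.1
    apply hball
    · rw [Real.dist_eq, abs_lt]; constructor <;> linarith [ht.2]
    · exact ⟨hs0.trans ht.1, ht.2.le⟩
  -- phase 1
  have hp1 : ∀ t ∈ Icc (0:ℝ) s, ∃ i ∈ (univ : Set (Fin p)), γ t ∈ OO p i := by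
    intro t ht
    obtain ⟨i, hi⟩ := exists_OO hp (fun k hk => hh t ⟨ht.1, ht.2.trans_lt hs1⟩ ⟨k, hk⟩)
    exact ⟨i, mem_univ _, hi⟩
  obtain ⟨w1, a1, a2, a3⟩ := lift_compact hp (J := univ) (a := 0) (b := 0) (c := s) le_rfl hs0
    (hγ.mono (Icc_subset_Icc_right hs1.le)) hp1 (g := g) (w := fun _ => act hp g (PsD hp (γ 0)))
    continuousOn_const (by
      intro t ht
      have : t = 0 := le_antisymm ht.2 ht.1
      subst this
      exact ⟨[], by simp, by simpa using hg, by simp⟩)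
  obtain ⟨m1, -, b2, b3⟩ := a3 s (right_mem_Icc.mpr hs0)
  -- phase 2
  have hp2 : ∀ t ∈ Ico s 1, ∃ i ∈ ({k, prev p k} : Set (Fin p)), γ t ∈ OO p i := by
    intro t ht
    have hne : γ t ≠ V p (k:ℕ) := fun h => hh t ⟨hs0.trans ht.1, ht.2⟩ ⟨k, h⟩
    rcases (hnear (γ t) (hclose t ht) hne).1 with h | h
    · exact ⟨k, by simp, h⟩
    · exact ⟨prev p k, by simp, h⟩
  obtain ⟨w2, c1, c2, c3⟩ := lift_halfopen hp hs1 (hγ.mono (fun t ht => ⟨hs0.trans ht.1, ht.2.le⟩)) hp2 b2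
  -- the lift
  let w2' : ℝ → Dk := fun t => if t < 1 then w2 t else act hp (g ++ m1) (VD k)
  have hw2' : ContinuousOn w2' (Icc s 1) := by
    intro t ht
    rcases ht.2.lt_or_eq with h | h
    · have h2 : ContinuousWithinAt w2 (Ico s 1) t := c1 t ⟨ht.1, h⟩
      have h3 : ContinuousWithinAt w2' (Ico s 1) t := h2.congr (fun x hx => if_pos hx.2) (if_pos h)
      have h4 : ContinuousWithinAt w2' (Icc s 1 ∩ Iio 1) t := h3.mono (fun x hx => ⟨hx.1.1, hx.2⟩)
      exact (continuousWithinAt_inter (Iio_mem_nhds h)).mp h4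
    · subst h
      have hval : w2' 1 = act hp (g ++ m1) (VD k) := if_neg (lt_irrefl _)
      -- inner functions converge to the hub
      rw [ContinuousWithinAt, hval]
      have hcont := (continuous_act hp (g ++ m1)).tendsto (VD k)
      rw [Metric.tendsto_nhds_nhds] at hcont
      rw [Metric.tendsto_nhdsWithin_nhds]
      intro e he
      obtain ⟨d, hd, hdc⟩ := hcont e he
      obtain ⟨ε', hε', hhoro⟩ := near_horo hp k (δ := (d / 2) ^ 2) (by positivity)
      have h2 : ContinuousWithinAt (fun t => ‖γ t - V p (k:ℕ)‖) (Icc 0 1) 1 :=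
        ((hγ 1 (by simp)).sub continuousWithinAt_const).norm
      rw [ContinuousWithinAt, h1, sub_self, norm_zero, Metric.tendsto_nhdsWithin_nhds] at h2
      obtain ⟨η', hη', hb'⟩ := h2 ε' hε'
      refine ⟨η', hη', fun t ht hdt => ?_⟩
      rcases ht.2.lt_or_eq with h | h
      · have e1 : w2' t = w2 t := if_pos h
        obtain ⟨m, d1, d2, d3⟩ := c3 t ⟨ht.1, h⟩
        rw [e1, d3, act_append, Equiv.Perm.mul_apply]
        apply hdc
        have h5 := hb' (x := t) ⟨hs0.trans ht.1, ht.2⟩ hdt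
        rw [Real.dist_eq, sub_zero, abs_of_nonneg (norm_nonneg _)] at h5
        have h6 := horo_act hp k (z := PsD hp (γ t)) (hhoro (γ t) h5) m d1
        rw [Subtype.dist_eq, dist_eq_norm]
        have h7 : ‖(act hp m (PsD hp (γ t))).1 - V p (k:ℕ)‖ ^ 2 ≤ (d / 2) ^ 2 := by
          refine h6.trans ?_
          have : 0 ≤ ‖(act hp m (PsD hp (γ t))).1‖ ^ 2 := by positivity
          nlinarith [sq_nonneg (d / 2)]
        have h8 := abs_le_of_sq_le_sq h7 (by positivity)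
        rw [abs_of_nonneg (norm_nonneg _)] at h8
        show ‖(act hp m (PsD hp (γ t))).1 - V p (k:ℕ)‖ < d
        linarith
      · rw [h, hval, dist_self]; exact he
  refine ⟨fun t => if t ≤ s then w1 t else w2' t, glue hs0 hs1.le a1 hw2' ?_, ?_, ?_, ?_⟩
  · rw [b3]; simp only [w2', hs1, if_true]; rw [c2]
  · simp only [hs0, if_true]; exact a2 0 le_rfl
  · intro t ht
    by_cases h : t ≤ s
    · obtain ⟨m, -, e2, e3⟩ := a3 t ⟨ht.1, h⟩
      exact ⟨g ++ m, e2, by simp only [h, if_true]; exact e3⟩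
    · obtain ⟨m, -, e2, e3⟩ := c3 t ⟨(not_le.mp h).le, ht.2⟩
      refine ⟨g ++ m1 ++ m, e2, ?_⟩
      simp only [h, if_false, w2', ht.2, if_true]
      exact e3
  · exact ⟨g ++ m1, by simp only [not_le.mpr hs1, if_false, w2', lt_irrefl]⟩

end

end H571R3
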