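import Pool.Agent.H571R3.Seven2
set_option autoImplicit false

/-! Asymptotics of the biplanar crossing number of `K_(p,q)` for fixed `p`. -/

namespace H571R3.Limits

open Pool.Agent.Helper770.Crossing H571R3.Seven Filter Topology

/-- a quadratic lower bound, for every `p ≥ 5` -/
theorem lower_real (p : ℕ) (hp : 5 ≤ p) (q : ℕ) :
    ((p : ℝ) - 4) ^ 2 / (8 * ((p : ℝ) - 2)) * (q : ℝ) ^ 2 - ((p : ℝ) - 4) / 2 * q - 2 * ((p : ℝ) - 2) ≤
      (biplanarCrossingNumber (completeBipartiteGraph (Fin p) (Fin q)) : ℝ) := by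
  have hp5 : (5 : ℝ) ≤ p := by exact_mod_cast hp
  have hp2 : (0 : ℝ) < (p : ℝ) - 2 := by linarith
  set x : ℝ := ((p : ℝ) - 4) * q / (4 * ((p : ℝ) - 2)) with hx
  have hx0 : 0 ≤ x := by
    apply div_nonneg
    · exact mul_nonneg (by linarith) (Nat.cast_nonneg _)
    · linarith
  obtain ⟨k, hk⟩ : ∃ k, k = ⌊x⌋₊ := ⟨_, rfl⟩
  have hk1 : (k : ℝ) ≤ x := by rw [hk]; exact Nat.floor_le hx0
  have hk2 : x < k + 1 := by rw [hk]; exact Nat.lt_floor_add_one x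
  have h := biplanar_lower (p := p) (by omega) q k
  have h' : (k : ℝ) * (((p : ℝ) - 4) * q) ≤
      (biplanarCrossingNumber (completeBipartiteGraph (Fin p) (Fin q)) : ℝ) +
        2 * (k * (k + 1) * ((p : ℝ) - 2)) := by
    have h2 : ((p - 4 : ℕ) : ℝ) = (p : ℝ) - 4 := by rw [Nat.cast_sub (by omega)]; norm_num
    have h3 : ((p - 2 : ℕ) : ℝ) = (p : ℝ) - 2 := by rw [Nat.cast_sub (by omega)]; norm_num
    rw [← h2, ← h3]
    exact_mod_cast h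
  have hq : ((p : ℝ) - 4) * q = 4 * ((p : ℝ) - 2) * x := by
    rw [hx]; field_simp
  have e1 : ((p : ℝ) - 4) ^ 2 / (8 * ((p : ℝ) - 2)) * (q : ℝ) ^ 2 = 2 * ((p : ℝ) - 2) * x ^ 2 := by
    have : (((p : ℝ) - 4) * q) ^ 2 = (4 * ((p : ℝ) - 2) * x) ^ 2 := by rw [hq]
    field_simp
    nlinarith [this]
  have e2 : ((p : ℝ) - 4) / 2 * q = 2 * ((p : ℝ) - 2) * x := by linarith
  rw [e1, e2]
  rw [hq] at h'
  have h5 : (x - k) ^ 2 ≤ 1 := by
    have : 0 ≤ x - k := by linarith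
    have : x - k ≤ 1 := by linarith
    nlinarith
  have h6 : 2 * ((p : ℝ) - 2) * ((x - k) ^ 2) ≤ 2 * ((p : ℝ) - 2) * 1 :=
    mul_le_mul_of_nonneg_left h5 (by linarith)
  have h7 : 2 * ((p : ℝ) - 2) * (k : ℝ) ≤ 2 * ((p : ℝ) - 2) * x :=
    mul_le_mul_of_nonneg_left hk1 (by linarith)
  nlinarith [h', h6, h7]

theorem upper6 (q : ℕ) :
    (biplanarCrossingNumber (completeBipartiteGraph (Fin 6) (Fin q)) : ℝ) ≤ 1 / 8 * (q : ℝ) ^ 2 := by
  have h := Pool.Agent.H678R3.BipUpper.upper6 q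
  have h1 : ((2 * (q / 8) * (q - 4 * (q / 8) - 4) : ℕ) : ℝ) ≤ 1 / 8 * (q : ℝ) ^ 2 := by
    have h2 : 2 * (q / 8) * (q - 4 * (q / 8) - 4) ≤ 2 * (q / 8) * (q - 4 * (q / 8)) :=
      Nat.mul_le_mul_left _ (by omega)
    have h3 : ((2 * (q / 8) * (q - 4 * (q / 8)) : ℕ) : ℝ) = 2 * ((q / 8 : ℕ) : ℝ) * ((q : ℝ) - 4 * ((q / 8 : ℕ) : ℝ)) := by
      push_cast [Nat.cast_sub (show 4 * (q / 8) ≤ q by omega)]
      ring
    have h4 : ((2 * (q / 8) * (q - 4 * (q / 8) - 4) : ℕ) : ℝ) ≤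
        ((2 * (q / 8) * (q - 4 * (q / 8)) : ℕ) : ℝ) := by exact_mod_cast h2
    rw [h3] at h4
    nlinarith [sq_nonneg ((q : ℝ) - 8 * ((q / 8 : ℕ) : ℝ))]
  have h2 : (biplanarCrossingNumber (completeBipartiteGraph (Fin 6) (Fin q)) : ℝ) ≤
      ((2 * (q / 8) * (q - 4 * (q / 8) - 4) : ℕ) : ℝ) := by exact_mod_cast h
  exact h2.trans h1

theorem upper8 (q : ℕ) :
    (biplanarCrossingNumber (completeBipartiteGraph (Fin 8) (Fin q)) : ℝ) ≤ 1 / 3 * (q : ℝ) ^ 2 := by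
  have h := Pool.Agent.H678R3.BipUpper.upper8 q
  have h1 : ((4 * (q / 6) * (q - 3 * (q / 6) - 3) : ℕ) : ℝ) ≤ 1 / 3 * (q : ℝ) ^ 2 := by
    have h2 : 4 * (q / 6) * (q - 3 * (q / 6) - 3) ≤ 4 * (q / 6) * (q - 3 * (q / 6)) :=
      Nat.mul_le_mul_left _ (by omega)
    have h3 : ((4 * (q / 6) * (q - 3 * (q / 6)) : ℕ) : ℝ) = 4 * ((q / 6 : ℕ) : ℝ) * ((q : ℝ) - 3 * ((q / 6 : ℕ) : ℝ)) := by
      push_cast [Nat.cast_sub (show 3 * (q / 6) ≤ q by omega)]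
      ring
    have h4 : ((4 * (q / 6) * (q - 3 * (q / 6) - 3) : ℕ) : ℝ) ≤
        ((4 * (q / 6) * (q - 3 * (q / 6)) : ℕ) : ℝ) := by exact_mod_cast h2
    rw [h3] at h4
    nlinarith [sq_nonneg ((q : ℝ) - 6 * ((q / 6 : ℕ) : ℝ))]
  have h2 : (biplanarCrossingNumber (completeBipartiteGraph (Fin 8) (Fin q)) : ℝ) ≤
      ((4 * (q / 6) * (q - 3 * (q / 6) - 3) : ℕ) : ℝ) := by exact_mod_cast h
  exact h2.trans h1

theorem upper7 (q : ℕ) :
    (biplanarCrossingNumber (completeBipartiteGraph (Fin 7) (Fin q)) : ℝ) ≤ 9 / 40 * (q : ℝ) ^ 2 + 1 := by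
  have h := seven_le q
  have h1 : (biplanarCrossingNumber (completeBipartiteGraph (Fin 7) (Fin q)) : ℝ) ≤
      ((3 * q / 20 : ℕ) : ℝ) * (3 * (q : ℝ) - 10 * ((3 * q / 20 : ℕ) : ℝ) - 10) + 1 := by
    have h2 := (Int.cast_le (R := ℝ)).mpr h
    rw [Int.cast_add, Int.cast_mul, Int.cast_sub, Int.cast_sub, Int.cast_mul, Int.cast_mul,
      Int.cast_natCast, Int.cast_natCast, Int.cast_natCast] at h2
    norm_num at h2 ⊢
    exact h2
  have h0 : (0 : ℝ) ≤ ((3 * q / 20 : ℕ) : ℝ) := Nat.cast_nonneg _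
  nlinarith [sq_nonneg (3 * (q : ℝ) - 20 * ((3 * q / 20 : ℕ) : ℝ))]

lemma squeeze (f : ℕ → ℝ) (c a b e : ℝ) (hl : ∀ q : ℕ, c * (q : ℝ) ^ 2 - a * q - b ≤ f q)
    (hu : ∀ q : ℕ, f q ≤ c * (q : ℝ) ^ 2 + e) :
    Tendsto (fun q : ℕ => f q / (q : ℝ) ^ 2) atTop (𝓝 c) := by
  have h1 : Tendsto (fun q : ℕ => c - a * (1 / (q : ℝ)) - b * (1 / (q : ℝ)) ^ 2) atTop (𝓝 c) := by
    have h0 : Tendsto (fun q : ℕ => 1 / (q : ℝ)) atTop (𝓝 0) := tendsto_one_div_atTop_nhds_zero_nat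
    have := (tendsto_const_nhds (x := c)).sub (h0.const_mul a) |>.sub ((h0.pow 2).const_mul b)
    simpa using this
  have h2 : Tendsto (fun q : ℕ => c + e * (1 / (q : ℝ)) ^ 2) atTop (𝓝 c) := by
    have h0 : Tendsto (fun q : ℕ => 1 / (q : ℝ)) atTop (𝓝 0) := tendsto_one_div_atTop_nhds_zero_nat
    have := (tendsto_const_nhds (x := c)).add ((h0.pow 2).const_mul e)
    simpa using this
  refine tendsto_of_tendsto_of_tendsto_of_le_of_le' h1 h2 ?_ ?_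
  · filter_upwards [eventually_ge_atTop 1] with q hq
    have hq0 : (0 : ℝ) < q := by exact_mod_cast hq
    rw [le_div_iff₀ (by positivity)]
    have := hl q
    have e1 : (c - a * (1 / (q : ℝ)) - b * (1 / (q : ℝ)) ^ 2) * (q : ℝ) ^ 2 = c * (q : ℝ) ^ 2 - a * q - b := by
      field_simp
    rw [e1]; exact this
  · filter_upwards [eventually_ge_atTop 1] with q hq
    have hq0 : (0 : ℝ) < q := by exact_mod_cast hq
    rw [div_le_iff₀ (by positivity)]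
    have := hu q
    have e1 : (c + e * (1 / (q : ℝ)) ^ 2) * (q : ℝ) ^ 2 = c * (q : ℝ) ^ 2 + e := by
      field_simp
    rw [e1]; exact this

theorem limits (p : ℕ) (hp : p = 6 ∨ p = 7 ∨ p = 8) :
    Tendsto (fun q : ℕ => (biplanarCrossingNumber (completeBipartiteGraph (Fin p) (Fin q)) : ℝ) /
      (q : ℝ) ^ 2) atTop (𝓝 (((p : ℝ) - 4) ^ 2 / (8 * ((p : ℝ) - 2)))) := by
  apply squeeze _ _ (((p : ℝ) - 4) / 2) (2 * ((p : ℝ) - 2)) 1
  · intro q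
    exact lower_real p (by omega) q
  · intro q
    rcases hp with rfl | rfl | rfl
    · have := upper6 q
      norm_num at this ⊢
      linarith
    · have := upper7 q
      norm_num at this ⊢
      linarith
    · have := upper8 q
      norm_num at this ⊢
      linarith

end H571R3.Limits
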