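import Pool.Agent.Helper770.Blowup
set_option autoImplicit false

/-! Blow-ups of straight-line patterns with hubs and clusters, in one plane. -/

namespace H571R3.Pattern

open Pool.Agent.Helper770.Crossing Pool.Agent.Helper770.Straight Pool.Agent.Helper770.Blowup
  Pool.Agent.Helper770.Blowup.Data

/-- a blow-up pattern in one plane -/
structure Pat (p n m : ℕ) where
  /-- base vertex of a hub -/
  hub : Fin p → Fin m
  /-- base vertex of a cluster -/
  cl : Fin n → Fin m
  /-- the drawing -/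
  D : Data m
  /-- the legs -/
  A : Fin p → Fin n → Bool
  /-- crossings of legs of distinct clusters -/
  X : List ((Fin n × Fin n) × (Fin p × Fin p))
  /-- crossings of legs inside a cluster -/
  Y : List (Fin n × (Fin p × Fin p))

variable {p n m : ℕ}

/-- validity of a pattern -/
structure Pat.Valid (C : Pat p n m) : Prop where
  ok : C.D.Ok
  hm : 3 ≤ m
  hubinj : Function.Injective C.hub
  clinj : Function.Injective C.cl
  disj : ∀ h c, C.hub h ≠ C.cl c
  Xnd : C.X.Nodup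
  Ynd : C.Y.Nodup
  cross : ∀ h h' c c', h ≠ h' → c < c' → C.A h c = true → C.A h' c' = true →
    C.D.oz (C.hub h) (C.cl c) (C.hub h') * C.D.oz (C.hub h) (C.cl c) (C.cl c') < 0 →
    C.D.oz (C.hub h') (C.cl c') (C.hub h) * C.D.oz (C.hub h') (C.cl c') (C.cl c) < 0 →
    ((c, c'), (h, h')) ∈ C.X
  same : ∀ h h' c, h ≠ h' → C.A h c = true → C.A h' c = true →
    C.D.oz (C.hub h) (C.cl c) (C.hub h') * C.D.sz (C.cl c) (C.hub h) < 0 →
    C.D.oz (C.hub h) (C.cl c) (C.hub h') * C.D.sz (C.cl c) (C.hub h') < 0 →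
    (c, (h, h')) ∈ C.Y

/-- the blown-up graph; `ty` gives the cluster of each vertex -/
def Gr (C : Pat p n m) {q : ℕ} (ty : Fin q → Fin n) : SimpleGraph (Fin p ⊕ Fin q) where
  Adj x y := (∃ h k, x = Sum.inl h ∧ y = Sum.inr k ∧ C.A h (ty k) = true) ∨
    (∃ h k, y = Sum.inl h ∧ x = Sum.inr k ∧ C.A h (ty k) = true)
  symm := ⟨fun _ _ h => h.symm⟩
  loopless := ⟨fun x h => by
    rcases h with ⟨h, k, h1, h2, -⟩ | ⟨h, k, h1, h2, -⟩ <;> rw [h1] at h2 <;>
      exact Sum.inl_ne_inr h2⟩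

/-- the placement of the vertices in the blown-up drawing -/
def emb (C : Pat p n m) {q : ℕ} (ty : Fin q → Fin n) : Fin p ⊕ Fin q → Fin m × Fin (q + 1)
  | Sum.inl h => (C.hub h, 0)
  | Sum.inr k => (C.cl (ty k), k.castSucc)

lemma emb_inj {C : Pat p n m} (hC : C.Valid) {q : ℕ} (ty : Fin q → Fin n) :
    Function.Injective (emb C ty) := by
  rintro (h | k) (h' | k') e
  · simp only [emb, Prod.mk.injEq] at e
    rw [hC.hubinj e.1]
  · simp only [emb, Prod.mk.injEq] at e
    exact absurd e.1 (hC.disj _ _)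
  · simp only [emb, Prod.mk.injEq] at e
    exact absurd e.1.symm (hC.disj _ _)
  · simp only [emb, Prod.mk.injEq] at e
    have := Fin.castSucc_injective _ e.2
    rw [this]

/-- the vertices of a cluster -/
def F {q : ℕ} (ty : Fin q → Fin n) (c : Fin n) : Finset (Fin q) := Finset.univ.filter (fun k => ty k = c)

/-- the set of crossing pairs of edges -/
def SS (C : Pat p n m) {q : ℕ} (ty : Fin q → Fin n) : Finset (Sym2 (Sym2 (Fin p ⊕ Fin q))) :=
  (C.X.toFinset.biUnion (fun x => (F ty x.1.1 ×ˢ F ty x.1.2).image (fun kk =>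
    s(s(Sum.inl x.2.1, Sum.inr kk.1), s(Sum.inl x.2.2, Sum.inr kk.2))))) ∪
  (C.Y.toFinset.biUnion (fun x => ((F ty x.1 ×ˢ F ty x.1).filter (fun kk => kk.1 < kk.2)).image
    (fun kk => s(s(Sum.inl x.2.1, Sum.inr kk.1), s(Sum.inl x.2.2, Sum.inr kk.2)))))

lemma card_pairs_lt {q : ℕ} (S : Finset (Fin q)) :
    ((S ×ˢ S).filter (fun kk => kk.1 < kk.2)).card ≤ S.card.choose 2 := by
  rw [← Finset.card_powersetCard]
  apply Finset.card_le_card_of_injOn (fun kk => ({kk.1, kk.2} : Finset (Fin q)))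
  · rintro ⟨a, b⟩ hx
    simp only [Finset.coe_filter, Finset.mem_product, Set.mem_setOf_eq] at hx
    simp only [Finset.mem_coe, Finset.mem_powersetCard]
    refine ⟨?_, Finset.card_pair hx.2.ne⟩
    intro y hy
    simp only [Finset.mem_insert, Finset.mem_singleton] at hy
    rcases hy with rfl | rfl
    · exact hx.1.1
    · exact hx.1.2
  · rintro ⟨a, b⟩ hx ⟨c, d⟩ hy hxy
    simp only [Finset.coe_filter, Finset.mem_product, Set.mem_setOf_eq] at hx hy
    simp only at hxy
    have h1 : a ∈ ({c, d} : Finset (Fin q)) := by rw [← hxy]; simp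
    have h2 : b ∈ ({c, d} : Finset (Fin q)) := by rw [← hxy]; simp
    simp only [Finset.mem_insert, Finset.mem_singleton] at h1 h2
    rcases h1 with rfl | rfl <;> rcases h2 with rfl | rfl
    · exact absurd hx.2 (lt_irrefl _)
    · rfl
    · exact absurd hx.2 (not_lt.mpr hy.2.le)
    · exact absurd hx.2 (lt_irrefl _)

lemma card_SS {C : Pat p n m} (hC : C.Valid) {q : ℕ} (ty : Fin q → Fin n) :
    (SS C ty).card ≤ (C.X.map (fun x => (F ty x.1.1).card * (F ty x.1.2).card)).sum +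
      (C.Y.map (fun x => (F ty x.1).card.choose 2)).sum := by
  refine (Finset.card_union_le _ _).trans (add_le_add ?_ ?_)
  · rw [← List.sum_toFinset _ hC.Xnd]
    refine Finset.card_biUnion_le.trans (Finset.sum_le_sum fun x _ => ?_)
    exact Finset.card_image_le.trans (by rw [Finset.card_product])
  · rw [← List.sum_toFinset _ hC.Ynd]
    refine Finset.card_biUnion_le.trans (Finset.sum_le_sum fun x _ => ?_)
    exact Finset.card_image_le.trans (card_pairs_lt _)

lemma sign_neg {z1 z2 : ℤ} {o1 o2 : ℝ} (h1 : 0 < (z1 : ℝ) * o1) (h2 : 0 < (z2 : ℝ) * o2)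
    (h : o1 * o2 < 0) : z1 * z2 < 0 := by
  have h3 : 0 < ((z1 : ℝ) * z2) * (o1 * o2) := by
    have := mul_pos h1 h2
    nlinarith
  have h4 : (z1 : ℝ) * z2 < 0 := by
    by_contra hc
    push Not at hc
    nlinarith
  exact_mod_cast h4

lemma oz_rev (D : Data m) (a b c : Fin m) : D.oz c b a = - D.oz a b c := by
  simp only [oz]; ring

/-- crossings inside a cluster -/
lemma mem_same {C : Pat p n m} (hC : C.Valid) {q : ℕ} (ty : Fin q → Fin n)
    {P : Fin m × Fin (q + 1) → ℂ} (hP : Good C.D P) (h h' : Fin p) (k k' : Fin q)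
    (hh : h ≠ h') (hk : k < k') (hty : ty k = ty k')
    (hA : C.A h (ty k) = true) (hA' : C.A h' (ty k') = true)
    (c1 : ori (P (emb C ty (Sum.inl h))) (P (emb C ty (Sum.inr k)))
        (P (emb C ty (Sum.inl h'))) *
      ori (P (emb C ty (Sum.inl h))) (P (emb C ty (Sum.inr k)))
        (P (emb C ty (Sum.inr k'))) < 0)
    (c2 : ori (P (emb C ty (Sum.inl h'))) (P (emb C ty (Sum.inr k')))
        (P (emb C ty (Sum.inl h))) *
      ori (P (emb C ty (Sum.inl h'))) (P (emb C ty (Sum.inr k')))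
        (P (emb C ty (Sum.inr k))) < 0) :
    s(s(Sum.inl h, Sum.inr k), s(Sum.inl h', Sum.inr k')) ∈ SS C ty := by
  set c := ty k with hc
  have d1 : C.hub h ≠ C.cl c := hC.disj _ _
  have d3 : C.hub h ≠ C.hub h' := fun e => hh (hC.hubinj e)
  have d4 : C.hub h' ≠ C.cl c := hC.disj _ _
  have hk2 : k.castSucc < k'.castSucc := by simpa using hk
  have s1 := hP.one (C.hub h) (C.cl c) (C.hub h') 0 k.castSucc 0 d1 d3.symm d4
  have s2 := hP.two (C.cl c) (C.hub h) k.castSucc k'.castSucc 0 d1.symm hk2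
  have s3 := hP.one (C.hub h') (C.cl c) (C.hub h) 0 k'.castSucc 0 d4 d3 d1
  have s4 := hP.two (C.cl c) (C.hub h') k.castSucc k'.castSucc 0 d4.symm hk2
  have e1 : emb C ty (Sum.inr k') = (C.cl c, k'.castSucc) := by rw [hty]; rfl
  have e0 : emb C ty (Sum.inr k) = (C.cl c, k.castSucc) := rfl
  rw [e0, e1] at c1 c2
  have t1 := sign_neg s1 (show (0 : ℝ) < (C.D.sz (C.cl c) (C.hub h) : ℝ) * _ from by
    rw [← ori_rot]; exact s2) c1
  have t2 := sign_neg (z2 := -C.D.sz (C.cl c) (C.hub h')) s3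
    (show (0 : ℝ) < ((-C.D.sz (C.cl c) (C.hub h') : ℤ) : ℝ) * _ from by
    rw [← ori_rot, ori_swap]
    push_cast
    rw [neg_mul_neg]
    exact s4) c2
  rw [oz_rev, neg_mul_neg] at t2
  have hi := hC.same h h' c hh hA (by rw [hty]; exact hA') t1 t2
  refine Finset.mem_union_right _ ?_
  rw [Finset.mem_biUnion]
  refine ⟨(c, (h, h')), by simpa using hi, ?_⟩
  rw [Finset.mem_image]
  refine ⟨(k, k'), ?_, rfl⟩
  simp only [F, Finset.mem_filter, Finset.mem_product, Finset.mem_univ, true_and]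
  exact ⟨⟨hc.symm, hty.symm⟩, hk⟩

/-- crossings between clusters -/
lemma mem_cross {C : Pat p n m} (hC : C.Valid) {q : ℕ} (ty : Fin q → Fin n)
    {P : Fin m × Fin (q + 1) → ℂ} (hP : Good C.D P) (h h' : Fin p) (k k' : Fin q)
    (hh : h ≠ h') (hty : ty k < ty k')
    (hA : C.A h (ty k) = true) (hA' : C.A h' (ty k') = true)
    (c1 : ori (P (emb C ty (Sum.inl h))) (P (emb C ty (Sum.inr k)))
        (P (emb C ty (Sum.inl h'))) *
      ori (P (emb C ty (Sum.inl h))) (P (emb C ty (Sum.inr k)))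
        (P (emb C ty (Sum.inr k'))) < 0)
    (c2 : ori (P (emb C ty (Sum.inl h'))) (P (emb C ty (Sum.inr k')))
        (P (emb C ty (Sum.inl h))) *
      ori (P (emb C ty (Sum.inl h'))) (P (emb C ty (Sum.inr k')))
        (P (emb C ty (Sum.inr k))) < 0) :
    s(s(Sum.inl h, Sum.inr k), s(Sum.inl h', Sum.inr k')) ∈ SS C ty := by
  set c := ty k with hc
  set c' := ty k' with hc'
  have d1 : C.hub h ≠ C.cl c := hC.disj _ _
  have d2 : C.hub h' ≠ C.cl c' := hC.disj _ _
  have d3 : C.hub h ≠ C.hub h' := fun e => hh (hC.hubinj e)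
  have d4 : C.hub h' ≠ C.cl c := hC.disj _ _
  have d5 : C.hub h ≠ C.cl c' := hC.disj _ _
  have d6 : C.cl c ≠ C.cl c' := fun e => hty.ne (hC.clinj e)
  have s1 := hP.one (C.hub h) (C.cl c) (C.hub h') 0 k.castSucc 0 d1 d3.symm d4
  have s2 := hP.one (C.hub h) (C.cl c) (C.cl c') 0 k.castSucc k'.castSucc d1 d5.symm d6.symm
  have s3 := hP.one (C.hub h') (C.cl c') (C.hub h) 0 k'.castSucc 0 d2 d3 d5
  have s4 := hP.one (C.hub h') (C.cl c') (C.cl c) 0 k'.castSucc k.castSucc d2 d4.symm d6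
  have hi := hC.cross h h' c c' hh hty hA hA' (sign_neg s1 s2 c1) (sign_neg s3 s4 c2)
  refine Finset.mem_union_left _ ?_
  rw [Finset.mem_biUnion]
  refine ⟨((c, c'), (h, h')), by simpa using hi, ?_⟩
  rw [Finset.mem_image]
  refine ⟨(k, k'), ?_, rfl⟩
  simp only [F, Finset.mem_filter, Finset.mem_product, Finset.mem_univ, true_and]
  exact ⟨hc.symm, hc'.symm⟩

lemma mem_all {C : Pat p n m} (hC : C.Valid) {q : ℕ} (ty : Fin q → Fin n)
    {P : Fin m × Fin (q + 1) → ℂ} (hP : Good C.D P) (h h' : Fin p) (k k' : Fin q)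
    (hh : h ≠ h') (hk : k ≠ k')
    (hA : C.A h (ty k) = true) (hA' : C.A h' (ty k') = true)
    (c1 : ori (P (emb C ty (Sum.inl h))) (P (emb C ty (Sum.inr k)))
        (P (emb C ty (Sum.inl h'))) *
      ori (P (emb C ty (Sum.inl h))) (P (emb C ty (Sum.inr k)))
        (P (emb C ty (Sum.inr k'))) < 0)
    (c2 : ori (P (emb C ty (Sum.inl h'))) (P (emb C ty (Sum.inr k')))
        (P (emb C ty (Sum.inl h))) *
      ori (P (emb C ty (Sum.inl h'))) (P (emb C ty (Sum.inr k')))
        (P (emb C ty (Sum.inr k))) < 0) :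
    s(s(Sum.inl h, Sum.inr k), s(Sum.inl h', Sum.inr k')) ∈ SS C ty := by
  rcases lt_trichotomy (ty k) (ty k') with hlt | heq | hgt
  · exact mem_cross hC ty hP h h' k k' hh hlt hA hA' c1 c2
  · rcases lt_or_gt_of_ne hk with hlt | hlt
    · exact mem_same hC ty hP h h' k k' hh hlt heq hA hA' c1 c2
    · rw [Sym2.eq_swap]
      exact mem_same hC ty hP h' h k' k hh.symm hlt heq.symm hA' hA c2 c1
  · rw [Sym2.eq_swap]
    exact mem_cross hC ty hP h' h k' k hh.symm hgt hA' hA c2 c1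

lemma ori_prod_swap (a b c d : ℂ) : ori b a c * ori b a d = ori a b c * ori a b d := by
  rw [ori_swap a b c, ori_swap a b d]; ring

/-- the crossing number of a blown-up pattern -/
theorem crossing_Gr {C : Pat p n m} (hC : C.Valid) {q : ℕ} (ty : Fin q → Fin n) :
    crossingNumber (Gr C ty) ≤ (C.X.map (fun x => (F ty x.1.1).card * (F ty x.1.2).card)).sum +
      (C.Y.map (fun x => (F ty x.1).card.choose 2)).sum := by
  obtain ⟨P, hP⟩ := exists_good hC.ok (by have := hC.hm; omega) (q + 1)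
  have hgp0 := hP.genPos hC.hm
  have hinj := emb_inj hC ty
  have hgp : GenPos (fun x => P (emb C ty x)) :=
    ⟨hgp0.inj.comp hinj, fun x y z h1 h2 h3 => hgp0.gen _ _ _ (fun e => h1 (hinj e))
      (fun e => h2 (hinj e)) (fun e => h3 (hinj e))⟩
  have key := ncard_le (G := Gr C ty) hgp (SS C ty) (by
    intro x y z w hxy hzw n1 n2 n3 n4 n5 n6 c1 c2
    rcases hxy with ⟨h, k, rfl, rfl, hA⟩ | ⟨h, k, rfl, rfl, hA⟩ <;>
    rcases hzw with ⟨h', k', rfl, rfl, hA'⟩ | ⟨h', k', rfl, rfl, hA'⟩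
    · exact mem_all hC ty hP h h' k k' (fun e => n2 (by rw [e])) (fun e => n5 (by rw [e]))
        hA hA' c1 c2
    · rw [Sym2.eq_swap (a := Sum.inr k')]
      refine mem_all hC ty hP h h' k k' (fun e => n3 (by rw [e])) (fun e => n4 (by rw [e]))
        hA hA' ?_ ?_
      · rw [mul_comm]; exact c1
      · rw [ori_prod_swap] at c2; exact c2
    · rw [Sym2.eq_swap (a := Sum.inr k)]
      refine mem_all hC ty hP h h' k k' (fun e => n4 (by rw [e])) (fun e => n3 (by rw [e]))
        hA hA' ?_ ?_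
      · rw [ori_prod_swap] at c1; exact c1
      · rw [mul_comm]; exact c2
    · rw [Sym2.eq_swap (a := Sum.inr k), Sym2.eq_swap (a := Sum.inr k')]
      refine mem_all hC ty hP h h' k k' (fun e => n5 (by rw [e])) (fun e => n2 (by rw [e]))
        hA hA' ?_ ?_
      · rw [ori_prod_swap, mul_comm] at c1; exact c1
      · rw [ori_prod_swap, mul_comm] at c2; exact c2)
  exact (crossingNumber_le _ key.1).trans (key.2.trans (card_SS hC ty))

end H571R3.Pattern
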