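import Pool.Agent.H571R3.Seven2
set_option autoImplicit false

/-! Self-complementary optimal biplanar drawings of `K_(6,q)`, `K_(7,q)` and `K_(8,q)`. -/

namespace H571R3.SelfCompl

open Pool.Agent.Helper770.Crossing

/-- `G` has a self-complementary optimal biplanar drawing: its edges can be partitioned into two
isomorphic spanning subgraphs whose crossing numbers add up to the biplanar crossing number. -/
def SelfComplementaryOptimal {V : Type} (G : SimpleGraph V) : Prop :=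
  ∃ G₁ G₂ : SimpleGraph V, G₁ ⊔ G₂ = G ∧ Disjoint G₁ G₂ ∧ Nonempty (G₁ ≃g G₂) ∧
    crossingNumber G₁ + crossingNumber G₂ = biplanarCrossingNumber G

/-- the two planes of a pattern of helper 678 -/
lemma sup_disj {p n r : ℕ} (C : Pool.Agent.H678R3.BipUpper.Cfg p n r) (hn : 0 < n) (q : ℕ) :
    Pool.Agent.H678R3.BipUpper.Gr C hn q true ⊔ Pool.Agent.H678R3.BipUpper.Gr C hn q false =
      completeBipartiteGraph (Fin p) (Fin q) ∧
    Disjoint (Pool.Agent.H678R3.BipUpper.Gr C hn q true)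
      (Pool.Agent.H678R3.BipUpper.Gr C hn q false) := by
  constructor
  · ext x y
    simp only [SimpleGraph.sup_adj, completeBipartiteGraph_adj]
    constructor
    · rintro ((⟨h, k, rfl, rfl, -⟩ | ⟨h, k, rfl, rfl, -⟩) | (⟨h, k, rfl, rfl, -⟩ | ⟨h, k, rfl, rfl, -⟩)) <;>
        simp
    · rintro (⟨hx, hy⟩ | ⟨hx, hy⟩)
      · obtain ⟨h, rfl⟩ := Sum.isLeft_iff.mp hx
        obtain ⟨k, rfl⟩ := Sum.isRight_iff.mp hy
        cases hb : C.A h (Pool.Agent.H678R3.BipUpper.cls hn k)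
        · exact Or.inr (Or.inl ⟨h, k, rfl, rfl, hb⟩)
        · exact Or.inl (Or.inl ⟨h, k, rfl, rfl, hb⟩)
      · obtain ⟨k, rfl⟩ := Sum.isRight_iff.mp hx
        obtain ⟨h, rfl⟩ := Sum.isLeft_iff.mp hy
        cases hb : C.A h (Pool.Agent.H678R3.BipUpper.cls hn k)
        · exact Or.inr (Or.inr ⟨h, k, rfl, rfl, hb⟩)
        · exact Or.inl (Or.inr ⟨h, k, rfl, rfl, hb⟩)
  · rw [disjoint_iff]
    ext x y
    simp only [SimpleGraph.inf_adj, SimpleGraph.bot_adj, iff_false, not_and]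
    rintro (⟨h, k, rfl, rfl, hb⟩ | ⟨h, k, rfl, rfl, hb⟩) (⟨h', k', e1, e2, hb'⟩ | ⟨h', k', e1, e2, hb'⟩)
    · rw [← Sum.inl.inj e1, ← Sum.inr.inj e2, hb] at hb'
      exact Bool.noConfusion hb'
    · exact Sum.inl_ne_inr e1.symm
    · exact Sum.inl_ne_inr e1.symm
    · rw [← Sum.inl.inj e1, ← Sum.inr.inj e2, hb] at hb'
      exact Bool.noConfusion hb'

/-- the isomorphism of the two planes -/
lemma iso_planes {p n r : ℕ} (C : Pool.Agent.H678R3.BipUpper.Cfg p n r) (hn : 0 < n) (q : ℕ)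
    (e : Fin p ≃ Fin p) (he : ∀ h c, C.A (e h) c = !C.A h c) :
    Nonempty (Pool.Agent.H678R3.BipUpper.Gr C hn q true ≃g
      Pool.Agent.H678R3.BipUpper.Gr C hn q false) := by
  refine ⟨⟨Equiv.sumCongr e (Equiv.refl _), ?_⟩⟩
  rintro (h | k) (h' | k') <;>
    simp [Pool.Agent.H678R3.BipUpper.Gr, he]

lemma close {V : Type} (G G₁ G₂ : SimpleGraph V) (h1 : G₁ ⊔ G₂ = G) (h2 : Disjoint G₁ G₂)
    (h3 : Nonempty (G₁ ≃g G₂))
    (h4 : crossingNumber G₁ + crossingNumber G₂ ≤ biplanarCrossingNumber G) :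
    SelfComplementaryOptimal G :=
  ⟨G₁, G₂, h1, h2, h3, le_antisymm h4 (Nat.sInf_le ⟨G₁, G₂, h1, h2, rfl⟩)⟩

/-- antipodes of the octahedron -/
def e6 : Fin 6 ≃ Fin 6 where
  toFun h := ⟨(h.val + 1 - 2 * (h.val % 2)) % 6, Nat.mod_lt _ (by norm_num)⟩
  invFun h := ⟨(h.val + 1 - 2 * (h.val % 2)) % 6, Nat.mod_lt _ (by norm_num)⟩
  left_inv := by decide
  right_inv := by decide

/-- antipodes of the cube -/
def e8 : Fin 8 ≃ Fin 8 where
  toFun h := ⟨7 - h.val, by omega⟩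
  invFun h := ⟨7 - h.val, by omega⟩
  left_inv := by decide
  right_inv := by decide

theorem six (q : ℕ) : SelfComplementaryOptimal (completeBipartiteGraph (Fin 6) (Fin q)) := by
  have hn : 0 < 8 := by norm_num
  obtain ⟨h1, h2⟩ := sup_disj Pool.Agent.H678R3.BipUpper.cfg6 hn q
  refine close _ _ _ h1 h2 (iso_planes _ hn q e6 (by decide +kernel)) ?_
  have c1 := Pool.Agent.H678R3.BipUpper.crossing_Gr Pool.Agent.H678R3.BipUpper.valid6 hn q true
  have c2 := Pool.Agent.H678R3.BipUpper.crossing_Gr Pool.Agent.H678R3.BipUpper.valid6 hn q false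
  rw [Pool.Agent.H678R3.BipUpper.sum_div8] at c1 c2
  have l := H571R3.cr2_le_biplanar (completeBipartiteGraph (Fin 6) (Fin q))
  have l2 := H571R3.six_int q
  rcases Nat.eq_zero_or_pos (q / 8) with h0 | h0
  · rw [h0] at c1 c2
    omega
  · have e : ((2 * ((q / 8) * (q - 4 * (q / 8) - 4)) : ℕ) : ℤ) =
        2 * ((q / 8 : ℕ) : ℤ) * ((q : ℤ) - 4 * ((q / 8 : ℕ) : ℤ) - 4) := by
      rw [show q - 4 * (q / 8) - 4 = q - (4 * (q / 8) + 4) by omega]
      push_cast [Nat.cast_sub (show 4 * (q / 8) + 4 ≤ q by omega)]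
      ring
    rw [← e] at l2
    have l3 : H571R3.cr2 (completeBipartiteGraph (Fin 6) (Fin q)) =
      2 * ((q / 8) * (q - 4 * (q / 8) - 4)) := by exact_mod_cast l2
    omega

theorem eight (q : ℕ) : SelfComplementaryOptimal (completeBipartiteGraph (Fin 8) (Fin q)) := by
  have hn : 0 < 6 := by norm_num
  obtain ⟨h1, h2⟩ := sup_disj Pool.Agent.H678R3.BipUpper.cfg8 hn q
  refine close _ _ _ h1 h2 (iso_planes _ hn q e8 (by decide +kernel)) ?_
  have c1 := Pool.Agent.H678R3.BipUpper.crossing_Gr Pool.Agent.H678R3.BipUpper.valid8 hn q true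
  have c2 := Pool.Agent.H678R3.BipUpper.crossing_Gr Pool.Agent.H678R3.BipUpper.valid8 hn q false
  rw [Pool.Agent.H678R3.BipUpper.sum_div6] at c1 c2
  have l := H571R3.cr2_le_biplanar (completeBipartiteGraph (Fin 8) (Fin q))
  have l2 := H571R3.eight_int q
  rcases Nat.eq_zero_or_pos (q / 6) with h0 | h0
  · rw [h0] at c1 c2
    omega
  · have e : ((4 * ((q / 6) * (q - 3 * (q / 6) - 3)) : ℕ) : ℤ) =
        4 * ((q / 6 : ℕ) : ℤ) * ((q : ℤ) - 3 * ((q / 6 : ℕ) : ℤ) - 3) := by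
      rw [show q - 3 * (q / 6) - 3 = q - (3 * (q / 6) + 3) by omega]
      push_cast [Nat.cast_sub (show 3 * (q / 6) + 3 ≤ q by omega)]
      ring
    rw [← e] at l2
    have l3 : H571R3.cr2 (completeBipartiteGraph (Fin 8) (Fin q)) =
      4 * ((q / 6) * (q - 3 * (q / 6) - 3)) := by exact_mod_cast l2
    omega

/-- swapping `2i` and `2i+1` -/
def esw (q : ℕ) (hq : Even q) : Fin q ≃ Fin q where
  toFun k := ⟨k.val + 1 - 2 * (k.val % 2), by obtain ⟨r, hr⟩ := hq; have := k.2; omega⟩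
  invFun k := ⟨k.val + 1 - 2 * (k.val % 2), by obtain ⟨r, hr⟩ := hq; have := k.2; omega⟩
  left_inv k := by apply Fin.ext; simp only; omega
  right_inv k := by apply Fin.ext; simp only; omega

lemma tau_sw : ∀ r : Fin 20, H571R3.Seven.sig (H571R3.Seven.tau r) =
    H571R3.Seven.tau ⟨(r.val + 1 - 2 * (r.val % 2)) % 20, Nat.mod_lt _ (by norm_num)⟩ := by
  decide +kernel

lemma ty_sw (q : ℕ) (hq : Even q) (k : Fin q) :
    H571R3.Seven.ty q (esw q hq k) = H571R3.Seven.sig (H571R3.Seven.ty q k) := by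
  unfold H571R3.Seven.ty
  rw [tau_sw]
  congr 1
  apply Fin.ext
  simp only [esw, Equiv.coe_fn_mk]
  omega

lemma sig_sig : ∀ c : Fin 20, H571R3.Seven.sig (H571R3.Seven.sig c) = c := by decide +kernel

theorem seven (q : ℕ) (hq : Even q) :
    SelfComplementaryOptimal (completeBipartiteGraph (Fin 7) (Fin q)) := by
  refine close _ _ _ (H571R3.Seven.sup7 q) (H571R3.Seven.disj7 q) ?_ ?_
  · refine ⟨⟨Equiv.sumCongr (Equiv.refl _) (esw q hq), ?_⟩⟩
    rintro (h | k) (h' | k') <;>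
      simp [H571R3.Pattern.Gr, ty_sw, sig_sig]
  · have h1 := H571R3.Seven.lower7 q
    obtain ⟨r, hr⟩ := hq
    rw [← H571R3.Seven.total7 q (by omega) (by omega)] at h1
    have c1 := H571R3.Seven.crossing_seven (H571R3.Seven.ty q)
    have c2 := H571R3.Seven.crossing_seven (fun k => H571R3.Seven.sig (H571R3.Seven.ty q k))
    have h2 := Int.ofNat_le.mp h1
    omega

end H571R3.SelfCompl
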