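import Pool.Agent.H571R3.Pattern
set_option autoImplicit false

/-! The pattern of `K_(7,q)`: the pentagonal bipyramid. -/

namespace H571R3.Seven

open Pool.Agent.Helper770.Crossing Pool.Agent.Helper770.Straight Pool.Agent.Helper770.Blowup
  Pool.Agent.Helper770.Blowup.Data H571R3.Pattern

/-- coordinates -/
def d7 : Data 27 where
  bx v := ([-9, -1, 15, -17, -10, -4, 12, 18, -19, -18, -13, -9, -7, -7, -6, -5, 2, 6, -11, -11, -4, -6, -1, 1, 2, 10, 3] : List ℤ).getD v.val 0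
  cy v := ([-20, 8, 14, 17, 1, 1, 10, 16, 20, 18, 9, -8, -11, -14, -13, -13, -4, 13, 16, 13, 7, 3, 3, 4, 4, 9, 10] : List ℤ).getD v.val 0
  dx v := ([-1, -1, -1, -1, 0, -1, 0, -5, -1, -2, 0, -1, -1, -2, -1, -1, -1, 0, -1, -3, -1, -2, -1, -2, -1, 0, 0] : List ℤ).getD v.val 0
  dy v := ([0, 0, 0, 0, -1, -1, -1, -4, 1, 3, -1, -4, 0, -3, 1, -2, 0, -1, -1, 1, 0, 1, 2, 1, -1, -1, -1] : List ℤ).getD v.val 0

/-- legs: hub `0`, `1` are the apexes, hub `2+j` is the vertex at position `2j` of a cycle of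
length 10, cluster `10s+t` is joined to apex `s` and the vertices at distance at most 2 of `t` -/
def A7 (h : Fin 7) (c : Fin 20) : Bool :=
  if h.val < 2 then decide (h.val = c.val / 10)
  else decide ((2 * (h.val - 2) + 12 - c.val % 10) % 10 ≤ 4)

/-- the pattern -/
def cfg7 : Pat 7 20 27 where
  hub h := ⟨h.val, by omega⟩
  cl c := ⟨c.val + 7, by omega⟩
  D := d7
  A := A7
  X := [((0,1),(3,2)),((0,2),(3,2)),((0,8),(6,2)),((0,9),(6,2)),((1,2),(3,2)),((2,3),(4,0)),((2,4),(4,3)),((3,4),(0,3)),((4,5),(5,4)),((4,6),(5,4)),((5,6),(0,4)),((6,7),(6,5)),((6,8),(6,5)),((7,8),(6,5)),((8,9),(2,6)),((10,11),(3,1)),((10,12),(3,2)),((10,18),(6,2)),((10,19),(6,2)),((11,12),(1,2)),((12,13),(4,3)),((12,14),(4,3)),((13,14),(4,3)),((14,15),(5,4)),((14,16),(5,4)),((15,16),(1,4)),((16,17),(6,1)),((16,18),(6,5)),((17,18),(1,5)),((18,19),(2,6))]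
  Y := [(0,(2,3)),(0,(6,0)),(1,(0,3)),(2,(0,4)),(2,(2,3)),(3,(0,4)),(4,(0,5)),(4,(3,4)),(5,(4,5)),(6,(0,6)),(6,(4,5)),(7,(5,6)),(8,(0,5)),(8,(2,6)),(9,(6,2)),(10,(1,3)),(10,(6,2)),(11,(1,2)),(12,(3,2)),(12,(4,1)),(13,(3,1)),(14,(3,1)),(14,(4,5)),(15,(4,5)),(16,(1,6)),(16,(4,5)),(17,(5,1)),(18,(5,1)),(18,(6,2)),(19,(6,2))]

lemma ok7 : d7.Ok where
  base := by decide +kernel
  dir := by decide +kernel

lemma valid7 : cfg7.Valid where
  ok := ok7
  hm := by norm_num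
  hubinj := by decide +kernel
  clinj := by decide +kernel
  disj := by decide +kernel
  Xnd := by decide +kernel
  Ynd := by decide +kernel
  cross := by decide +kernel
  same := by decide +kernel

lemma ch2 (a b : ℕ) : (a + b).choose 2 = a.choose 2 + b.choose 2 + a * b := by
  induction b with
  | zero => simp
  | succ b ih =>
    rw [← add_assoc, Nat.choose_succ_succ' (a + b) 1, Nat.choose_succ_succ' b 1, ih]
    simp only [Nat.choose_one_right]
    ring

lemma ch3 (a b c : ℕ) : (a + b + c).choose 2 =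
    a.choose 2 + b.choose 2 + c.choose 2 + a * b + a * c + b * c := by
  rw [ch2, ch2]; ring

/-- the cost of a window -/
def W {q : ℕ} (ty : Fin q → Fin 20) (a b c : Fin 20) : ℕ :=
  ((F ty a).card + (F ty b).card + (F ty c).card).choose 2

/-- the cost of one plane -/
def cost {q : ℕ} (ty : Fin q → Fin 20) : ℕ :=
  W ty 0 1 2 + W ty 2 3 4 + W ty 4 5 6 + W ty 6 7 8 + W ty 8 9 0 +
  W ty 10 11 12 + W ty 12 13 14 + W ty 14 15 16 + W ty 16 17 18 + W ty 18 19 10

theorem crossing_seven {q : ℕ} (ty : Fin q → Fin 20) :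
    crossingNumber (Gr cfg7 ty) ≤ cost ty := by
  refine (crossing_Gr valid7 ty).trans (le_of_eq ?_)
  simp only [cfg7, cost, W, List.map_cons, List.map_nil, List.sum_cons, List.sum_nil, ch3]
  ring

end H571R3.Seven
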