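import Pool.Agent.H571R3.Seven
import Pool.Agent.H571R3.CoverDef
set_option autoImplicit false

/-! The biplanar crossing number of `K_(7,q)`. -/

namespace H571R3.Seven

open Pool.Agent.Helper770.Crossing H571R3.Pattern

/-- the type of a residue modulo 20 -/
def tau (r : Fin 20) : Fin 20 := ⟨(10 * (r.val % 2) + (3 * (r.val / 2) + 5 * (r.val % 2)) % 10) % 20, Nat.mod_lt _ (by norm_num)⟩

/-- the residue of a type -/
def rho (c : Fin 20) : Fin 20 :=
  ⟨(2 * ((7 * (c.val % 10 + 5 * (c.val / 10))) % 10) + c.val / 10) % 20, Nat.mod_lt _ (by norm_num)⟩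

/-- the complementary type -/
def sig (c : Fin 20) : Fin 20 :=
  ⟨(10 * (1 - c.val / 10) + (c.val % 10 + 5) % 10) % 20, Nat.mod_lt _ (by norm_num)⟩

lemma tau_eq : ∀ r c : Fin 20, tau r = c ↔ r = rho c := by decide +kernel

lemma sig_eq : ∀ r c : Fin 20, sig r = c ↔ r = sig c := by decide +kernel

lemma compl7 : ∀ (h : Fin 7) (c : Fin 20), A7 h (sig c) = !A7 h c := by decide +kernel

/-- the type of a vertex -/
def ty (q : ℕ) (k : Fin q) : Fin 20 := tau ⟨k.val % 20, Nat.mod_lt _ (by norm_num)⟩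

lemma card_range (q r : ℕ) (hr : r < 20) :
    ((Finset.range q).filter (fun k => k % 20 = r)).card = (q + 19 - r) / 20 := by
  induction q with
  | zero => simp; omega
  | succ q ih =>
    rw [Finset.range_add_one, Finset.filter_insert]
    split_ifs with h
    · rw [Finset.card_insert_of_notMem (by simp), ih]; omega
    · rw [ih]; omega

lemma card_res (q : ℕ) (r : Fin 20) :
    (Finset.univ.filter (fun k : Fin q => (⟨k.val % 20, Nat.mod_lt _ (by norm_num)⟩ : Fin 20) = r)).card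
      = (q + 19 - r.val) / 20 := by
  rw [← card_range q r.val r.2]
  apply Finset.card_bij (fun k _ => k.val)
  · intro k hk
    simp only [Finset.mem_filter, Finset.mem_univ, true_and] at hk
    simp only [Finset.mem_filter, Finset.mem_range]
    exact ⟨k.2, by rw [← hk]⟩
  · intro a _ b _ h
    exact Fin.ext h
  · intro b hb
    simp only [Finset.mem_filter, Finset.mem_range] at hb
    exact ⟨⟨b, hb.1⟩, by simp only [Finset.mem_filter, Finset.mem_univ, true_and]; exact Fin.ext hb.2, rfl⟩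

lemma card_F (q : ℕ) (c : Fin 20) : (F (ty q) c).card = (q + 19 - (rho c).val) / 20 := by
  rw [← card_res q (rho c)]
  congr 1
  ext k
  simp only [F, Finset.mem_filter, Finset.mem_univ, true_and]
  exact tau_eq _ _

lemma card_F' (q : ℕ) (c : Fin 20) :
    (F (fun k => sig (ty q k)) c).card = (q + 19 - (rho (sig c)).val) / 20 := by
  rw [← card_F q (sig c)]
  congr 1
  ext k
  simp only [F, Finset.mem_filter, Finset.mem_univ, true_and]
  exact sig_eq _ _

lemma two_ch (k w : ℕ) (h : w = k ∨ w = k + 1) :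
    (2 * (w.choose 2 : ℕ) : ℤ) = 2 * k * w - k * (k + 1) := by
  have h2 : 2 * w.choose 2 = w * (w - 1) := by
    rw [Nat.choose_two_right, Nat.mul_div_cancel']
    exact (Nat.even_mul_pred_self w).two_dvd
  have h3 : ((w * (w - 1) : ℕ) : ℤ) = (w : ℤ) * ((w : ℤ) - 1) := by
    rcases Nat.eq_zero_or_pos w with rfl | hw
    · simp
    · push_cast [Nat.cast_sub hw]; ring
  have h4 : ((2 * w.choose 2 : ℕ) : ℤ) = (w : ℤ) * ((w : ℤ) - 1) := by rw [h2, h3]
  push_cast at h4
  rw [h4]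
  rcases h with rfl | rfl
  · ring
  · push_cast; ring

/-- the windows -/
def L7 : List (Fin 20 × Fin 20 × Fin 20) :=
  [(0,1,2), (2,3,4), (4,5,6), (6,7,8), (8,9,0), (10,11,12), (12,13,14), (14,15,16), (16,17,18), (18,19,10)]

lemma cost_eq {q : ℕ} (t : Fin q → Fin 20) : cost t =
    (L7.map (fun x => ((F t x.1).card + (F t x.2.1).card + (F t x.2.2).card).choose 2)).sum := by
  simp only [cost, W, L7, List.map_cons, List.map_nil, List.sum_cons, List.sum_nil]
  ring

lemma two_ch' (n : ℕ) : (2 : ℤ) * (n.choose 2 : ℕ) = (n : ℤ) * ((n : ℤ) - 1) := by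
  have h2 : 2 * n.choose 2 = n * (n - 1) := by
    rw [Nat.choose_two_right, Nat.mul_div_cancel']
    exact (Nat.even_mul_pred_self n).two_dvd
  have h3 : ((n * (n - 1) : ℕ) : ℤ) = (n : ℤ) * ((n : ℤ) - 1) := by
    rcases Nat.eq_zero_or_pos n with rfl | hw
    · simp
    · push_cast [Nat.cast_sub hw]; ring
  have h4 : ((2 * n.choose 2 : ℕ) : ℤ) = (n : ℤ) * ((n : ℤ) - 1) := by rw [h2, h3]
  push_cast at h4
  exact h4

lemma list_sum {α : Type*} (L : List α) (m : ℕ) (w : α → ℕ) :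
    (2 : ℤ) * ((L.map (fun x => (3 * m + w x).choose 2)).sum : ℕ) =
      9 * m * m * L.length + (6 * ((L.map w).sum : ℕ) - 3 * L.length) * m +
        (((L.map (fun x => w x * w x)).sum : ℕ) - ((L.map w).sum : ℕ)) := by
  induction L with
  | nil => simp
  | cons a L ih =>
    simp only [List.map_cons, List.sum_cons, List.length_cons]
    push_cast
    push_cast at ih
    have := two_ch' (3 * m + w a)
    push_cast at this
    linear_combination ih + this

/-- excess of a residue -/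
def nn (r : ℕ) (c : Fin 20) : ℕ := if (rho c).val < r then 1 else 0

/-- excess of a window -/
def w1 (r : ℕ) (x : Fin 20 × Fin 20 × Fin 20) : ℕ := nn r x.1 + nn r x.2.1 + nn r x.2.2

/-- excess of a window in the second plane -/
def w2 (r : ℕ) (x : Fin 20 × Fin 20 × Fin 20) : ℕ :=
  nn r (sig x.1) + nn r (sig x.2.1) + nn r (sig x.2.2)

lemma card_F1 (m r : ℕ) (hr : r < 20) (c : Fin 20) :
    (F (ty (20 * m + r)) c).card = m + nn r c := by
  rw [card_F]
  have := (rho c).2
  unfold nn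
  split_ifs with h <;> omega

lemma card_F2 (m r : ℕ) (hr : r < 20) (c : Fin 20) :
    (F (fun k => sig (ty (20 * m + r) k)) c).card = m + nn r (sig c) := by
  rw [card_F']
  have := (rho (sig c)).2
  unfold nn
  split_ifs with h <;> omega

lemma fin_check : ∀ r : Fin 20,
    (L7.map (w1 r.val)).sum + (L7.map (w2 r.val)).sum = 3 * r.val ∧
    (r.val ≠ 7 → r.val ≠ 13 → (L7.map (fun x => w1 r.val x * w1 r.val x)).sum +
      (L7.map (fun x => w2 r.val x * w2 r.val x)).sum + 20 * (3 * r.val / 20) * (3 * r.val / 20 + 1) =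
        3 * r.val + 2 * (3 * r.val / 20) * (3 * r.val)) ∧
    ((L7.map (fun x => w1 r.val x * w1 r.val x)).sum +
      (L7.map (fun x => w2 r.val x * w2 r.val x)).sum + 20 * (3 * r.val / 20) * (3 * r.val / 20 + 1) ≤
        3 * r.val + 2 * (3 * r.val / 20) * (3 * r.val) + 2) := by decide +kernel

lemma total_form (m r : ℕ) (hr : r < 20) :
    (2 : ℤ) * ((cost (ty (20 * m + r)) + cost (fun k => sig (ty (20 * m + r) k)) : ℕ) : ℤ) =
      180 * m * m + (18 * r - 60) * m + (((L7.map (fun x => w1 r x * w1 r x)).sum : ℕ) +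
      ((L7.map (fun x => w2 r x * w2 r x)).sum : ℕ) - 3 * r) := by
  have e1 : cost (ty (20 * m + r)) = (L7.map (fun x => (3 * m + w1 r x).choose 2)).sum := by
    rw [cost_eq]
    congr 2
    funext x
    rw [card_F1 m r hr, card_F1 m r hr, card_F1 m r hr, w1]
    congr 1; ring
  have e2 : cost (fun k => sig (ty (20 * m + r) k)) =
      (L7.map (fun x => (3 * m + w2 r x).choose 2)).sum := by
    rw [cost_eq]
    congr 2
    funext x
    rw [card_F2 m r hr, card_F2 m r hr, card_F2 m r hr, w2]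
    congr 1; ring
  have h1 := list_sum L7 m (w1 r)
  have h2 := list_sum L7 m (w2 r)
  have h3 := (fin_check ⟨r, hr⟩).1
  simp only at h3
  have h4 : (L7.length : ℤ) = 10 := by rfl
  have h5 : (((L7.map (w1 r)).sum : ℕ) : ℤ) + ((L7.map (w2 r)).sum : ℕ) = 3 * r := by exact_mod_cast h3
  rw [h4] at h1 h2
  rw [e1, e2]
  push_cast
  push_cast at h1 h2 h5
  linear_combination h1 + h2 + (6 * (m : ℤ) - 1) * h5

/-- the exact total -/
lemma total7 (q : ℕ) (hq : q % 20 ≠ 7) (hq' : q % 20 ≠ 13) :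
    ((cost (ty q) + cost (fun k => sig (ty q k)) : ℕ) : ℤ) =
      ((3 * q / 20 : ℕ) : ℤ) * (3 * q - 10 * ((3 * q / 20 : ℕ) : ℤ) - 10) := by
  obtain ⟨m, r, hr, rfl⟩ : ∃ m r, r < 20 ∧ q = 20 * m + r :=
    ⟨q / 20, q % 20, Nat.mod_lt _ (by norm_num), (Nat.div_add_mod q 20).symm⟩
  have h1 := total_form m r hr
  have h7 : r ≠ 7 := by omega
  have h13 : r ≠ 13 := by omega
  have h2 := (fin_check ⟨r, hr⟩).2.1 h7 h13
  simp only at h2
  have h3 : 3 * (20 * m + r) / 20 = 3 * m + 3 * r / 20 := by omega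
  rw [h3]
  generalize 3 * r / 20 = κ at *
  zify at h2
  push_cast
  push_cast at h1
  have : (2 : ℤ) * ((cost (ty (20 * m + r)) : ℤ) + (cost (fun k => sig (ty (20 * m + r) k)) : ℤ)) =
      2 * ((3 * m + κ) * (3 * (20 * m + r) - 10 * (3 * m + κ) - 10)) := by
    linear_combination h1 + h2
  linarith

/-- the total, up to one -/
lemma total7_le (q : ℕ) :
    ((cost (ty q) + cost (fun k => sig (ty q k)) : ℕ) : ℤ) ≤
      ((3 * q / 20 : ℕ) : ℤ) * (3 * q - 10 * ((3 * q / 20 : ℕ) : ℤ) - 10) + 1 := by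
  obtain ⟨m, r, hr, rfl⟩ : ∃ m r, r < 20 ∧ q = 20 * m + r :=
    ⟨q / 20, q % 20, Nat.mod_lt _ (by norm_num), (Nat.div_add_mod q 20).symm⟩
  have h1 := total_form m r hr
  have h2 := (fin_check ⟨r, hr⟩).2.2
  simp only at h2
  have h3 : 3 * (20 * m + r) / 20 = 3 * m + 3 * r / 20 := by omega
  rw [h3]
  generalize 3 * r / 20 = κ at *
  zify at h2
  push_cast
  push_cast at h1
  nlinarith [h1, h2]

/-- the union of the two planes -/
lemma sup7 (q : ℕ) : Gr cfg7 (ty q) ⊔ Gr cfg7 (fun k => sig (ty q k)) =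
    completeBipartiteGraph (Fin 7) (Fin q) := by
  ext x y
  simp only [SimpleGraph.sup_adj, completeBipartiteGraph_adj]
  constructor
  · rintro ((⟨h, k, rfl, rfl, -⟩ | ⟨h, k, rfl, rfl, -⟩) | (⟨h, k, rfl, rfl, -⟩ | ⟨h, k, rfl, rfl, -⟩)) <;>
      simp
  · rintro (⟨hx, hy⟩ | ⟨hx, hy⟩)
    · obtain ⟨h, rfl⟩ := Sum.isLeft_iff.mp hx
      obtain ⟨k, rfl⟩ := Sum.isRight_iff.mp hy
      cases hb : A7 h (ty q k)
      · exact Or.inr (Or.inl ⟨h, k, rfl, rfl, by show A7 h (sig (ty q k)) = true; rw [compl7, hb]; rfl⟩)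
      · exact Or.inl (Or.inl ⟨h, k, rfl, rfl, hb⟩)
    · obtain ⟨k, rfl⟩ := Sum.isRight_iff.mp hx
      obtain ⟨h, rfl⟩ := Sum.isLeft_iff.mp hy
      cases hb : A7 h (ty q k)
      · exact Or.inr (Or.inr ⟨h, k, rfl, rfl, by show A7 h (sig (ty q k)) = true; rw [compl7, hb]; rfl⟩)
      · exact Or.inl (Or.inr ⟨h, k, rfl, rfl, hb⟩)

/-- the two planes share no edge -/
lemma disj7 (q : ℕ) : Disjoint (Gr cfg7 (ty q)) (Gr cfg7 (fun k => sig (ty q k))) := by
  rw [disjoint_iff]
  ext x y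
  simp only [SimpleGraph.inf_adj, SimpleGraph.bot_adj, iff_false, not_and]
  rintro (⟨h, k, rfl, rfl, hb⟩ | ⟨h, k, rfl, rfl, hb⟩) (⟨h', k', e1, e2, hb'⟩ | ⟨h', k', e1, e2, hb'⟩)
  · rw [← Sum.inl.inj e1, ← Sum.inr.inj e2] at hb'
    change A7 h (sig (ty q k)) = true at hb'
    change A7 h (ty q k) = true at hb
    rw [compl7, hb] at hb'
    exact Bool.noConfusion hb'
  · exact Sum.inl_ne_inr e1.symm
  · exact Sum.inl_ne_inr e1.symm
  · rw [← Sum.inl.inj e1, ← Sum.inr.inj e2] at hb'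
    change A7 h (sig (ty q k)) = true at hb'
    change A7 h (ty q k) = true at hb
    rw [compl7, hb] at hb'
    exact Bool.noConfusion hb'

theorem biplanar7_le (q : ℕ) : biplanarCrossingNumber (completeBipartiteGraph (Fin 7) (Fin q)) ≤
    cost (ty q) + cost (fun k => sig (ty q k)) := by
  have h : biplanarCrossingNumber (completeBipartiteGraph (Fin 7) (Fin q)) ≤
      crossingNumber (Gr cfg7 (ty q)) + crossingNumber (Gr cfg7 (fun k => sig (ty q k))) := by
    apply Nat.sInf_le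
    exact ⟨_, _, sup7 q, disj7 q, rfl⟩
  exact h.trans (add_le_add (crossing_seven _) (crossing_seven _))

/-- lower bound for the partition form -/
theorem biplanar_lower {p : ℕ} (hp : 3 ≤ p) (q k : ℕ) :
    k * ((p - 4) * q) ≤ biplanarCrossingNumber (completeBipartiteGraph (Fin p) (Fin q)) +
      2 * (k * (k + 1) * (p - 2)) :=
  (cr2_lower hp q k).trans (by have := cr2_le_biplanar (completeBipartiteGraph (Fin p) (Fin q)); omega)

theorem lower7 (q : ℕ) : ((3 * q / 20 : ℕ) : ℤ) * (3 * q - 10 * ((3 * q / 20 : ℕ) : ℤ) - 10) ≤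
    (biplanarCrossingNumber (completeBipartiteGraph (Fin 7) (Fin q)) : ℤ) := by
  have h := biplanar_lower (p := 7) (by norm_num) q (3 * q / 20)
  norm_num at h
  generalize 3 * q / 20 = k at *
  zify at h
  nlinarith [h]

theorem seven_exact (q : ℕ) (hq : q % 20 ≠ 7) (hq' : q % 20 ≠ 13) :
    (biplanarCrossingNumber (completeBipartiteGraph (Fin 7) (Fin q)) : ℤ) =
      ((3 * q / 20 : ℕ) : ℤ) * (3 * q - 10 * ((3 * q / 20 : ℕ) : ℤ) - 10) := by
  apply le_antisymm _ (lower7 q)
  rw [← total7 q hq hq']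
  exact_mod_cast biplanar7_le q

theorem seven_le (q : ℕ) :
    (biplanarCrossingNumber (completeBipartiteGraph (Fin 7) (Fin q)) : ℤ) ≤
      ((3 * q / 20 : ℕ) : ℤ) * (3 * q - 10 * ((3 * q / 20 : ℕ) : ℤ) - 10) + 1 := by
  refine le_trans ?_ (total7_le q)
  exact_mod_cast biplanar7_le q

end H571R3.Seven
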